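import Pool.Agent.H607.Second
import Mathlib

/-!
# Almost sure convergence of the averages of the Weyl sums
-/

set_option autoImplicit false

namespace Pool.Agent.H607

open Finset Filter Topology MeasureTheory
open Pool.Agent.W206.ND (ee NT AV)

section

variable {Ω : Type*} [MeasurableSpace Ω] {μ : Measure Ω} [IsProbabilityMeasure μ] {X : Ω → ℝ}

/-- a series of nonnegative functions with summable integrals tends to zero almost surely -/
lemma ae_tendsto_zero (f : ℕ → Ω → ℝ) (hf : ∀ j, Measurable (f j)) (hf0 : ∀ j ω, 0 ≤ f j ω)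
    (hfi : ∀ j, Integrable (f j) μ) (A : ℕ → ℝ) (hA : ∀ᶠ j in atTop, ∫ ω, f j ω ∂μ ≤ A j)
    (hs : Summable A) :
    ∀ᵐ ω ∂μ, Tendsto (fun j => f j ω) atTop (𝓝 0) := by
  obtain ⟨J, hJ⟩ := eventually_atTop.1 hA
  have hAJ : Summable fun j => A (j + J) := (summable_nat_add_iff J).2 hs
  have h1 : ∫⁻ ω, ∑' j, ENNReal.ofReal (f (j + J) ω) ∂μ ≠ ⊤ := by
    rw [lintegral_tsum (fun j => ((hf _).ennreal_ofReal).aemeasurable)]
    have h2 : ∀ j, ∫⁻ ω, ENNReal.ofReal (f (j + J) ω) ∂μ ≤ ENNReal.ofReal (A (j + J)) := by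
      intro j
      rw [← ofReal_integral_eq_lintegral_ofReal (hfi _) (ae_of_all _ (hf0 _))]
      exact ENNReal.ofReal_le_ofReal (hJ _ (by omega))
    refine ne_top_of_le_ne_top ?_ (ENNReal.tsum_le_tsum h2)
    exact hAJ.tsum_ofReal_ne_top
  have h3 : ∀ᵐ ω ∂μ, ∑' j, ENNReal.ofReal (f (j + J) ω) < ⊤ :=
    ae_lt_top (Measurable.tsum fun j => (hf _).ennreal_ofReal) h1
  filter_upwards [h3] with ω hω
  have h4 : Tendsto (fun j => ENNReal.ofReal (f (j + J) ω)) atTop (𝓝 0) :=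
    ENNReal.tendsto_atTop_zero_of_tsum_ne_top hω.ne
  have h5 := (ENNReal.tendsto_toReal ENNReal.zero_ne_top).comp h4
  have h6 : Tendsto (fun j => f (j + J) ω) atTop (𝓝 0) := by
    refine (h5.congr fun j => ?_)
    simp [ENNReal.toReal_ofReal (hf0 _ _)]
  exact (tendsto_add_atTop_iff_nat J).1 h6

lemma ee_re_ge (x : ℝ) : -1 ≤ (ee x).re := by
  have := Complex.abs_re_le_norm (ee x)
  rw [ee_norm] at this
  exact (abs_le.1 this).1

lemma ee_im_ge (x : ℝ) : -1 ≤ (ee x).im := by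
  have := Complex.abs_im_le_norm (ee x)
  rw [ee_norm] at this
  exact (abs_le.1 this).1

lemma ws_succ (b : ℕ) (x : ℝ) (N : ℕ) : WS b x (N + 1) = WS b x N + ee ((b : ℝ) ^ N * x) := by
  unfold WS
  rw [sum_range_succ]

/-- from a sparse sequence to all `N` -/
lemma ws_tendsto (b : ℕ) (x : ℝ)
    (h : ∀ k : ℕ, Tendsto (fun j : ℕ => ‖WS b x ⌊(1 + 1 / ((k : ℝ) + 1)) ^ j⌋₊‖ /
      (⌊(1 + 1 / ((k : ℝ) + 1)) ^ j⌋₊ : ℝ)) atTop (𝓝 0)) :
    Tendsto (fun N : ℕ => WS b x N / (N : ℂ)) atTop (𝓝 0) := by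
  have hc1 : ∀ k : ℕ, 1 < 1 + 1 / ((k : ℝ) + 1) := fun k => by
    have : 0 < 1 / ((k : ℝ) + 1) := by positivity
    linarith
  have hclim : Tendsto (fun k : ℕ => 1 + 1 / ((k : ℝ) + 1)) atTop (𝓝 1) := by
    have := tendsto_one_div_add_atTop_nhds_zero_nat (𝕜 := ℝ)
    simpa using this.const_add 1
  have hN : ∀ k : ℕ, Tendsto (fun j : ℕ => (⌊(1 + 1 / ((k : ℝ) + 1)) ^ j⌋₊ : ℕ)) atTop atTop := by
    intro k
    exact tendsto_nat_floor_atTop.comp (tendsto_pow_atTop_atTop_of_one_lt (hc1 k))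
  -- a real part with partial sums growing by at least `-1`
  have key : ∀ v : ℕ → ℝ, (∀ N, v N - 1 ≤ v (N + 1)) → (∀ N, |v N| ≤ ‖WS b x N‖) →
      Tendsto (fun N : ℕ => v N / (N : ℝ)) atTop (𝓝 0) := by
    intro v hv hvb
    have h1 := tendsto_div_of_monotone_of_tendsto_div_floor_pow (fun N => (N : ℝ) + v N) 1
      (by
        apply monotone_nat_of_le_succ
        intro N
        have := hv N
        push_cast
        linarith)
      (fun k : ℕ => 1 + 1 / ((k : ℝ) + 1)) hc1 hclim (by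
        intro k
        have h2 : Tendsto (fun j : ℕ => 1 + v ⌊(1 + 1 / ((k : ℝ) + 1)) ^ j⌋₊ /
            (⌊(1 + 1 / ((k : ℝ) + 1)) ^ j⌋₊ : ℝ)) atTop (𝓝 (1 + 0)) := by
          refine tendsto_const_nhds.add ?_
          refine squeeze_zero_norm (fun j => ?_) (h k)
          rw [Real.norm_eq_abs, abs_div, Nat.abs_cast]
          gcongr
          exact hvb _
        rw [add_zero] at h2
        refine h2.congr' ?_
        filter_upwards [(hN k).eventually (eventually_gt_atTop 0)] with j hj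
        have : ((⌊(1 + 1 / ((k : ℝ) + 1)) ^ j⌋₊ : ℕ) : ℝ) ≠ 0 := by exact_mod_cast hj.ne'
        rw [add_div, div_self this])
    have h3 : Tendsto (fun N : ℕ => ((N : ℝ) + v N) / N - 1) atTop (𝓝 (1 - 1)) :=
      h1.sub tendsto_const_nhds
    rw [sub_self] at h3
    refine h3.congr' ?_
    filter_upwards [eventually_gt_atTop 0] with N hN0
    have : (N : ℝ) ≠ 0 := by exact_mod_cast hN0.ne'
    field_simp
    ring
  have hre := key (fun N => (WS b x N).re) (fun N => by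
      rw [ws_succ, Complex.add_re]
      have := ee_re_ge ((b : ℝ) ^ N * x)
      linarith) (fun N => Complex.abs_re_le_norm _)
  have him := key (fun N => (WS b x N).im) (fun N => by
      rw [ws_succ, Complex.add_im]
      have := ee_im_ge ((b : ℝ) ^ N * x)
      linarith) (fun N => Complex.abs_im_le_norm _)
  have h4 : Tendsto (fun N : ℕ => (((WS b x N).re / N : ℝ) : ℂ) + (((WS b x N).im / N : ℝ) : ℂ) * Complex.I)
      atTop (𝓝 (((0 : ℝ) : ℂ) + ((0 : ℝ) : ℂ) * Complex.I)) := by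
    refine Tendsto.add ?_ (Tendsto.mul_const _ ?_)
    · exact (Complex.continuous_ofReal.tendsto 0).comp hre
    · exact (Complex.continuous_ofReal.tendsto 0).comp him
  simp only [Complex.ofReal_zero, zero_mul, add_zero] at h4
  refine h4.congr fun N => ?_
  conv_rhs => rw [← Complex.re_add_im (WS b x N)]
  push_cast
  ring

/-- almost sure convergence from the second moments -/
theorem as_av (b : ℕ) (hX : Measurable X) (C : ℝ)
    (h : ∀ᶠ N : ℕ in atTop, ∫ ω, ‖WS b (X ω) N‖ ^ 2 ∂μ ≤ C * ((N : ℝ) ^ 2 / (Real.log N) ^ 2)) :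
    ∀ᵐ ω ∂μ, AV b (X ω) 1 := by
  have hc1 : ∀ k : ℕ, 1 < 1 + 1 / ((k : ℝ) + 1) := fun k => by
    have : 0 < 1 / ((k : ℝ) + 1) := by positivity
    linarith
  have hmain : ∀ k : ℕ, ∀ᵐ ω ∂μ, Tendsto (fun j : ℕ => ‖WS b (X ω) ⌊(1 + 1 / ((k : ℝ) + 1)) ^ j⌋₊‖ /
      (⌊(1 + 1 / ((k : ℝ) + 1)) ^ j⌋₊ : ℝ)) atTop (𝓝 0) := by
    intro k
    set a := 1 + 1 / ((k : ℝ) + 1) with ha
    have ha1 : 1 < a := hc1 k
    have hNt : Tendsto (fun j : ℕ => (⌊a ^ j⌋₊ : ℕ)) atTop atTop :=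
      tendsto_nat_floor_atTop.comp (tendsto_pow_atTop_atTop_of_one_lt ha1)
    have hla : 0 < Real.log a := Real.log_pos ha1
    have h1 := ae_tendsto_zero (μ := μ) (fun j ω => (‖WS b (X ω) ⌊a ^ j⌋₊‖ / (⌊a ^ j⌋₊ : ℝ)) ^ 2)
      (fun j => by
        have := ws_measurable b ⌊a ^ j⌋₊ hX
        fun_prop)
      (fun j ω => by positivity)
      (fun j => by
        refine Integrable.mono' (integrable_const (1 : ℝ)) ?_ (ae_of_all _ fun ω => ?_)
        · have := ws_measurable b ⌊a ^ j⌋₊ hX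
          exact Measurable.aestronglyMeasurable (by fun_prop)
        · rw [Real.norm_of_nonneg (by positivity)]
          have h2 := ws_norm_le b (X ω) ⌊a ^ j⌋₊
          have h3 : ‖WS b (X ω) ⌊a ^ j⌋₊‖ / (⌊a ^ j⌋₊ : ℝ) ≤ 1 := div_le_one_of_le₀ h2 (Nat.cast_nonneg _)
          have h4 : 0 ≤ ‖WS b (X ω) ⌊a ^ j⌋₊‖ / (⌊a ^ j⌋₊ : ℝ) := by positivity
          nlinarith)
      (fun j => |C| * 4 / (Real.log a) ^ 2 * (1 / (j : ℝ) ^ 2))
      (by
        have hfl : ∀ᶠ j : ℕ in atTop, Real.log a / 2 * j ≤ Real.log (⌊a ^ j⌋₊ : ℝ) := by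
          have h5 : ∀ᶠ j : ℕ in atTop, Real.log 2 ≤ Real.log a / 2 * j := by
            have : Tendsto (fun j : ℕ => Real.log a / 2 * (j : ℝ)) atTop atTop :=
              Tendsto.const_mul_atTop (by positivity) tendsto_natCast_atTop_atTop
            exact this.eventually_ge_atTop _
          filter_upwards [h5, hNt.eventually (eventually_ge_atTop 1)] with j hj hj1
          have h6 : a ^ j ≤ 2 * (⌊a ^ j⌋₊ : ℝ) := by
            have h7 := Nat.lt_floor_add_one (a ^ j)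
            have h8 : (1 : ℝ) ≤ (⌊a ^ j⌋₊ : ℝ) := by exact_mod_cast hj1
            linarith
          have h9 : Real.log (a ^ j) ≤ Real.log 2 + Real.log (⌊a ^ j⌋₊ : ℝ) := by
            rw [← Real.log_mul (by norm_num) (by
              have : (1 : ℝ) ≤ (⌊a ^ j⌋₊ : ℝ) := by exact_mod_cast hj1
              positivity)]
            exact Real.log_le_log (by positivity) h6
          rw [Real.log_pow] at h9
          nlinarith
        filter_upwards [hNt.eventually h, hNt.eventually (eventually_ge_atTop 1), hfl,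
          eventually_ge_atTop 1] with j hj hj1 hjl hj0
        have hNpos : (0 : ℝ) < (⌊a ^ j⌋₊ : ℝ) := by
          have : (1 : ℝ) ≤ (⌊a ^ j⌋₊ : ℝ) := by exact_mod_cast hj1
          linarith
        have hj0' : (1 : ℝ) ≤ (j : ℝ) := by exact_mod_cast hj0
        simp only [div_pow]
        rw [integral_div]
        have hlog : 0 < Real.log a / 2 * j := by positivity
        calc (∫ ω, ‖WS b (X ω) ⌊a ^ j⌋₊‖ ^ 2 ∂μ) / (⌊a ^ j⌋₊ : ℝ) ^ 2
            ≤ (C * ((⌊a ^ j⌋₊ : ℝ) ^ 2 / (Real.log (⌊a ^ j⌋₊ : ℝ)) ^ 2)) / (⌊a ^ j⌋₊ : ℝ) ^ 2 := by gcongr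
          _ = C * (1 / (Real.log (⌊a ^ j⌋₊ : ℝ)) ^ 2) := by field_simp
          _ ≤ |C| * (1 / (Real.log (⌊a ^ j⌋₊ : ℝ)) ^ 2) := by
              gcongr
              exact le_abs_self C
          _ ≤ |C| * (1 / (Real.log a / 2 * j) ^ 2) := by
              gcongr
          _ = |C| * 4 / (Real.log a) ^ 2 * (1 / (j : ℝ) ^ 2) := by
              field_simp
              ring)
      ((Real.summable_one_div_nat_pow.2 (by norm_num)).mul_left _)
    filter_upwards [h1] with ω hω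
    have h2 := hω.sqrt
    rw [Real.sqrt_zero] at h2
    refine h2.congr fun j => ?_
    rw [Real.sqrt_sq (by positivity)]
  filter_upwards [ae_all_iff.2 hmain] with ω hω
  have h1 := ws_tendsto b (X ω) hω
  unfold AV
  refine h1.congr fun N => ?_
  unfold WS
  congr 1
  refine sum_congr rfl fun n _ => ?_
  congr 1
  push_cast
  ring

end

end Pool.Agent.H607
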