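import Pool.Agent.H607.ExpTerms

/-!
# The arithmetic of the arctangent series at several rational numbers
-/

set_option autoImplicit false

namespace Pool.Agent.H607

open Finset Filter Topology

/-- the coefficients of a combination of arctangent series -/
noncomputable def acoef {n : ℕ} (h : Fin n → ℤ) (z : Fin n → ℚ) (k : ℕ) : ℝ :=
  (-1) ^ k * (∑ j, (h j : ℝ) * (z j : ℝ) ^ (2 * k + 1)) / ((2 * k + 1 : ℕ) : ℝ)

/-- a combination of odd powers does not vanish identically -/
lemma exists_ne_odd {n : ℕ} (J : Finset (Fin n)) (h a : Fin n → ℤ) (hJ : J.Nonempty)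
    (hh : ∀ j ∈ J, h j ≠ 0) (ha : ∀ j ∈ J, a j ≠ 0)
    (hinj : ∀ i ∈ J, ∀ j ∈ J, |a i| = |a j| → i = j) :
    ∃ k : ℕ, ∑ j ∈ J, h j * a j ^ (2 * k + 1) ≠ 0 := by
  classical
  by_contra hcon
  push Not at hcon
  -- enumerate `J`
  set m := J.card with hm
  let f : Fin m ≃ J := (J.equivFin).symm
  have hz : Function.Injective (fun i : Fin m => ((a (f i) : ℚ)) ^ 2) := by
    intro i i' hii
    have h1 : (a (f i) : ℤ) ^ 2 = a (f i') ^ 2 := by
      simp only at hii
      exact_mod_cast hii
    have h2 := hinj _ (f i).2 _ (f i').2 (sq_eq_sq_iff_abs_eq_abs _ _ |>.1 h1)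
    exact f.injective (Subtype.ext h2)
  have hdet : (Matrix.vandermonde (fun i : Fin m => ((a (f i) : ℚ)) ^ 2)).det ≠ 0 :=
    Matrix.det_vandermonde_ne_zero_iff.2 hz
  have h1 : Matrix.vecMul (fun i : Fin m => (h (f i) : ℚ) * a (f i))
      (Matrix.vandermonde (fun i : Fin m => ((a (f i) : ℚ)) ^ 2)) = 0 := by
    ext k
    simp only [Matrix.vecMul, dotProduct, Matrix.vandermonde_apply, Pi.zero_apply]
    have h2 := hcon k
    have h3 : (∑ i : Fin m, h (f i) * a (f i) ^ (2 * (k : ℕ) + 1)) = 0 := by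
      rw [← h2, ← sum_coe_sort J (fun j => h j * a j ^ (2 * (k : ℕ) + 1))]
      exact Fintype.sum_equiv f _ _ (fun i => rfl)
    have h4 : (((∑ i : Fin m, h (f i) * a (f i) ^ (2 * (k : ℕ) + 1)) : ℤ) : ℚ) = 0 := by
      rw [h3]; simp
    push_cast at h4
    rw [← h4]
    refine sum_congr rfl fun i _ => ?_
    ring
  have h2 := Matrix.eq_zero_of_vecMul_eq_zero hdet h1
  obtain ⟨j, hj⟩ := hJ
  have h3 := congrFun h2 (f.symm ⟨j, hj⟩)
  simp only [Equiv.apply_symm_apply, Pi.zero_apply] at h3
  rcases mul_eq_zero.1 h3 with h4 | h4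
  · exact hh j hj (by exact_mod_cast h4)
  · exact ha j hj (by exact_mod_cast h4)

lemma pow_modEq_unit (a : ℤ) (p w : ℕ) (hp : p.Prime) (ha : ¬ (p : ℤ) ∣ a) (k i : ℕ) :
    (p : ℤ) ^ (w + 1) ∣ a ^ (k + (p ^ w * (p - 1)) * i) - a ^ k := by
  have h := pow_sum_modEq (n := 1) (fun _ => 1) (fun _ => a) p w hp (fun _ => ha) k i
  simpa using h

/-- the general term of the series along a progression, or along `m p ^ i` -/
theorem arctan_terms {n : ℕ} (h : Fin n → ℤ) (z : Fin n → ℚ) (hh : h ≠ 0)
    (hz0 : ∀ j, z j ≠ 0) (hz : Function.Injective fun j => |z j|) (b : ℕ) (hb : 2 ≤ b) :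
    ∃ (p : ℕ) (k e : ℕ → ℕ) (v : ℕ → ℤ) (d m Q : ℕ → ℕ) (A C : ℕ), StrictMono k ∧
      (∀ i, (k i : ℝ) ≤ Real.exp (C * ((i : ℝ) + 1))) ∧
      Terms b p (acoef h z) k e v d m Q A := by
  classical
  set J : Finset (Fin n) := univ.filter fun j => h j ≠ 0 with hJ
  have hJne : J.Nonempty := by
    by_contra hcon
    rw [not_nonempty_iff_eq_empty] at hcon
    apply hh
    ext j
    by_contra hj
    have : j ∈ J := by
      rw [hJ, mem_filter]
      exact ⟨mem_univ j, hj⟩
    rw [hcon] at this
    exact absurd this (notMem_empty j)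
  have hsumJ : ∀ f : Fin n → ℝ, ∑ j, (h j : ℝ) * f j = ∑ j ∈ J, (h j : ℝ) * f j := by
    intro f
    symm
    apply sum_subset (subset_univ J)
    intro j _ hj
    have : h j = 0 := by
      by_contra h0
      exact hj (by rw [hJ, mem_filter]; exact ⟨mem_univ j, h0⟩)
    rw [this, Int.cast_zero, zero_mul]
  have hhJ : ∀ j ∈ J, h j ≠ 0 := fun j hj => (mem_filter.1 hj).2
  by_cases hcase : ∃ p : ℕ, p.Prime ∧ ¬ p ∣ b ∧ ∃ j ∈ J, p ∣ (z j).den
  · -- a prime in a denominator which does not divide `b`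
    obtain ⟨p, hp, hpb, j₁, hj₁, hpj₁⟩ := hcase
    have hp0 := hp.pos
    have hpI := Nat.prime_iff_prime_int.1 hp
    set vd : Fin n → ℕ := fun j => ((z j).den).factorization p with hvd
    obtain ⟨j₂, hj₂, hmax⟩ := exists_max_image J vd hJne
    set ν := vd j₂ with hν
    have hν1 : 1 ≤ ν := by
      have h1 := hmax j₁ hj₁
      have h2 : 1 ≤ vd j₁ := (hp.dvd_iff_one_le_factorization (z j₁).den_nz).1 hpj₁
      omega
    set oc : ℕ → ℕ := fun x => x / p ^ x.factorization p with hoc
    have hocmul : ∀ x, p ^ x.factorization p * oc x = x := fun x => Nat.ordProj_mul_ordCompl_eq_self x p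
    have hocp : ∀ x, x ≠ 0 → ¬ p ∣ oc x := fun x hx => Nat.not_dvd_ordCompl hp hx
    set D := ∏ j ∈ J, oc (z j).den with hD
    have hoc0 : ∀ j, 0 < oc (z j).den := fun j => Nat.ordCompl_pos p (z j).den_nz
    have hD0 : 0 < D := prod_pos fun j _ => hoc0 j
    have hpD : ¬ p ∣ D := by
      intro hd
      obtain ⟨j, _, hj⟩ := (Prime.dvd_finsetProd_iff (Nat.prime_iff.1 hp) _).1 hd
      exact hocp _ (z j).den_nz hj
    -- the integers `a j = p ^ ν D z j`
    set a : Fin n → ℤ := fun j => (z j).num * ((p : ℤ) ^ (ν - vd j) * ∏ i ∈ J.erase j, (oc (z i).den : ℤ))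
      with ha
    have haz : ∀ j ∈ J, (a j : ℚ) = (p : ℚ) ^ ν * D * z j := by
      intro j hj
      have h2 : ((z j).den : ℚ) * z j = (z j).num := Rat.den_mul_eq_num (z j)
      have h3 : ((z j).den : ℚ) = (p : ℚ) ^ vd j * oc (z j).den := by
        exact_mod_cast (hocmul (z j).den).symm
      have h4 : (p : ℚ) ^ ν = (p : ℚ) ^ (ν - vd j) * (p : ℚ) ^ vd j := by
        rw [← pow_add, Nat.sub_add_cancel (hmax j hj)]
      rw [hD, ← mul_prod_erase J _ hj, h4]
      simp only [ha]
      push_cast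
      rw [← h2, h3]
      ring
    have hpa0 : ∀ j ∈ J, vd j = ν → ¬ (p : ℤ) ∣ a j := by
      intro j hj hjν hd
      simp only [ha, hjν, Nat.sub_self, pow_zero, one_mul] at hd
      rcases hpI.dvd_or_dvd hd with h1 | h1
      · have h2 : p ∣ (z j).num.natAbs := Int.natCast_dvd.1 h1
        have h3 : p ∣ (z j).den := (hp.dvd_iff_one_le_factorization (z j).den_nz).2 (by
          show 1 ≤ vd j
          omega)
        exact (Nat.Prime.not_coprime_iff_dvd.2 ⟨p, hp, h2, h3⟩) (z j).reduced
      · obtain ⟨i, _, hi⟩ := (Prime.dvd_finsetProd_iff hpI _).1 h1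
        exact hocp _ (z i).den_nz (by exact_mod_cast hi)
    have hpa1 : ∀ j ∈ J, vd j ≠ ν → (p : ℤ) ∣ a j := by
      intro j hj hjν
      have h1 : vd j < ν := lt_of_le_of_ne (hmax j hj) hjν
      simp only [ha]
      refine Dvd.dvd.mul_left (Dvd.dvd.mul_right (dvd_pow_self _ (by omega)) _) _
    have ha0 : ∀ j ∈ J, a j ≠ 0 := by
      intro j hj h0
      have h1 := haz j hj
      rw [h0, Int.cast_zero] at h1
      have h2 : (p : ℚ) ^ ν * D ≠ 0 := by positivity
      rcases mul_eq_zero.1 h1.symm with h3 | h3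
      · exact h2 h3
      · exact hz0 j h3
    have habs : ∀ i ∈ J, ∀ j ∈ J, |a i| = |a j| → i = j := by
      intro i hi j hj hij
      apply hz
      have h1 : |(a i : ℚ)| = |(a j : ℚ)| := by exact_mod_cast hij
      rw [haz i hi, haz j hj, abs_mul ((p : ℚ) ^ ν * D), abs_mul ((p : ℚ) ^ ν * D)] at h1
      have h2 : |(p : ℚ) ^ ν * D| ≠ 0 := by positivity
      exact mul_left_cancel₀ h2 h1
    set J0 := J.filter fun j => vd j = ν with hJ0
    obtain ⟨ks, hks⟩ := exists_ne_odd J0 h a ⟨j₂, mem_filter.2 ⟨hj₂, rfl⟩⟩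
      (fun j hj => hhJ j (mem_filter.1 hj).1) (fun j hj => ha0 j (mem_filter.1 hj).1)
      (fun i hi j hj => habs i (mem_filter.1 hi).1 j (mem_filter.1 hj).1)
    set Cs := ∑ j ∈ J0, h j * a j ^ (2 * ks + 1) with hCs
    have hfm : FiniteMultiplicity (p : ℤ) Cs := by
      rw [Int.finiteMultiplicity_iff]
      exact ⟨by simpa using hp.ne_one, hks⟩
    set w := multiplicity (p : ℤ) Cs with hw
    have hw1 : (p : ℤ) ^ w ∣ Cs := pow_multiplicity_dvd _ _
    have hw2 : ¬ (p : ℤ) ^ (w + 1) ∣ Cs := hfm.not_pow_dvd_of_multiplicity_lt (by omega)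
    set u := 2 * ks + 1 with hu
    set M := p ^ (w + 1) * (p - 1) * p ^ u with hM
    have hp1 : 1 ≤ p - 1 := by have := hp.two_le; omega
    have hM1 : w + 2 ≤ M := by
      have h1 : w + 1 < p ^ (w + 1) := Nat.lt_pow_self hp.one_lt
      calc w + 2 ≤ p ^ (w + 1) * 1 * 1 := by omega
        _ ≤ _ := Nat.mul_le_mul (Nat.mul_le_mul le_rfl hp1) (Nat.one_le_pow _ _ hp0)
    set k : ℕ → ℕ := fun i => ks + M * (i + 1) with hk
    set K : ℕ → ℕ := fun i => 2 * k i + 1 with hK
    have hKu : ∀ i, K i = u + (p ^ (w + 1) * (p - 1)) * (p ^ u * (2 * (i + 1))) := by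
      intro i
      simp only [hK, hk, hu, hM]
      ring
    have hMk : ∀ i, M ≤ k i := by
      intro i
      simp only [hk]
      nlinarith [Nat.zero_le (M * i), Nat.zero_le ks]
    -- the sums
    set C : ℕ → ℤ := fun t => ∑ j ∈ J, h j * a j ^ t with hC
    have hCk : ∀ i, (p : ℤ) ^ (w + 2) ∣ C (K i) - Cs := by
      intro i
      have h1 : C (K i) - Cs = ∑ j ∈ J0, (h j * a j ^ (K i) - h j * a j ^ u) +
          ∑ j ∈ J.filter (fun j => ¬ vd j = ν), h j * a j ^ (K i) := by
        simp only [hC, hCs]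
        rw [← sum_filter_add_sum_filter_not J (fun j => vd j = ν), sum_sub_distrib]
        ring
      rw [h1]
      apply dvd_add
      · refine dvd_sum fun j hj => ?_
        rw [← mul_sub, hKu i]
        refine Dvd.dvd.mul_left ?_ _
        exact pow_modEq_unit (a j) p (w + 1) hp (hpa0 j (mem_filter.1 hj).1 (mem_filter.1 hj).2) u _
      · refine dvd_sum fun j hj => ?_
        refine Dvd.dvd.mul_left ?_ _
        have h2 := hpa1 j (mem_filter.1 hj).1 (mem_filter.1 hj).2
        refine (pow_dvd_pow_of_dvd h2 (w + 2)).trans (pow_dvd_pow _ ?_)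
        have := hMk i
        simp only [hK]
        omega
    have hvex : ∀ i, ∃ v : ℤ, C (K i) = (p : ℤ) ^ w * v ∧ ¬ (p : ℤ) ∣ v := by
      intro i
      have h1 : (p : ℤ) ^ w ∣ C (K i) := by
        have h2 : (p : ℤ) ^ w ∣ C (K i) - Cs := (pow_dvd_pow _ (by omega)).trans (hCk i)
        have := dvd_add h2 hw1
        simpa using this
      obtain ⟨v, hv⟩ := h1
      refine ⟨v, hv, fun hd => ?_⟩
      have h2 : (p : ℤ) ^ (w + 1) ∣ C (K i) := by
        rw [hv, pow_succ]
        exact mul_dvd_mul_left _ hd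
      have h3 : (p : ℤ) ^ (w + 1) ∣ C (K i) - Cs := (pow_dvd_pow _ (by omega)).trans (hCk i)
      apply hw2
      have := dvd_sub h2 h3
      simpa using this
    choose v hv hvp using hvex
    -- the valuation of `K i`
    set s := u.factorization p with hs
    have hu0 : u ≠ 0 := by omega
    have hsu : s < u := by
      have h1 : p ^ s ≤ u := Nat.le_of_dvd (by omega) (Nat.ordProj_dvd _ _)
      have h2 : s < p ^ s := Nat.lt_pow_self hp.one_lt
      omega
    have hKs : ∀ i, (K i).factorization p = s := by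
      intro i
      have hK0 : K i ≠ 0 := by simp only [hK]; omega
      have hdiff : ∀ t, t ≤ u → (p ^ t ∣ K i ↔ p ^ t ∣ u) := by
        intro t ht
        rw [hKu i]
        have h1 : p ^ t ∣ (p ^ (w + 1) * (p - 1)) * (p ^ u * (2 * (i + 1))) :=
          Dvd.dvd.mul_left (Dvd.dvd.mul_right (pow_dvd_pow p ht) _) _
        exact (Nat.dvd_add_iff_left h1).symm
      apply le_antisymm
      · by_contra hcon
        have h1 : p ^ (s + 1) ∣ K i := (hp.pow_dvd_iff_le_factorization hK0).2 (by omega)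
        have h2 := (hdiff (s + 1) (by omega)).1 h1
        have h3 := (hp.pow_dvd_iff_le_factorization hu0).1 h2
        omega
      · exact (hp.pow_dvd_iff_le_factorization hK0).1
          ((hdiff s (by omega)).2 ((hp.pow_dvd_iff_le_factorization hu0).2 le_rfl))
    set g : ℕ → ℕ := fun i => oc (K i) with hg
    have hKg : ∀ i, K i = p ^ s * g i := by
      intro i
      have := hocmul (K i)
      rw [hKs i] at this
      exact this.symm
    set B := 2 * ks + 2 * M + 1 with hB
    have hKB : ∀ i, K i ≤ B * (i + 1) := by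
      intro i
      simp only [hK, hk, hB]
      nlinarith [Nat.zero_le (ks * i), Nat.zero_le (M * i), Nat.zero_le i]
    set A := D * B + B ^ 2 + B + D + ν * B + s + 1 with hA
    have hkmono : StrictMono k := by
      intro i j hij
      simp only [hk]
      have : M * (i + 1) < M * (j + 1) := Nat.mul_lt_mul_of_pos_left (by omega) (by omega)
      omega
    have hKmono : ∀ i I, i ≤ I → K i ≤ K I := by
      intro i I hiI
      have := hkmono.monotone hiI
      simp only [hK]
      omega
    have hwK : ∀ i, w ≤ ν * K i + s := by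
      intro i
      have h1 := hMk i
      have h2 : K i ≤ ν * K i := Nat.le_mul_of_pos_left _ hν1
      simp only [hK] at h2 ⊢
      omega
    refine ⟨p, k, fun i => ν * K i + s - w, fun i => (-1) ^ (k i) * v i,
      fun i => g i * D ^ (K i), fun _ => 0, fun I => D ^ (K I) * oc ((K I).factorial), A, B,
      hkmono, ?_, hp, hpb, hkmono.injective, ?_, ?_, ?_, ?_, ?_, ?_, ?_, ?_, ?_⟩
    · intro i
      have h1 : (k i : ℝ) ≤ B * ((i : ℝ) + 1) := by
        have h2 : k i ≤ B * (i + 1) := by
          refine le_trans ?_ (hKB i)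
          simp only [hK]
          omega
        exact_mod_cast h2
      have h2 := Real.add_one_le_exp ((B : ℝ) * ((i : ℝ) + 1))
      linarith
    · intro i j hij
      have h1 := hkmono hij
      have h2 := hwK i
      have h3 := hwK j
      have h4 : ν * K i < ν * K j := Nat.mul_lt_mul_of_pos_left (by simp only [hK]; omega) (by omega)
      simp only
      omega
    · intro i
      have hp0' : (p : ℝ) ≠ 0 := by exact_mod_cast hp0.ne'
      have hD0' : (D : ℝ) ≠ 0 := by exact_mod_cast hD0.ne'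
      have hg0 : (g i : ℝ) ≠ 0 := by
        intro h0
        have h1 : g i = 0 := by exact_mod_cast h0
        have h2 := hKg i
        rw [h1, mul_zero] at h2
        simp only [hK] at h2
        omega
      have hKc : ((2 * k i + 1 : ℕ) : ℝ) = (p : ℝ) ^ s * g i := by exact_mod_cast hKg i
      have hcoef : (∑ j, (h j : ℝ) * (z j : ℝ) ^ (2 * k i + 1)) * ((p : ℝ) ^ ν * D) ^ (K i) = C (K i) := by
        rw [hsumJ, sum_mul]
        simp only [hC]
        push_cast
        refine sum_congr rfl fun j hj => ?_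
        have h1 : (a j : ℝ) = (p : ℝ) ^ ν * D * z j := by
          exact_mod_cast congrArg (fun x : ℚ => (x : ℝ)) (haz j hj)
        rw [h1, mul_pow ((p : ℝ) ^ ν * D)]
        have h2 : K i = 2 * k i + 1 := rfl
        rw [h2]
        ring
      have hv' : (C (K i) : ℝ) = (p : ℝ) ^ w * v i := by
        exact_mod_cast congrArg (fun x : ℤ => (x : ℝ)) (hv i)
      rw [hv', mul_pow, ← pow_mul] at hcoef
      have hpow : (p : ℝ) ^ (ν * K i + s - w) * (p : ℝ) ^ w = (p : ℝ) ^ (ν * K i) * (p : ℝ) ^ s := by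
        rw [← pow_add, ← pow_add, Nat.sub_add_cancel (hwK i)]
      rw [acoef, hKc]
      push_cast
      have hpw : (p : ℝ) ^ w ≠ 0 := by positivity
      have hps : (p : ℝ) ^ s ≠ 0 := by positivity
      apply mul_right_cancel₀ hpw
      calc (p : ℝ) ^ (ν * K i + s - w) * (g i * (D : ℝ) ^ (K i) * ((-1) ^ (k i) *
            (∑ j, (h j : ℝ) * (z j : ℝ) ^ (2 * k i + 1)) / ((p : ℝ) ^ s * g i))) * (p : ℝ) ^ w
          = ((p : ℝ) ^ (ν * K i + s - w) * (p : ℝ) ^ w) * (g i * (D : ℝ) ^ (K i) * ((-1) ^ (k i) *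
            (∑ j, (h j : ℝ) * (z j : ℝ) ^ (2 * k i + 1)) / ((p : ℝ) ^ s * g i))) := by ring
        _ = (-1) ^ (k i) * ((∑ j, (h j : ℝ) * (z j : ℝ) ^ (2 * k i + 1)) *
              ((p : ℝ) ^ (ν * K i) * (D : ℝ) ^ (K i))) := by
            rw [hpow]
            field_simp
        _ = (-1) ^ (k i) * v i * (p : ℝ) ^ w := by
            rw [hcoef]
            ring
    · intro i hd
      rcases hpI.dvd_or_dvd hd with h1 | h1
      · have h2 := hpI.dvd_of_dvd_pow h1
        have h3 : (p : ℤ) ∣ 1 := by simpa using h2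
        exact hp.one_lt.ne' (by exact_mod_cast Int.natAbs_dvd_natAbs.2 h3 |> Nat.dvd_one.1)
      · exact hvp i h1
    · intro i I hiI
      rw [pow_zero, one_mul, mul_comm]
      refine Nat.mul_dvd_mul (pow_dvd_pow D (hKmono i I hiI.le)) ?_
      apply Nat.ordCompl_dvd_ordCompl_of_dvd
      exact Nat.dvd_factorial (by simp only [hK]; omega) (hKmono i I hiI.le)
    · intro I hd
      rcases (Nat.Prime.dvd_mul hp).1 hd with h1 | h1
      · exact hpD (hp.dvd_of_dvd_pow h1)
      · exact hocp _ (Nat.factorial_ne_zero _) h1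
    · intro I
      have h1 : (oc ((K I).factorial) : ℝ) ≤ Real.exp ((K I : ℝ) ^ 2) := by
        refine le_trans ?_ (fact_le_exp (K I))
        exact_mod_cast Nat.div_le_self _ _
      have h2 : (D : ℝ) ≤ Real.exp D := by
        have := Real.add_one_le_exp (D : ℝ)
        linarith
      have h3 : (K I : ℝ) ≤ B * ((I : ℝ) + 1) := by exact_mod_cast hKB I
      have h4 : (1 : ℝ) ≤ (I : ℝ) + 1 := by
        have : (0 : ℝ) ≤ I := Nat.cast_nonneg I
        linarith
      push_cast
      calc (D : ℝ) ^ (K I) * oc ((K I).factorial) ≤ (Real.exp D) ^ (K I) * Real.exp ((K I : ℝ) ^ 2) := by gcongr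
        _ = Real.exp (K I * D + (K I : ℝ) ^ 2) := by rw [← Real.exp_nat_mul, ← Real.exp_add]
        _ ≤ _ := by
          apply Real.exp_le_exp.2
          have h5 : (K I : ℝ) * D ≤ D * B * ((I : ℝ) + 1) ^ 2 := by
            calc (K I : ℝ) * D ≤ (B * ((I : ℝ) + 1)) * D := by gcongr
              _ = (D * B) * ((I : ℝ) + 1) := by ring
              _ ≤ (D * B) * ((I : ℝ) + 1) ^ 2 := by
                gcongr
                nlinarith
          have h6 : (K I : ℝ) ^ 2 ≤ (B : ℝ) ^ 2 * ((I : ℝ) + 1) ^ 2 := by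
            rw [← mul_pow]
            gcongr
          have h7 : (0 : ℝ) ≤ (B + D + ν * B + s + 1) * ((I : ℝ) + 1) ^ 2 := by positivity
          have h8 : ((A : ℕ) : ℝ) = D * B + (B : ℝ) ^ 2 + (B + D + ν * B + s + 1) := by
            rw [hA]
            push_cast
            ring
          rw [h8]
          linarith
    · intro I
      simp only [Nat.cast_zero]
      positivity
    · intro I l hl hd
      have hBA : B + 1 ≤ A := by
        rw [hA]
        nlinarith [Nat.zero_le (D * B), Nat.zero_le (B ^ 2), Nat.zero_le (ν * B)]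
      have hDA : D ≤ A := by
        rw [hA]
        nlinarith [Nat.zero_le (D * B), Nat.zero_le (B ^ 2), Nat.zero_le (ν * B)]
      have h1 : l ≤ D ∨ l ≤ B * (I + 1) := by
        rcases (Nat.Prime.dvd_mul hl).1 hd with h1 | h1
        · left
          exact Nat.le_of_dvd hD0 (hl.dvd_of_dvd_pow h1)
        · right
          have h2 : l ∣ (K I).factorial := h1.trans (Nat.div_dvd_of_dvd (Nat.ordProj_dvd _ _))
          exact (hl.dvd_factorial.1 h2).trans (hKB I)
      have h2 : 2 ^ A ≤ (I + 2) ^ A := Nat.pow_le_pow_left (by omega) _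
      rcases h1 with h1 | h1
      · have h3 : D < 2 ^ A := lt_of_le_of_lt hDA (Nat.lt_two_pow_self (n := A))
        omega
      · have h3 : B ≤ A - 1 := by omega
        have h4 : B ≤ 2 ^ (A - 1) := h3.trans (Nat.lt_two_pow_self).le
        have h5 : A = (A - 1) + 1 := by omega
        calc l ≤ B * (I + 1) := h1
          _ ≤ 2 ^ (A - 1) * (I + 2) := Nat.mul_le_mul h4 (by omega)
          _ ≤ (I + 2) ^ (A - 1) * (I + 2) := Nat.mul_le_mul_right _ (Nat.pow_le_pow_left (by omega) _)
          _ = (I + 2) ^ A := by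
            conv_rhs => rw [h5, pow_succ]
    · intro i
      calc ν * K i + s - w ≤ ν * K i + s := Nat.sub_le _ _
        _ ≤ ν * (B * (i + 1)) + s * (i + 1) := by
          refine Nat.add_le_add (Nat.mul_le_mul_left _ (hKB i)) (Nat.le_mul_of_pos_right _ (by omega))
        _ = (ν * B + s) * (i + 1) := by ring
        _ ≤ A * (i + 1) ^ 2 := by
          apply Nat.mul_le_mul
          · rw [hA]
            nlinarith [Nat.zero_le (D * B), Nat.zero_le (B ^ 2)]
          · nlinarith [Nat.zero_le i]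
  · -- all the primes in the denominators divide `b`
    push Not at hcase
    have hden : ∀ l : ℕ, l.Prime → ∀ j ∈ J, l ∣ (z j).den → l ∣ b := by
      intro l hl j hj hd
      by_contra hlb
      exact hcase l hl hlb j hj hd
    set D := ∏ j ∈ J, (z j).den with hD
    have hD0 : 0 < D := prod_pos fun j _ => (z j).den_pos
    have hDb : D ∣ b ^ D := by
      rw [Nat.dvd_iff_prime_pow_dvd_dvd]
      intro l t hl ht
      rcases Nat.eq_zero_or_pos t with rfl | ht0
      · simp
      have h1 : l ∣ D := (dvd_pow_self l ht0.ne').trans ht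
      obtain ⟨j, hj, hlj⟩ := (Prime.dvd_finsetProd_iff (Nat.prime_iff.1 hl) _).1 h1
      have h2 : t ≤ D := by
        have h2 := Nat.le_of_dvd hD0 ht
        have h3 := Nat.lt_pow_self (n := t) hl.one_lt
        omega
      exact (pow_dvd_pow_of_dvd (hden l hl j hj hlj) t).trans (pow_dvd_pow b h2)
    set a : Fin n → ℤ := fun j => (z j).num * ∏ i ∈ J.erase j, ((z i).den : ℤ) with ha
    have haz : ∀ j ∈ J, (a j : ℚ) = D * z j := by
      intro j hj
      have h2 : ((z j).den : ℚ) * z j = (z j).num := Rat.den_mul_eq_num (z j)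
      rw [hD, ← mul_prod_erase J _ hj]
      simp only [ha]
      push_cast
      rw [← h2]
      ring
    have ha0 : ∀ j ∈ J, a j ≠ 0 := by
      intro j hj h0
      have h1 := haz j hj
      rw [h0, Int.cast_zero] at h1
      have h2 : (D : ℚ) ≠ 0 := by exact_mod_cast hD0.ne'
      rcases mul_eq_zero.1 h1.symm with h3 | h3
      · exact h2 h3
      · exact hz0 j h3
    have habs : ∀ i ∈ J, ∀ j ∈ J, |a i| = |a j| → i = j := by
      intro i hi j hj hij
      apply hz
      have h1 : |(a i : ℚ)| = |(a j : ℚ)| := by exact_mod_cast hij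
      rw [haz i hi, haz j hj, abs_mul, abs_mul] at h1
      have h2 : |(D : ℚ)| ≠ 0 := by
        have : (0 : ℚ) < D := by exact_mod_cast hD0
        positivity
      exact mul_left_cancel₀ h2 h1
    obtain ⟨ks, hks⟩ := exists_ne_odd J h a hJne hhJ ha0 habs
    set m := 2 * ks + 1 with hm
    set Cs := ∑ j ∈ J, h j * a j ^ m with hCs
    obtain ⟨p, hpge, hp⟩ := Nat.exists_infinite_primes (b + Cs.natAbs + m + 1)
    have hp0 := hp.pos
    have hpb : ¬ p ∣ b := fun hd => by
      have := Nat.le_of_dvd (by omega) hd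
      omega
    have hpm : ¬ p ∣ m := fun hd => by
      have := Nat.le_of_dvd (by omega) hd
      omega
    have hpC : ¬ (p : ℤ) ∣ Cs := by
      intro hd
      have h1 : p ∣ Cs.natAbs := Int.natCast_dvd.1 hd
      have h2 := Nat.le_of_dvd (Int.natAbs_pos.2 hks) h1
      omega
    have hp2 : p ≠ 2 := by omega
    have hodd : Odd p := hp.odd_of_ne_two hp2
    set K : ℕ → ℕ := fun i => m * p ^ i with hK
    set k : ℕ → ℕ := fun i => (m * p ^ i - 1) / 2 with hk
    have hKk : ∀ i, 2 * k i + 1 = K i := by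
      intro i
      have h1 : Odd (m * p ^ i) := by
        apply Odd.mul
        · exact ⟨ks, rfl⟩
        · exact hodd.pow
      obtain ⟨t, ht⟩ := h1
      simp only [hk, hK]
      omega
    have hpow : ∀ i, 1 ≤ p ^ i := fun i => Nat.one_le_pow _ _ hp0
    have hkmono : StrictMono k := by
      intro i j hij
      have h1 : p ^ i < p ^ j := Nat.pow_lt_pow_right hp.one_lt hij
      have h2 : K i < K j := Nat.mul_lt_mul_of_pos_left h1 (by omega)
      have h3 := hKk i
      have h4 := hKk j
      omega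
    set C : ℕ → ℤ := fun t => ∑ j ∈ J, h j * a j ^ t with hC
    have hCp : ∀ i, ¬ (p : ℤ) ∣ C (K i) := by
      intro i hd
      apply hpC
      have := Fact.mk hp
      have h1 : ((C (K i) : ℤ) : ZMod p) = ((Cs : ℤ) : ZMod p) := by
        simp only [hC, hCs, hK]
        push_cast
        refine sum_congr rfl fun j _ => ?_
        rw [pow_mul, ZMod.pow_card_pow]
      have h2 : ((C (K i) : ℤ) : ZMod p) = 0 := (ZMod.intCast_zmod_eq_zero_iff_dvd _ _).2 hd
      rw [h2] at h1
      exact (ZMod.intCast_zmod_eq_zero_iff_dvd _ _).1 h1.symm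
    set A := D * m + p + m + 1 with hA
    refine ⟨p, k, fun i => i, fun i => (-1) ^ (k i) * C (K i), fun i => m * D ^ (K i),
      fun I => D * K I, fun _ => m, A, A, hkmono, ?_, hp, hpb, hkmono.injective, strictMono_id,
      ?_, ?_, ?_, ?_, ?_, ?_, ?_, ?_⟩
    · intro i
      have h1 : (k i : ℝ) ≤ m * (p : ℝ) ^ i := by
        have h2 : k i ≤ m * p ^ i := by
          have := hKk i
          simp only [hK] at this
          omega
        exact_mod_cast h2
      have h2 : (m : ℝ) ≤ Real.exp m := by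
        have := Real.add_one_le_exp (m : ℝ)
        linarith
      have h3 : (p : ℝ) ≤ Real.exp p := by
        have := Real.add_one_le_exp (p : ℝ)
        linarith
      have hi0 : (0 : ℝ) ≤ i := Nat.cast_nonneg i
      calc (k i : ℝ) ≤ m * (p : ℝ) ^ i := h1
        _ ≤ Real.exp m * (Real.exp p) ^ i := by gcongr
        _ = Real.exp (m + i * p) := by rw [← Real.exp_nat_mul, ← Real.exp_add]
        _ ≤ _ := by
          apply Real.exp_le_exp.2
          rw [hA]
          push_cast
          nlinarith [mul_nonneg (Nat.cast_nonneg (α := ℝ) D) (Nat.cast_nonneg (α := ℝ) m),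
            Nat.cast_nonneg (α := ℝ) m, Nat.cast_nonneg (α := ℝ) p,
            mul_nonneg (mul_nonneg (Nat.cast_nonneg (α := ℝ) D) (Nat.cast_nonneg (α := ℝ) m)) hi0,
            mul_nonneg (Nat.cast_nonneg (α := ℝ) m) hi0]
    · intro i
      have hp0' : (p : ℝ) ≠ 0 := by exact_mod_cast hp0.ne'
      have hm0' : (m : ℝ) ≠ 0 := by
        have : m ≠ 0 := by omega
        exact_mod_cast this
      have hD0' : (D : ℝ) ≠ 0 := by exact_mod_cast hD0.ne'
      have hKc : ((2 * k i + 1 : ℕ) : ℝ) = m * (p : ℝ) ^ i := by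
        rw [hKk i]
        simp only [hK]
        push_cast
        ring
      have hcoef : (∑ j, (h j : ℝ) * (z j : ℝ) ^ (2 * k i + 1)) * (D : ℝ) ^ (K i) = C (K i) := by
        rw [hsumJ, sum_mul]
        simp only [hC]
        push_cast
        refine sum_congr rfl fun j hj => ?_
        have h1 : (a j : ℝ) = D * z j := by
          exact_mod_cast congrArg (fun x : ℚ => (x : ℝ)) (haz j hj)
        rw [h1, mul_pow (D : ℝ), hKk i]
        ring
      rw [acoef, hKc]
      push_cast
      rw [← hcoef]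
      field_simp
    · intro i hd
      rcases (Nat.prime_iff_prime_int.1 hp).dvd_or_dvd hd with h1 | h1
      · have h2 := (Nat.prime_iff_prime_int.1 hp).dvd_of_dvd_pow h1
        have h3 : (p : ℤ) ∣ 1 := by simpa using h2
        exact hp.one_lt.ne' (by exact_mod_cast Int.natAbs_dvd_natAbs.2 h3 |> Nat.dvd_one.1)
      · exact hCp i h1
    · intro i I hiI
      rw [mul_comm]
      refine Nat.mul_dvd_mul ?_ dvd_rfl
      have h1 : K i ≤ K I := Nat.mul_le_mul_left _ (Nat.pow_le_pow_right hp0 hiI.le)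
      refine (pow_dvd_pow D h1).trans ?_
      rw [pow_mul b]
      exact pow_dvd_pow_of_dvd hDb _
    · intro I
      exact hpm
    · intro I
      have h2 : (m : ℝ) ≤ Real.exp m := by
        have := Real.add_one_le_exp (m : ℝ)
        linarith
      refine h2.trans (Real.exp_le_exp.2 ?_)
      have hI0 : (0 : ℝ) ≤ I := Nat.cast_nonneg I
      have h3 : (m : ℝ) ≤ A := by
        have : m ≤ A := by rw [hA]; nlinarith [Nat.zero_le (D * m)]
        exact_mod_cast this
      have h4 : (1 : ℝ) ≤ ((I : ℝ) + 1) ^ 2 := by nlinarith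
      calc (m : ℝ) ≤ A * 1 := by linarith
        _ ≤ _ := by gcongr
    · intro I
      have hI0 : (0 : ℝ) ≤ I := Nat.cast_nonneg I
      have h2 : (D * m : ℝ) ≤ Real.exp (D * m) := by
        have := Real.add_one_le_exp (D * m : ℝ)
        linarith
      have h3 : (p : ℝ) ≤ Real.exp p := by
        have := Real.add_one_le_exp (p : ℝ)
        linarith
      simp only [hK]
      push_cast
      calc (D : ℝ) * (m * (p : ℝ) ^ I) = (D * m) * (p : ℝ) ^ I := by ring
        _ ≤ Real.exp (D * m) * (Real.exp p) ^ I := by gcongr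
        _ = Real.exp (D * m + I * p) := by rw [← Real.exp_nat_mul, ← Real.exp_add]
        _ ≤ _ := by
          apply Real.exp_le_exp.2
          have h4 : (1 : ℝ) ≤ ((I : ℝ) + 1) ^ 2 := by nlinarith
          have h5 : (I : ℝ) ≤ ((I : ℝ) + 1) ^ 2 := by nlinarith
          have h6 : (D * m : ℝ) ≤ D * m * ((I : ℝ) + 1) ^ 2 := le_mul_of_one_le_right (by positivity) h4
          have h7 : (I : ℝ) * p ≤ p * ((I : ℝ) + 1) ^ 2 := by
            rw [mul_comm]
            gcongr
          have h8 : (0 : ℝ) ≤ (m + 1) * ((I : ℝ) + 1) ^ 2 := by positivity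
          rw [hA]
          push_cast
          linarith
    · intro I l hl hd
      have h1 : l ≤ m := Nat.le_of_dvd (by omega) hd
      have h2 : m ≤ A := by rw [hA]; nlinarith [Nat.zero_le (D * m)]
      calc l ≤ 2 ^ A := (h1.trans h2).trans (Nat.lt_two_pow_self).le
        _ ≤ (I + 2) ^ A := Nat.pow_le_pow_left (by omega) _
    · intro i
      have h1 : 1 ≤ A := by rw [hA]; omega
      calc i ≤ 1 * (i + 1) ^ 2 := by nlinarith [Nat.zero_le i]
        _ ≤ A * (i + 1) ^ 2 := Nat.mul_le_mul_right _ h1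

end Pool.Agent.H607
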