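import Mathlib

/-!
# The condition on the probabilities along sparse sequences
-/

set_option autoImplicit false

namespace Pool.Agent.H607

open Finset Filter Topology

lemma cond_log (β : ℕ → ℝ) (hβ0 : ∀ k, 0 ≤ β k)
    (hq : Tendsto (fun k : ℕ => β k * Real.log k) atTop atTop) (k : ℕ → ℕ) (hk : StrictMono k)
    (C : ℕ) (hC : ∀ i, (k i : ℝ) ≤ Real.exp (C * ((i : ℝ) + 1))) (C' : ℝ) :
    ∀ᶠ I : ℕ in atTop, C' * Real.log ((I : ℝ) + 2) ≤ ∑ i ∈ range I, β (k i) := by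
  set L := |C'| + 1 with hL
  have hL0 : 0 < L := by positivity
  have h1 : ∀ᶠ i : ℕ in atTop, L / ((i : ℝ) + 1) ≤ β (k i) := by
    have h2 := (hk.tendsto_atTop).eventually (hq.eventually_ge_atTop (L * (C + 1)))
    filter_upwards [h2, eventually_ge_atTop 2] with i hi hi2
    have hki : 2 ≤ k i := hi2.trans (hk.id_le i)
    have hk0 : (1 : ℝ) < k i := by exact_mod_cast (by omega : 1 < k i)
    have hlog : 0 < Real.log (k i) := Real.log_pos hk0
    have hlog2 : Real.log (k i) ≤ (C + 1) * ((i : ℝ) + 1) := by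
      have h3 := Real.log_le_log (by linarith) (hC i)
      rw [Real.log_exp] at h3
      have h4 : (0 : ℝ) ≤ i := Nat.cast_nonneg i
      linarith
    have h5 : L * (C + 1) ≤ β (k i) * ((C + 1) * ((i : ℝ) + 1)) :=
      hi.trans (mul_le_mul_of_nonneg_left hlog2 (hβ0 _))
    rw [div_le_iff₀ (by positivity)]
    have hC0 : (0 : ℝ) < C + 1 := by positivity
    have h6 : L * (C + 1) ≤ (β (k i) * ((i : ℝ) + 1)) * (C + 1) := by linarith
    exact le_of_mul_le_mul_right h6 hC0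
  obtain ⟨i₀, hi₀⟩ := eventually_atTop.1 h1
  set c₀ := ∑ i ∈ range i₀, L / ((i : ℝ) + 1) with hc₀
  have h7 : ∀ᶠ I : ℕ in atTop, c₀ + |C'| ≤ Real.log ((I : ℝ) + 1) := by
    have : Tendsto (fun I : ℕ => Real.log ((I : ℝ) + 1)) atTop atTop :=
      Real.tendsto_log_atTop.comp (tendsto_atTop_add_const_right _ _ tendsto_natCast_atTop_atTop)
    exact this.eventually_ge_atTop _
  filter_upwards [h7, eventually_ge_atTop i₀] with I hI hIi
  have h8 : ∑ i ∈ range I, L / ((i : ℝ) + 1) - c₀ ≤ ∑ i ∈ range I, β (k i) := by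
    rw [hc₀]
    have h9 : ∑ i ∈ range I, L / ((i : ℝ) + 1) = ∑ i ∈ range i₀, L / ((i : ℝ) + 1) +
        ∑ i ∈ Ico i₀ I, L / ((i : ℝ) + 1) := by
      rw [range_eq_Ico, range_eq_Ico, sum_Ico_consecutive _ (Nat.zero_le _) hIi]
    have h10 : ∑ i ∈ range I, β (k i) = ∑ i ∈ range i₀, β (k i) + ∑ i ∈ Ico i₀ I, β (k i) := by
      rw [range_eq_Ico, range_eq_Ico, sum_Ico_consecutive _ (Nat.zero_le _) hIi]
    have h11 : ∑ i ∈ Ico i₀ I, L / ((i : ℝ) + 1) ≤ ∑ i ∈ Ico i₀ I, β (k i) :=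
      sum_le_sum fun i hi => hi₀ i (mem_Ico.1 hi).1
    have h12 : 0 ≤ ∑ i ∈ range i₀, β (k i) := sum_nonneg fun i _ => hβ0 _
    linarith
  have h13 : L * Real.log ((I : ℝ) + 1) ≤ ∑ i ∈ range I, L / ((i : ℝ) + 1) := by
    have h14 := log_add_one_le_harmonic I
    rw [harmonic] at h14
    push_cast at h14
    calc L * Real.log ((I : ℝ) + 1) ≤ L * ∑ i ∈ range I, ((i : ℝ) + 1)⁻¹ := by gcongr
      _ = _ := by
        rw [mul_sum]
        rfl
  have hI0 : (0 : ℝ) ≤ I := Nat.cast_nonneg I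
  have h15 : Real.log ((I : ℝ) + 2) ≤ Real.log ((I : ℝ) + 1) + 1 := by
    have h16 : Real.log ((I : ℝ) + 2) ≤ Real.log (((I : ℝ) + 1) * Real.exp 1) := by
      apply Real.log_le_log (by linarith)
      have := Real.add_one_le_exp (1 : ℝ)
      nlinarith
    rwa [Real.log_mul (by positivity) (by positivity), Real.log_exp] at h16
  have h17 : 0 ≤ Real.log ((I : ℝ) + 2) := Real.log_nonneg (by linarith)
  have h18 : C' * Real.log ((I : ℝ) + 2) ≤ |C'| * (Real.log ((I : ℝ) + 1) + 1) :=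
    (mul_le_mul_of_nonneg_right (le_abs_self C') h17).trans
      (mul_le_mul_of_nonneg_left h15 (abs_nonneg _))
  have h19 : L * Real.log ((I : ℝ) + 1) = |C'| * Real.log ((I : ℝ) + 1) + Real.log ((I : ℝ) + 1) := by
    rw [hL]; ring
  linarith

end Pool.Agent.H607
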