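import Pool.Agent.H607.Ortho

/-!
# Periods of the powers of `b`
-/

set_option autoImplicit false

namespace Pool.Agent.H607

open Finset

lemma exists_base {p b : ℕ} (hp : p.Prime) (hb : 2 ≤ b) (hpb : ¬ p ∣ b) :
    ∃ T₁ c₁ : ℕ, 1 ≤ T₁ ∧ Lift p c₁ ∧ emultiplicity (p : ℤ) ((b : ℤ) ^ T₁ - 1) = c₁ := by
  refine ⟨Nat.totient (p ^ 2), multiplicity (p : ℤ) ((b : ℤ) ^ (Nat.totient (p ^ 2)) - 1), ?_, ?_, ?_⟩
  · exact Nat.totient_pos.2 (by have := hp.pos; positivity)
  all_goals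
    have hT : 1 ≤ Nat.totient (p ^ 2) := Nat.totient_pos.2 (by have := hp.pos; positivity)
    have hne : (b : ℤ) ^ (Nat.totient (p ^ 2)) - 1 ≠ 0 := by
      have h1 : 1 < (b : ℤ) ^ (Nat.totient (p ^ 2)) :=
        one_lt_pow₀ (by exact_mod_cast (by omega : 1 < b)) (by omega)
      omega
    have hf : FiniteMultiplicity (p : ℤ) ((b : ℤ) ^ (Nat.totient (p ^ 2)) - 1) := by
      rw [Int.finiteMultiplicity_iff]
      refine ⟨?_, hne⟩
      simpa using hp.ne_one
  · have hcop : Nat.Coprime b (p ^ 2) := (((Nat.Prime.coprime_iff_not_dvd hp).2 hpb).symm).pow_right 2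
    have h2 := Nat.ModEq.pow_totient hcop
    have h3 : (p : ℤ) ^ 2 ∣ (b : ℤ) ^ (Nat.totient (p ^ 2)) - 1 := by
      have := (Nat.modEq_iff_dvd.1 h2.symm)
      exact_mod_cast this
    have h4 : 2 ≤ multiplicity (p : ℤ) ((b : ℤ) ^ (Nat.totient (p ^ 2)) - 1) :=
      hf.le_multiplicity_of_pow_dvd h3
    exact ⟨by omega, Or.inr h4⟩
  · exact hf.emultiplicity_eq_multiplicity

/-- a universal exponent with controlled divisibility by `p` -/
lemma exists_univ {p b T₁ c₁ : ℕ} (hp : p.Prime) (hpb : ¬ p ∣ b) (hT₁ : 1 ≤ T₁)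
    (hc₁ : Lift p c₁) (hx : emultiplicity (p : ℤ) ((b : ℤ) ^ T₁ - 1) = c₁) (Q L a₀ : ℕ)
    (hQ : 1 ≤ Q) (hpQ : ¬ p ∣ Q) (hL : ∀ l : ℕ, l.Prime → l ∣ Q → l ≤ L) (ha₀ : L < p ^ a₀) :
    ∃ T : ℕ, 1 ≤ T ∧ T ≤ T₁ * p ^ a₀ * Q ∧ Q ∣ b ^ Q * (b ^ T - 1) ∧ Lift p (c₁ + a₀) ∧
      emultiplicity (p : ℤ) ((b : ℤ) ^ T - 1) = (c₁ + a₀ : ℕ) := by
  set m := Nat.totient Q / p ^ (Nat.totient Q).factorization p with hm
  have hφ : Nat.totient Q ≠ 0 := (Nat.totient_pos.2 (by omega)).ne'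
  have hm0 : 0 < m := Nat.ordCompl_pos p hφ
  have hpm : ¬ p ∣ m := Nat.not_dvd_ordCompl hp hφ
  have hp0 := hp.pos
  refine ⟨T₁ * p ^ a₀ * m, ?_, ?_, ?_, ?_, ?_⟩
  · have : 0 < T₁ * p ^ a₀ * m := by positivity
    omega
  · refine Nat.mul_le_mul_left _ ?_
    exact (Nat.div_le_self _ _).trans (Nat.totient_le Q)
  · rw [Nat.dvd_iff_prime_pow_dvd_dvd]
    intro l k hl hk
    by_cases hlb : l ∣ b
    · refine Dvd.dvd.mul_right ?_ _
      have h1 : k ≤ Q := by
        have h2 := Nat.le_of_dvd (by omega) hk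
        have h3 := Nat.lt_pow_self (n := k) hl.one_lt
        omega
      exact (pow_dvd_pow_of_dvd hlb k).trans (pow_dvd_pow b h1)
    · refine Dvd.dvd.mul_left ?_ _
      rcases Nat.eq_zero_or_pos k with rfl | hk0
      · simp
      have hcop : Nat.Coprime b (l ^ k) := (((Nat.Prime.coprime_iff_not_dvd hl).2 hlb).symm).pow_right k
      have h2 := Nat.ModEq.pow_totient hcop
      have h3 : l ^ k ∣ b ^ Nat.totient (l ^ k) - 1 := (Nat.modEq_iff_dvd' (Nat.one_le_pow _ _ (by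
        by_contra h
        have : b = 0 := by omega
        subst this
        exact hpb (dvd_zero p)))).1 h2.symm
      have h4 : Nat.totient (l ^ k) ∣ T₁ * p ^ a₀ * m := by
        rw [mul_assoc]
        refine Dvd.dvd.mul_left ?_ _
        have h5 : Nat.totient (l ^ k) ∣ Nat.totient Q := Nat.totient_dvd_of_dvd hk
        have h6 := Nat.ordProj_mul_ordCompl_eq_self (Nat.totient (l ^ k)) p
        rw [← h6]
        refine Nat.mul_dvd_mul ?_ ?_
        · apply pow_dvd_pow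
          have hlQ : l ∣ Q := (dvd_pow_self l hk0.ne').trans hk
          have hlp : l ≠ p := by
            rintro rfl
            exact hpQ hlQ
          rw [Nat.totient_prime_pow hl hk0]
          have hl1 : l - 1 ≠ 0 := by have := hl.two_le; omega
          rw [Nat.factorization_mul (pow_ne_zero _ hl.ne_zero) hl1, Finsupp.add_apply,
            hl.factorization_pow, Finsupp.single_apply, if_neg hlp, zero_add]
          have h7 : p ^ (l - 1).factorization p ≤ l - 1 :=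
            Nat.le_of_dvd (by omega) (Nat.ordProj_dvd _ _)
          have h8 : p ^ (l - 1).factorization p < p ^ a₀ := by
            have := hL l hl hlQ
            omega
          exact ((Nat.pow_lt_pow_iff_right hp.one_lt).1 h8).le
        · exact Nat.ordCompl_dvd_ordCompl_of_dvd h5 p
      obtain ⟨j, hj⟩ := h4
      refine h3.trans ?_
      rw [hj, pow_mul]
      simpa using Nat.sub_dvd_pow_sub_pow (b ^ Nat.totient (l ^ k)) 1 j
  · refine ⟨by have := hc₁.1; omega, ?_⟩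
    rcases hc₁.2 with h | h
    · exact Or.inl h
    · exact Or.inr (by omega)
  · rw [mul_assoc, pow_mul, lte hp hc₁ hx, emultiplicity_mul (Nat.prime_iff.1 hp),
      emultiplicity_pow_self_of_prime (Nat.prime_iff.1 hp), emultiplicity_eq_zero.2 hpm]
    push_cast
    simp

end Pool.Agent.H607
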