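import Pool.Agent.H607.Moment
import Pool.Agent.H607.Period

/-!
# Arithmetic data for one range of indices
-/

set_option autoImplicit false

namespace Pool.Agent.H607

open Finset

lemma data_gen {b p : ℕ} (hp : p.Prime) (hpb : ¬ p ∣ b) {T₁ c₁ : ℕ} (hT₁ : 1 ≤ T₁)
    (hc₁ : Lift p c₁) (hx : emultiplicity (p : ℤ) ((b : ℤ) ^ T₁ - 1) = c₁)
    (I m Q L : ℕ) (e d : ℕ → ℕ) (v : ℕ → ℤ) (r : ℕ → ℝ)
    (he : ∀ i, i + 1 < I → e i < e (i + 1))
    (hr : ∀ i < I, (p : ℝ) ^ (e i) * (d i * r i) = v i)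
    (hv : ∀ i < I, ¬ (p : ℤ) ∣ v i) (hd : ∀ i < I, d i ∣ b ^ m * Q) (hpQ : ¬ p ∣ Q)
    (hL : ∀ l : ℕ, l.Prime → l ∣ Q → l ≤ L) :
    ∃ (T : ℕ) (u : ℕ → ℤ), T ≤ T₁ * p ^ (Nat.log p L + 1) * Q ∧
      Data p b T (c₁ + (Nat.log p L + 1)) (m + Q) e r u I := by
  have hp0 := hp.pos
  have hQ1 : 1 ≤ Q := by
    by_contra h
    have : Q = 0 := by omega
    exact hpQ (this ▸ dvd_zero p)
  have hb0 : 0 < b := by
    by_contra h
    have : b = 0 := by omega
    exact hpb (this ▸ dvd_zero p)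
  obtain ⟨T, hT1, hT2, hT3, hT4, hT5⟩ := exists_univ hp hpb hT₁ hc₁ hx Q L
    (Nat.log p L + 1) hQ1 hpQ hL (Nat.lt_pow_succ_log_self hp.one_lt _)
  set c := c₁ + (Nat.log p L + 1) with hc
  have hpI := Nat.prime_iff_prime_int.1 hp
  have hbT1 : 1 ≤ b ^ T := Nat.one_le_pow _ _ hb0
  have hdv : ∀ i, i < I → ∃ g : ℤ, (b : ℤ) ^ (m + Q) * ((b : ℤ) ^ T - 1) = d i * g := by
    intro i hi
    have h1 : d i ∣ b ^ (m + Q) * (b ^ T - 1) := by
      refine (hd i hi).trans ?_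
      rw [pow_add, mul_assoc]
      exact Nat.mul_dvd_mul_left _ hT3
    obtain ⟨g, hg⟩ := h1
    refine ⟨g, ?_⟩
    have h2 := congrArg (fun z : ℕ => (z : ℤ)) hg
    simp only [Nat.cast_mul, Nat.cast_pow] at h2
    rw [Nat.cast_sub hbT1] at h2
    push_cast at h2
    exact h2
  choose! g hg using hdv
  refine ⟨T, fun i => g i * v i, hT2, hp, hpb, hT4, hT1, hT5, he, ?_, ?_⟩
  · intro i hi
    have h1 := congrArg (fun z : ℤ => (z : ℝ)) (hg i hi)
    push_cast at h1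
    push_cast
    rw [← hr i hi]
    have h2 : (b : ℝ) ^ (m + Q) * ((b : ℝ) ^ T - 1) * ((p : ℝ) ^ e i * r i) =
      d i * g i * ((p : ℝ) ^ e i * r i) := by rw [h1]
    linear_combination h2
  · intro i hi
    have h1 : emultiplicity (p : ℤ) ((b : ℤ) ^ (m + Q) * ((b : ℤ) ^ T - 1)) = c := by
      rw [emultiplicity_mul hpI, emultiplicity_pow hpI,
        emultiplicity_eq_zero.2 (by exact_mod_cast hpb), hT5]
      simp
    rw [hg i hi, emultiplicity_mul hpI] at h1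
    have hpd : ¬ (p : ℤ) ∣ (d i : ℤ) := by
      intro h
      have h2 : p ∣ d i := by exact_mod_cast h
      have h3 := h2.trans (hd i hi)
      rcases (Nat.Prime.dvd_mul hp).1 h3 with h4 | h4
      · exact hpb (hp.dvd_of_dvd_pow h4)
      · exact hpQ h4
    rw [emultiplicity_eq_zero.2 hpd, zero_add] at h1
    rw [emultiplicity_mul hpI, h1, emultiplicity_eq_zero.2 (hv i hi), add_zero]

end Pool.Agent.H607
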