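import Pool.Agent.H607.Law
import Mathlib

/-!
# Series with independent random coefficients, and random digits
-/

set_option autoImplicit false

namespace Pool.Agent.H607

open Finset Filter Topology MeasureTheory ProbabilityTheory
open Pool.Agent.W206.ND (ee NT AV)

section

variable {Ω : Type*} [MeasurableSpace Ω] {μ : Measure Ω} [IsProbabilityMeasure μ]
  {W : ℕ → Ω → ℝ} {r : ℕ → ℝ}

omit [IsProbabilityMeasure μ] in
lemma gen_fin_int (hW : iIndepFun W μ) (hm : ∀ i, Measurable (W i)) (t : ℝ) (K : ℕ) :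
    ∫ ω, ee (t * ∑ k ∈ range K, W k ω * r k) ∂μ =
      ∏ k ∈ range K, ∫ ω, ee ((t * r k) * W k ω) ∂μ := by
  have h1 : ∀ ω, ee (t * ∑ k ∈ range K, W k ω * r k) =
      ∏ k : Fin K, ee ((t * r k) * W k ω) := by
    intro ω
    rw [mul_sum, ee_sum, prod_range]
    refine prod_congr rfl fun k _ => ?_
    congr 1
    ring
  simp only [h1]
  have hI : iIndepFun (fun k : Fin K => W (k : ℕ)) μ :=
    hW.precomp (g := fun k : Fin K => (k : ℕ)) Fin.val_injective
  have h3 := hI.integral_fun_prod_comp (f := fun (k : Fin K) (x : ℝ) => ee ((t * r k) * x))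
    (fun k => (hm k).aemeasurable)
    (fun k => (ee_continuous.comp (continuous_const.mul continuous_id)).aestronglyMeasurable)
  rw [h3, prod_range]

/-- the Fourier transform of the law of a series with independent coefficients -/
theorem ch_le_gen (hW : iIndepFun W μ) (hm : ∀ i, Measurable (W i))
    (hs : ∀ ω, Summable (fun i => W i ω * r i)) (y : ℝ) (s : Finset ℕ) (t : ℝ) :
    ch μ (fun ω => y + ∑' i, W i ω * r i) t ^ 2 ≤ ∏ i ∈ s, ch μ (W i) (t * r i) ^ 2 := by
  have hlim : Tendsto (fun K => ∫ ω, ee (t * (y + ∑ k ∈ range K, W k ω * r k)) ∂μ) atTop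
      (𝓝 (∫ ω, ee (t * (y + ∑' i, W i ω * r i)) ∂μ)) := by
    refine tendsto_integral_of_dominated_convergence (fun _ => (1 : ℝ)) ?_ (integrable_const _) ?_ ?_
    · intro K
      have : Measurable (fun ω => t * (y + ∑ k ∈ range K, W k ω * r k)) := by
        have := Finset.measurable_sum (range K) fun k (_ : k ∈ range K) =>
          (hm k).mul_const (r k)
        exact (this.const_add y).const_mul t
      exact (ee_continuous.measurable.comp this).aestronglyMeasurable
    · intro K
      exact ae_of_all _ fun ω => by rw [ee_norm]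
    · refine ae_of_all _ fun ω => ?_
      have h1 := (hs ω).hasSum.tendsto_sum_nat
      exact (ee_continuous.tendsto _).comp ((h1.const_add y).const_mul t)
  have hlim2 := (hlim.norm).pow 2
  unfold ch
  refine le_of_tendsto hlim2 ?_
  filter_upwards [eventually_ge_atTop (s.sup id + 1)] with K hK
  have hsub : s ⊆ range K := by
    intro k hk
    have : k ≤ s.sup id := le_sup (f := id) hk
    rw [mem_range]
    omega
  have h1 : ∫ ω, ee (t * (y + ∑ k ∈ range K, W k ω * r k)) ∂μ =
      ee (t * y) * ∏ k ∈ range K, ∫ ω, ee ((t * r k) * W k ω) ∂μ := by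
    rw [← gen_fin_int hW hm, ← integral_const_mul]
    congr 1
    ext ω
    rw [← ee_add]
    congr 1
    ring
  rw [h1, norm_mul, ee_norm, one_mul, norm_prod, ← prod_pow]
  refine prod_le_prod_of_subset_of_le_one hsub (fun k _ => by positivity) fun k _ _ => ?_
  have := ch_le_one (μ := μ) (X := W k) (t * r k)
  have h0 := ch_nonneg (μ := μ) (X := W k) (t * r k)
  unfold ch at this h0
  nlinarith

lemma gen_meas (hm : ∀ i, Measurable (W i)) (hs : ∀ ω, Summable (fun i => W i ω * r i)) :
    Measurable (fun ω => ∑' i, W i ω * r i) := by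
  refine measurable_of_tendsto_metrizable (f := fun K ω => ∑ k ∈ range K, W k ω * r k) ?_ ?_
  · intro K
    exact Finset.measurable_sum _ fun k _ => (hm k).mul_const _
  · rw [tendsto_pi_nhds]
    intro ω
    exact (hs ω).hasSum.tendsto_sum_nat

end

/-- the squared absolute value of the Fourier transform of a uniform digit `0, …, m - 1` -/
noncomputable def dirich (m : ℕ) (θ : ℝ) : ℝ := ‖(1 / (m : ℂ)) * ∑ a ∈ range m, ee (a * θ)‖ ^ 2

lemma dirich_nonneg (m : ℕ) (θ : ℝ) : 0 ≤ dirich m θ := by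
  unfold dirich
  positivity

lemma dirich_le_one (m : ℕ) (θ : ℝ) : dirich m θ ≤ 1 := by
  unfold dirich
  have h1 : ‖(1 / (m : ℂ)) * ∑ a ∈ range m, ee (a * θ)‖ ≤ 1 := by
    rw [norm_mul, norm_div, norm_one, Complex.norm_natCast]
    have h2 : ‖∑ a ∈ range m, ee (a * θ)‖ ≤ m := by
      refine (norm_sum_le _ _).trans ?_
      simp [ee_norm]
    rcases Nat.eq_zero_or_pos m with rfl | hm
    · simp
    · have hm0 : (0 : ℝ) < m := by exact_mod_cast hm
      rw [one_div, inv_mul_le_iff₀ hm0, mul_one]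
      exact h2
  exact pow_le_one₀ (norm_nonneg _) h1

lemma ee_add_int (θ : ℝ) (k : ℤ) : ee (θ + k) = ee θ := by
  rw [ee_add, ee_int, mul_one]

lemma dirich_periodic (m : ℕ) (θ : ℝ) : dirich m (θ + 1) = dirich m θ := by
  unfold dirich
  have h : ∀ a : ℕ, ee (a * (θ + 1)) = ee (a * θ) := by
    intro a
    have := ee_add_int (a * θ) (a : ℤ)
    rw [← this]
    congr 1
    push_cast
    ring
  simp only [h]

lemma ee_ne_one (c : ℤ) (P : ℕ) (hP : 0 < P) (hc : ¬ (P : ℤ) ∣ c) : ee ((c : ℝ) / P) ≠ 1 := by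
  intro h
  rw [ee, Complex.exp_eq_one_iff] at h
  obtain ⟨n, hn⟩ := h
  apply hc
  refine ⟨n, ?_⟩
  have h2 : (2 * Real.pi * Complex.I : ℂ) ≠ 0 := Complex.two_pi_I_ne_zero
  have h3 : ((((c : ℝ) / P : ℝ)) : ℂ) = n := by
    apply mul_left_cancel₀ h2
    rw [hn]
    ring
  have h4 : (c : ℝ) / P = n := by exact_mod_cast h3
  have hP0 : (P : ℝ) ≠ 0 := by exact_mod_cast hP.ne'
  rw [div_eq_iff hP0] at h4
  have h5 : (c : ℝ) = ((P * n : ℤ) : ℝ) := by
    rw [h4]; push_cast; ring
  exact_mod_cast h5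

lemma ee_geom (c : ℤ) (P : ℕ) (hP : 0 < P) (hc : ¬ (P : ℤ) ∣ c) :
    ∑ l ∈ range P, ee (((c : ℝ) / P) * l) = 0 := by
  have h1 : ∀ l : ℕ, ee (((c : ℝ) / P) * l) = (ee ((c : ℝ) / P)) ^ l := by
    intro l
    rw [ee, ee, ← Complex.exp_nat_mul]
    congr 1
    push_cast
    ring
  simp only [h1]
  rw [geom_sum_eq (ee_ne_one c P hP hc), ← h1]
  have hP0 : (P : ℝ) ≠ 0 := by exact_mod_cast hP.ne'
  have h2 : ((c : ℝ) / P) * P = (c : ℤ) := by field_simp
  rw [h2, ee_int, sub_self, zero_div]

lemma dirich_avg (m P : ℕ) (hm : 0 < m) (hmP : m ≤ P) (θ : ℝ) :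
    ∑ l ∈ range P, dirich m (θ + l / P) ≤ P * (1 / m) := by
  have hP : 0 < P := by omega
  have hP0 : (P : ℝ) ≠ 0 := by exact_mod_cast hP.ne'
  have hm0 : (m : ℂ) ≠ 0 := by exact_mod_cast hm.ne'
  have h1 : ∀ x : ℝ, ((dirich m x : ℝ) : ℂ) =
      (1 / (m : ℂ)) ^ 2 * ∑ a ∈ range m, ∑ a' ∈ range m, ee (((a : ℝ) - a') * x) := by
    intro x
    unfold dirich
    have h2 : ∀ z : ℂ, ((‖z‖ ^ 2 : ℝ) : ℂ) = z * (starRingEnd ℂ) z := by
      intro z
      rw [Complex.mul_conj, Complex.normSq_eq_norm_sq]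
    rw [h2, map_mul, map_div₀, map_one, Complex.conj_natCast, map_sum, mul_mul_mul_comm, ← sq,
      sum_mul_sum]
    congr 1
    refine sum_congr rfl fun a _ => sum_congr rfl fun a' _ => ?_
    rw [ee_conj, ← ee_add]
    congr 1
    ring
  have h2 : ((∑ l ∈ range P, dirich m (θ + l / P) : ℝ) : ℂ) = ((P * (1 / m) : ℝ) : ℂ) := by
    push_cast
    simp only [h1]
    rw [← mul_sum, sum_comm]
    have h3 : ∀ a ∈ range m, ∑ l ∈ range P, ∑ a' ∈ range m, ee (((a : ℝ) - a') * (θ + l / P)) = P := by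
      intro a ha
      rw [sum_comm, sum_eq_single a]
      · simp only [sub_self, zero_mul, ee_zero, sum_const, card_range, nsmul_eq_mul, mul_one]
      · intro a' ha' hne
        rw [mem_range] at ha ha'
        have h4 : ∀ l : ℕ, ee (((a : ℝ) - a') * (θ + l / P)) =
            ee (((a : ℝ) - a') * θ) * ee (((((a : ℤ) - a' : ℤ) : ℝ) / P) * l) := by
          intro l
          rw [← ee_add]
          congr 1
          push_cast
          ring
        simp only [h4]
        rw [← mul_sum, ee_geom _ P hP, mul_zero]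
        rintro ⟨t, ht⟩
        have h5 : |(a : ℤ) - a'| < P := by
          rw [abs_lt]
          constructor <;> omega
        rw [ht, abs_mul, Nat.abs_cast] at h5
        have h6 : |t| < 1 := by
          by_contra hcon
          push Not at hcon
          nlinarith
        have h7 : t = 0 := by
          rw [abs_lt] at h6
          omega
        rw [h7, mul_zero] at ht
        exact hne (by omega)
      · intro h
        exact absurd ha h
    rw [sum_congr rfl h3, sum_const, card_range, nsmul_eq_mul]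
    field_simp
  exact (by exact_mod_cast h2 : ∑ l ∈ range P, dirich m (θ + l / P) = P * (1 / m)).le

end Pool.Agent.H607
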