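import Pool.Agent.H607.Series

/-!
# The arithmetic of the exponential series at several rational numbers
-/

set_option autoImplicit false

namespace Pool.Agent.H607

open Finset Filter Topology

/-- the coefficients of a combination of exponential series -/
noncomputable def ecoef {n : ℕ} (h : Fin n → ℤ) (z : Fin n → ℚ) (k : ℕ) : ℝ :=
  (∑ j, (h j : ℝ) * (z j : ℝ) ^ k) / (k.factorial : ℝ)

lemma exists_ne {n : ℕ} (h : Fin n → ℤ) (z : Fin n → ℚ) (hh : h ≠ 0) (hz : Function.Injective z) :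
    ∃ k : ℕ, ∑ j, (h j : ℚ) * (z j) ^ k ≠ 0 := by
  by_contra hcon
  push Not at hcon
  have hdet : (Matrix.vandermonde z).det ≠ 0 := Matrix.det_vandermonde_ne_zero_iff.2 hz
  have h1 : Matrix.vecMul (fun j => (h j : ℚ)) (Matrix.vandermonde z) = 0 := by
    ext k
    simp only [Matrix.vecMul, dotProduct, Matrix.vandermonde_apply, Pi.zero_apply]
    exact hcon k
  have h2 := Matrix.eq_zero_of_vecMul_eq_zero hdet h1
  apply hh
  ext j
  have := congrFun h2 j
  simpa using this

lemma fact_le_exp (n : ℕ) : (n.factorial : ℝ) ≤ Real.exp ((n : ℝ) ^ 2) := by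
  have h1 : (n.factorial : ℝ) ≤ (n : ℝ) ^ n := by exact_mod_cast Nat.factorial_le_pow n
  have h2 : (n : ℝ) ≤ Real.exp n := by
    have := Real.add_one_le_exp (n : ℝ)
    linarith
  calc (n.factorial : ℝ) ≤ (n : ℝ) ^ n := h1
    _ ≤ (Real.exp n) ^ n := by gcongr
    _ = Real.exp ((n : ℝ) ^ 2) := by
      rw [← Real.exp_nat_mul, sq]

lemma fact_val_le (p n : ℕ) (hp : p.Prime) : (n.factorial).factorization p ≤ n ^ 2 := by
  have h1 : p ^ (n.factorial).factorization p ≤ n.factorial :=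
    Nat.le_of_dvd (Nat.factorial_pos n) (Nat.ordProj_dvd _ _)
  have h2 : 2 ^ (n.factorial).factorization p ≤ 2 ^ (n ^ 2) := by
    calc 2 ^ (n.factorial).factorization p ≤ p ^ (n.factorial).factorization p :=
          Nat.pow_le_pow_left hp.two_le _
      _ ≤ n.factorial := h1
      _ ≤ n ^ n := Nat.factorial_le_pow n
      _ ≤ (2 ^ n) ^ n := Nat.pow_le_pow_left (Nat.lt_two_pow_self).le n
      _ = 2 ^ (n ^ 2) := by rw [← pow_mul, sq]
  exact (Nat.pow_le_pow_iff_right (by norm_num)).1 h2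

/-- congruence of power sums -/
lemma pow_sum_modEq {n : ℕ} (h a : Fin n → ℤ) (p w : ℕ) (hp : p.Prime) (ha : ∀ j, ¬ (p : ℤ) ∣ a j)
    (k i : ℕ) : (p : ℤ) ^ (w + 1) ∣ ∑ j, h j * a j ^ (k + (p ^ w * (p - 1)) * i) - ∑ j, h j * a j ^ k := by
  rw [← sum_sub_distrib]
  refine dvd_sum fun j _ => ?_
  rw [← mul_sub]
  refine Dvd.dvd.mul_left ?_ _
  rw [pow_add (a j)]
  have h1 : (p : ℤ) ^ (w + 1) ∣ a j ^ (p ^ w * (p - 1)) - 1 := by
    have hcop : IsCoprime (a j) ((p ^ (w + 1) : ℕ) : ℤ) := by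
      push_cast
      apply IsCoprime.pow_right
      rw [isCoprime_comm]
      exact (Nat.prime_iff_prime_int.1 hp).irreducible.coprime_iff_not_dvd.2 (ha j)
    obtain ⟨u, hu⟩ := (ZMod.coe_int_isUnit_iff_isCoprime (a j) (p ^ (w + 1))).2 hcop.symm
    have h2 := ZMod.pow_totient u
    rw [Nat.totient_prime_pow_succ hp] at h2
    have h3 : ((1 : ℤ) : ZMod (p ^ (w + 1))) = ((a j ^ (p ^ w * (p - 1)) : ℤ) : ZMod (p ^ (w + 1))) := by
      push_cast
      rw [← hu, ← Units.val_pow_eq_pow_val, h2, Units.val_one]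
    have h4 := (ZMod.intCast_eq_intCast_iff_dvd_sub _ _ _).1 h3
    exact_mod_cast h4
  have h4 : a j ^ k * a j ^ (p ^ w * (p - 1) * i) - a j ^ k =
      a j ^ k * ((a j ^ (p ^ w * (p - 1))) ^ i - 1) := by
    rw [pow_mul]
    ring
  rw [h4]
  refine Dvd.dvd.mul_left (h1.trans ?_) _
  simpa using sub_dvd_pow_sub_pow (a j ^ (p ^ w * (p - 1))) 1 i

/-- the arithmetic data of the exponential series -/
theorem exp_terms {n : ℕ} (h : Fin n → ℤ) (z : Fin n → ℚ) (hh : h ≠ 0)
    (hz : Function.Injective z) (hz0 : ∀ j, z j ≠ 0) (b : ℕ) (hb : 2 ≤ b) :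
    ∃ (p a₀ M : ℕ) (e : ℕ → ℕ) (v : ℕ → ℤ) (d m Q : ℕ → ℕ) (A : ℕ), 1 ≤ M ∧
      Terms b p (ecoef h z) (fun i => a₀ + M * i) e v d m Q A := by
  classical
  obtain ⟨ks, hks⟩ := exists_ne h z hh hz
  -- the common denominator
  set D := ∏ j, (z j).den with hD
  have hD0 : 0 < D := prod_pos fun j _ => (z j).den_pos
  have hDz : ∀ j, ∃ a : ℤ, (a : ℚ) = D * z j := by
    intro j
    refine ⟨(z j).num * ∏ i ∈ univ.erase j, ((z i).den : ℤ), ?_⟩
    rw [hD, ← mul_prod_erase univ _ (mem_univ j)]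
    push_cast
    have h2 : ((z j).den : ℚ) * z j = (z j).num := Rat.den_mul_eq_num (z j)
    rw [← h2]
    ring
  choose a ha using hDz
  have ha0 : ∀ j, a j ≠ 0 := by
    intro j hj
    have h1 := ha j
    rw [hj] at h1
    have h2 : (D : ℚ) ≠ 0 := by exact_mod_cast hD0.ne'
    have h3 : (D : ℚ) * z j = 0 := by rw [← h1]; simp
    rcases mul_eq_zero.1 h3 with h4 | h4
    · exact h2 h4
    · exact hz0 j h4
  set C : ℕ → ℤ := fun k => ∑ j, h j * a j ^ k with hC
  have hCz : ∀ k, (C k : ℝ) = (D : ℝ) ^ k * ∑ j, (h j : ℝ) * (z j : ℝ) ^ k := by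
    intro k
    simp only [hC]
    push_cast
    rw [mul_sum]
    refine sum_congr rfl fun j _ => ?_
    have h1 : (a j : ℝ) = D * z j := by exact_mod_cast congrArg (fun x : ℚ => (x : ℝ)) (ha j)
    rw [h1, mul_pow]
    ring
  have hCks : C ks ≠ 0 := by
    intro h0
    have h1 := hCz ks
    rw [h0, Int.cast_zero] at h1
    have h2 : (D : ℝ) ^ ks ≠ 0 := by positivity
    have h3 : ∑ j, (h j : ℝ) * (z j : ℝ) ^ ks = 0 := by
      rcases mul_eq_zero.1 h1.symm with h4 | h4
      · exact absurd h4 h2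
      · exact h4
    apply hks
    exact_mod_cast h3
  -- the prime
  obtain ⟨p, hpge, hp⟩ := Nat.exists_infinite_primes (b + D + ∑ j, (a j).natAbs + 1)
  have hpb : ¬ p ∣ b := fun hd => by
    have := Nat.le_of_dvd (by omega) hd
    omega
  have hpD : ¬ p ∣ D := fun hd => by
    have := Nat.le_of_dvd hD0 hd
    omega
  have hpa : ∀ j, ¬ (p : ℤ) ∣ a j := by
    intro j hd
    have h1 : p ∣ (a j).natAbs := Int.natCast_dvd.1 hd
    have h2 := Nat.le_of_dvd (Int.natAbs_pos.2 (ha0 j)) h1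
    have h3 : (a j).natAbs ≤ ∑ j, (a j).natAbs := single_le_sum (f := fun j => (a j).natAbs)
      (fun _ _ => Nat.zero_le _) (mem_univ j)
    omega
  have hp0 := hp.pos
  have hfm : FiniteMultiplicity (p : ℤ) (C ks) := by
    rw [Int.finiteMultiplicity_iff]
    exact ⟨by simpa using hp.ne_one, hCks⟩
  set w := multiplicity (p : ℤ) (C ks) with hw
  have hw1 : (p : ℤ) ^ w ∣ C ks := pow_multiplicity_dvd _ _
  have hw2 : ¬ (p : ℤ) ^ (w + 1) ∣ C ks := hfm.not_pow_dvd_of_multiplicity_lt (by omega)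
  -- the progression
  set M := p ^ (w + 1) * (p - 1) with hM
  have hp1 : 1 ≤ p - 1 := by have := hp.two_le; omega
  have hM1 : 1 ≤ M := by
    have : 0 < M := by positivity
    omega
  have hpM : p ≤ M := by
    calc p = p ^ 1 * 1 := by ring
      _ ≤ p ^ (w + 1) * (p - 1) := Nat.mul_le_mul (Nat.pow_le_pow_right hp0 (by omega)) hp1
  set k : ℕ → ℕ := fun i => (ks + M) + M * i with hk
  have hkk : ∀ i, k i = ks + (p ^ (w + 1) * (p - 1)) * (i + 1) := by
    intro i
    simp only [hk, hM]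
    ring
  have hCk : ∀ i, (p : ℤ) ^ (w + 2) ∣ C (k i) - C ks := by
    intro i
    rw [hkk i]
    exact pow_sum_modEq h a p (w + 1) hp hpa ks (i + 1)
  have hvex : ∀ i, ∃ v : ℤ, C (k i) = (p : ℤ) ^ w * v ∧ ¬ (p : ℤ) ∣ v := by
    intro i
    have h1 : (p : ℤ) ^ w ∣ C (k i) := by
      have h2 : (p : ℤ) ^ w ∣ C (k i) - C ks := (pow_dvd_pow _ (by omega)).trans (hCk i)
      have := dvd_add h2 hw1
      simpa using this
    obtain ⟨v, hv⟩ := h1
    refine ⟨v, hv, fun hd => ?_⟩
    have h2 : (p : ℤ) ^ (w + 1) ∣ C (k i) := by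
      rw [hv, pow_succ]
      exact mul_dvd_mul_left _ hd
    have h3 : (p : ℤ) ^ (w + 1) ∣ C (k i) - C ks := (pow_dvd_pow _ (by omega)).trans (hCk i)
    apply hw2
    have := dvd_sub h2 h3
    simpa using this
  choose v hv hvp using hvex
  -- the factorials
  set f : ℕ → ℕ := fun i => ((k i).factorial).factorization p with hf
  set g : ℕ → ℕ := fun n => (n.factorial) / p ^ (n.factorial).factorization p with hg
  have hfg : ∀ i, p ^ (f i) * g (k i) = (k i).factorial :=
    fun i => Nat.ordProj_mul_ordCompl_eq_self _ p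
  have hgp : ∀ n, ¬ p ∣ g n := fun n => Nat.not_dvd_ordCompl hp (Nat.factorial_ne_zero n)
  have hwf : ∀ i, w < f i := by
    intro i
    have h1 : p ^ (w + 1) ∣ (k i).factorial := by
      have h2 : p ^ (w + 1) ∣ M := Dvd.intro _ rfl
      have h3 : M ∣ (k i).factorial := Nat.dvd_factorial (by omega) (by
        simp only [hk]
        omega)
      exact h2.trans h3
    exact (hp.pow_dvd_iff_le_factorization (Nat.factorial_ne_zero _)).1 h1
  have hfs : StrictMono f := by
    apply strictMono_nat_of_lt_succ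
    intro i
    have h1 : (k i).factorial * M.factorial ∣ (k (i + 1)).factorial := by
      have h2 : k (i + 1) = k i + M := by simp only [hk]; ring
      rw [h2]
      exact Nat.factorial_mul_factorial_dvd_factorial_add _ _
    have h3 : p ^ (f i + 1) ∣ (k (i + 1)).factorial := by
      refine dvd_trans ?_ h1
      rw [pow_succ]
      exact Nat.mul_dvd_mul (Nat.ordProj_dvd _ _) (Nat.dvd_factorial hp0 hpM)
    exact (hp.pow_dvd_iff_le_factorization (Nat.factorial_ne_zero _)).1 h3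
  set B := ks + 2 * M with hB
  have hkB : ∀ i, k i ≤ B * (i + 1) := by
    intro i
    simp only [hk, hB]
    nlinarith [Nat.zero_le (ks * i), Nat.zero_le (M * i)]
  set A := D * B + B ^ 2 + B + D + 1 with hA
  refine ⟨p, ks + M, M, fun i => f i - w, v, fun i => D ^ (k i) * g (k i), fun _ => 0,
    fun I => D ^ (k I) * g (k I), A, hM1, hp, hpb, ?_, ?_, ?_, hvp, ?_, ?_, ?_, ?_, ?_, ?_⟩
  · intro i j hij
    simp only at hij
    have h1 : M * i = M * j := by omega
    exact Nat.eq_of_mul_eq_mul_left (by omega) h1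
  · intro i j hij
    have h1 := hfs hij
    have h2 := hwf i
    simp only
    omega
  · intro i
    have hfac : ((k i).factorial : ℝ) = (p : ℝ) ^ (f i) * g (k i) := by
      exact_mod_cast (hfg i).symm
    have hp0' : (p : ℝ) ≠ 0 := by exact_mod_cast hp0.ne'
    have hg0 : (g (k i) : ℝ) ≠ 0 := by
      intro h0
      have : g (k i) = 0 := by exact_mod_cast h0
      exact hgp (k i) (this ▸ dvd_zero p)
    have hki : ks + M + M * i = k i := rfl
    have hv' : (C (k i) : ℝ) = (p : ℝ) ^ w * v i := by exact_mod_cast congrArg (fun x : ℤ => (x : ℝ)) (hv i)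
    have hpf : (p : ℝ) ^ (f i) = (p : ℝ) ^ (f i - w) * (p : ℝ) ^ w := by
      rw [← pow_add, Nat.sub_add_cancel (hwf i).le]
    rw [hki, ecoef, hfac, hpf]
    have h5 := hCz (k i)
    rw [hv'] at h5
    push_cast
    field_simp
    rw [mul_comm] at h5
    linear_combination -h5
  · intro i I hiI
    have hle : k i ≤ k I := by
      simp only [hk]
      have := Nat.mul_le_mul_left M hiI.le
      omega
    rw [pow_zero, one_mul]
    refine Nat.mul_dvd_mul (pow_dvd_pow D hle) ?_
    exact Nat.ordCompl_dvd_ordCompl_of_dvd (Nat.factorial_dvd_factorial hle) p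
  · intro I hd
    rcases (Nat.Prime.dvd_mul hp).1 hd with h1 | h1
    · exact hpD (hp.dvd_of_dvd_pow h1)
    · exact hgp _ h1
  · intro I
    have h1 : (g (k I) : ℝ) ≤ Real.exp ((k I : ℝ) ^ 2) := by
      refine le_trans ?_ (fact_le_exp (k I))
      exact_mod_cast Nat.div_le_self _ _
    have h2 : (D : ℝ) ≤ Real.exp D := by
      have := Real.add_one_le_exp (D : ℝ)
      linarith
    have h3 : (k I : ℝ) ≤ B * ((I : ℝ) + 1) := by exact_mod_cast hkB I
    have h4 : (1 : ℝ) ≤ (I : ℝ) + 1 := by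
      have : (0 : ℝ) ≤ I := Nat.cast_nonneg I
      linarith
    push_cast
    calc (D : ℝ) ^ (k I) * g (k I) ≤ (Real.exp D) ^ (k I) * Real.exp ((k I : ℝ) ^ 2) := by gcongr
      _ = Real.exp (k I * D + (k I : ℝ) ^ 2) := by rw [← Real.exp_nat_mul, ← Real.exp_add]
      _ ≤ _ := by
        apply Real.exp_le_exp.2
        have h5 : (k I : ℝ) * D ≤ D * B * ((I : ℝ) + 1) ^ 2 := by
          calc (k I : ℝ) * D ≤ (B * ((I : ℝ) + 1)) * D := by gcongr
            _ = (D * B) * ((I : ℝ) + 1) := by ring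
            _ ≤ (D * B) * ((I : ℝ) + 1) ^ 2 := by
              gcongr
              nlinarith
        have h6 : (k I : ℝ) ^ 2 ≤ (B : ℝ) ^ 2 * ((I : ℝ) + 1) ^ 2 := by
          rw [← mul_pow]
          gcongr
        have h7 : (0 : ℝ) ≤ (B + D + 1) * ((I : ℝ) + 1) ^ 2 := by positivity
        have h8 : ((A : ℕ) : ℝ) = D * B + (B : ℝ) ^ 2 + (B + D + 1) := by
          rw [hA]
          push_cast
          ring
        rw [h8]
        linarith
  · intro I
    simp only [Nat.cast_zero]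
    positivity
  · intro I l hl hd
    have h1 : l ≤ D ∨ l ≤ B * (I + 1) := by
      rcases (Nat.Prime.dvd_mul hl).1 hd with h1 | h1
      · left
        exact Nat.le_of_dvd hD0 (hl.dvd_of_dvd_pow h1)
      · right
        have h2 : l ∣ (k I).factorial := h1.trans (Nat.div_dvd_of_dvd (Nat.ordProj_dvd _ _))
        exact (hl.dvd_factorial.1 h2).trans (hkB I)
    have h2 : 2 ^ A ≤ (I + 2) ^ A := Nat.pow_le_pow_left (by omega) _
    rcases h1 with h1 | h1
    · have h3 : D < 2 ^ A := lt_of_le_of_lt (by rw [hA]; nlinarith [Nat.zero_le (D * B), Nat.zero_le (B ^ 2)])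
        (Nat.lt_two_pow_self (n := A))
      omega
    · have h3 : B ≤ A - 1 := by
        have : B + 1 ≤ A := by rw [hA]; nlinarith [Nat.zero_le (D * B), Nat.zero_le (B ^ 2)]
        omega
      have h4 : B ≤ 2 ^ (A - 1) := h3.trans (Nat.lt_two_pow_self).le
      have h5 : A = (A - 1) + 1 := by omega
      calc l ≤ B * (I + 1) := h1
        _ ≤ 2 ^ (A - 1) * (I + 2) := Nat.mul_le_mul h4 (by omega)
        _ ≤ (I + 2) ^ (A - 1) * (I + 2) := Nat.mul_le_mul_right _ (Nat.pow_le_pow_left (by omega) _)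
        _ = (I + 2) ^ A := by
          conv_rhs => rw [h5, pow_succ]
  · intro i
    calc f i - w ≤ f i := Nat.sub_le _ _
      _ ≤ (k i) ^ 2 := fact_val_le p (k i) hp
      _ ≤ (B * (i + 1)) ^ 2 := Nat.pow_le_pow_left (hkB i) 2
      _ = B ^ 2 * (i + 1) ^ 2 := by ring
      _ ≤ A * (i + 1) ^ 2 := by
        apply Nat.mul_le_mul_right
        rw [hA]
        nlinarith [Nat.zero_le (D * B), Nat.zero_le (B ^ 2)]

end Pool.Agent.H607
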