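import Mathlib

/-!
# Factorial expansions of real numbers
-/

set_option autoImplicit false

namespace Pool.Agent.H607

open Finset Filter Topology

/-- the digit of `x` at the place `k` in the factorial expansion
`x = ⌊x⌋ + ∑ a_k / k!`, `0 ≤ a_k < k`, `k ≥ 2` -/
noncomputable def fdig (x : ℝ) (k : ℕ) : ℤ :=
  ⌊(k.factorial : ℝ) * x⌋ - k * ⌊((k - 1).factorial : ℝ) * x⌋

lemma fdig_bounds (x : ℝ) (k : ℕ) (hk : 1 ≤ k) : 0 ≤ fdig x k ∧ fdig x k ≤ k - 1 := by
  have h1 : (k.factorial : ℝ) * x = k * (((k - 1).factorial : ℝ) * x) := by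
    obtain ⟨j, rfl⟩ := Nat.exists_eq_add_of_le hk
    rw [Nat.add_sub_cancel_left, add_comm 1 j, Nat.factorial_succ]
    push_cast
    ring
  set z := ((k - 1).factorial : ℝ) * x with hz
  have hk0 : (0 : ℝ) < k := by exact_mod_cast hk
  have h2 : (k : ℤ) * ⌊z⌋ ≤ ⌊(k : ℝ) * z⌋ := by
    rw [Int.le_floor]
    push_cast
    exact mul_le_mul_of_nonneg_left (Int.floor_le z) hk0.le
  have h3 : ⌊(k : ℝ) * z⌋ < (k : ℤ) * ⌊z⌋ + k := by
    rw [Int.floor_lt]
    push_cast
    have := Int.lt_floor_add_one z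
    nlinarith
  unfold fdig
  rw [h1]
  constructor <;> linarith

lemma fact_pos' (n : ℕ) : (0 : ℝ) < (n.factorial : ℝ) := by exact_mod_cast Nat.factorial_pos n

lemma fdig_sum (x : ℝ) (J : ℕ) :
    ∑ j ∈ range J, (fdig x (j + 2) : ℝ) / ((j + 2).factorial : ℝ) =
      (⌊((J + 1).factorial : ℝ) * x⌋ : ℝ) / ((J + 1).factorial : ℝ) - ⌊x⌋ := by
  induction J with
  | zero => simp
  | succ J ih =>
    rw [sum_range_succ, ih]
    have h1 : ((J + 2).factorial : ℝ) = (J + 2) * ((J + 1).factorial : ℝ) := by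
      rw [Nat.factorial_succ (J + 1)]
      push_cast
      ring
    have h2 := (fact_pos' (J + 1)).ne'
    unfold fdig
    rw [show J + 2 - 1 = J + 1 by omega, show J + 1 + 1 = J + 2 by ring]
    push_cast
    rw [h1]
    have h3 : ((J : ℝ) + 2) ≠ 0 := by positivity
    field_simp
    ring

lemma fdig_summable (x : ℝ) : Summable (fun j : ℕ => (fdig x (j + 2) : ℝ) / ((j + 2).factorial : ℝ)) := by
  have h1 : Summable (fun j : ℕ => 1 / ((j + 1).factorial : ℝ)) := by
    have := (Real.summable_pow_div_factorial 1)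
    simp only [one_pow] at this
    exact (summable_nat_add_iff 1).2 this
  refine Summable.of_nonneg_of_le (fun j => ?_) (fun j => ?_) h1
  · have := (fdig_bounds x (j + 2) (by omega)).1
    have h2 : (0 : ℝ) ≤ fdig x (j + 2) := by exact_mod_cast this
    positivity
  · have h2 := (fdig_bounds x (j + 2) (by omega)).2
    have h3 : (fdig x (j + 2) : ℝ) ≤ (j : ℝ) + 2 := by
      have : (fdig x (j + 2) : ℝ) ≤ (((j + 2 : ℕ) : ℤ) - 1 : ℤ) := by exact_mod_cast h2
      push_cast at this
      linarith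
    have h4 : ((j + 2).factorial : ℝ) = (j + 2) * ((j + 1).factorial : ℝ) := by
      rw [Nat.factorial_succ (j + 1)]
      push_cast
      ring
    rw [h4, div_le_div_iff₀ (by have := fact_pos' (j + 1); positivity) (fact_pos' (j + 1))]
    have := fact_pos' (j + 1)
    nlinarith

lemma fdig_tsum (x : ℝ) :
    x = ⌊x⌋ + ∑' j : ℕ, (fdig x (j + 2) : ℝ) / ((j + 2).factorial : ℝ) := by
  have h1 := (fdig_summable x).hasSum.tendsto_sum_nat
  have h2 : Tendsto (fun J : ℕ => (⌊((J + 1).factorial : ℝ) * x⌋ : ℝ) / ((J + 1).factorial : ℝ) - ⌊x⌋)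
      atTop (𝓝 (x - ⌊x⌋)) := by
    apply Tendsto.sub_const
    have h3 : Tendsto (fun J : ℕ => ((J + 1).factorial : ℝ)) atTop atTop := by
      have h4 : Tendsto (fun J : ℕ => (J : ℝ)) atTop atTop := tendsto_natCast_atTop_atTop
      refine tendsto_atTop_mono (fun J => ?_) h4
      have : J ≤ (J + 1).factorial := by
        have := Nat.self_le_factorial (J + 1)
        omega
      exact_mod_cast this
    have h5 : Tendsto (fun J : ℕ => 1 / ((J + 1).factorial : ℝ)) atTop (𝓝 0) := by
      have := tendsto_inv_atTop_zero.comp h3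
      refine this.congr fun J => ?_
      simp
    have h6 : Tendsto (fun J : ℕ => x - 1 / ((J + 1).factorial : ℝ)) atTop (𝓝 (x - 0)) :=
      tendsto_const_nhds.sub h5
    rw [sub_zero] at h6
    refine tendsto_of_tendsto_of_tendsto_of_le_of_le h6 tendsto_const_nhds (fun J => ?_) (fun J => ?_)
    · have h7 := fact_pos' (J + 1)
      have h8 := Int.lt_floor_add_one (((J + 1).factorial : ℝ) * x)
      simp only
      rw [sub_le_iff_le_add, ← add_div, le_div_iff₀ h7]
      linarith
    · have h7 := fact_pos' (J + 1)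
      have h8 := Int.floor_le (((J + 1).factorial : ℝ) * x)
      simp only
      rw [div_le_iff₀ h7]
      linarith
  have h3 := tendsto_nhds_unique (h1.congr fun J => fdig_sum x J) h2
  rw [h3]
  ring

/-- the integral parts of a factorial series -/
def fA (n : ℤ) (a : ℕ → ℤ) : ℕ → ℤ
  | 0 => n
  | J + 1 => (J + 2) * fA n a J + a J

lemma fA_eq (n : ℤ) (a : ℕ → ℤ) (J : ℕ) :
    (fA n a J : ℝ) / ((J + 1).factorial : ℝ) = n + ∑ j ∈ range J, (a j : ℝ) / ((j + 2).factorial : ℝ) := by
  induction J with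
  | zero => simp [fA]
  | succ J ih =>
    rw [sum_range_succ, ← add_assoc, ← ih, fA]
    have h1 : ((J + 2).factorial : ℝ) = (J + 2) * ((J + 1).factorial : ℝ) := by
      rw [Nat.factorial_succ (J + 1)]
      push_cast
      ring
    have h2 := (fact_pos' (J + 1)).ne'
    rw [show J + 1 + 1 = J + 2 by ring, h1]
    push_cast
    have h3 : ((J : ℝ) + 2) ≠ 0 := by positivity
    field_simp

lemma dig_term_le (a : ℤ) (j : ℕ) (h : a ≤ j + 1) :
    (a : ℝ) / ((j + 2).factorial : ℝ) ≤ 1 / ((j + 1).factorial : ℝ) - 1 / ((j + 2).factorial : ℝ) := by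
  have h1 : ((j + 2).factorial : ℝ) = (j + 2) * ((j + 1).factorial : ℝ) := by
    rw [Nat.factorial_succ (j + 1)]
    push_cast
    ring
  have h2 := fact_pos' (j + 1)
  have h3 : (0 : ℝ) < (j : ℝ) + 2 := by positivity
  have h4 : (a : ℝ) ≤ j + 1 := by exact_mod_cast h
  have h5 : 1 / ((j + 1).factorial : ℝ) - 1 / ((j + 2).factorial : ℝ) =
      ((j : ℝ) + 1) / ((j + 2).factorial : ℝ) := by
    rw [h1]
    field_simp
    ring
  rw [h5]
  have := fact_pos' (j + 2)
  gcongr

/-- the digits of an irrational number given by a factorial series -/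
theorem fdig_of_series (n : ℤ) (a : ℕ → ℤ) (h0 : ∀ j, 0 ≤ a j) (h1 : ∀ j, a j ≤ j + 1)
    (hs : Summable (fun j : ℕ => (a j : ℝ) / ((j + 2).factorial : ℝ))) (y : ℝ)
    (hy : y = n + ∑' j : ℕ, (a j : ℝ) / ((j + 2).factorial : ℝ)) (hirr : Irrational y) :
    ⌊y⌋ = n ∧ ∀ j, fdig y (j + 2) = a j := by
  have hfloor : ∀ J, ⌊((J + 1).factorial : ℝ) * y⌋ = fA n a J := by
    intro J
    have h2 := fact_pos' (J + 1)
    have h3 : y = (fA n a J : ℝ) / ((J + 1).factorial : ℝ) +
        ∑' j : ℕ, (a (j + J) : ℝ) / ((j + J + 2).factorial : ℝ) := by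
      rw [hy, fA_eq, add_assoc]
      congr 1
      exact (hs.sum_add_tsum_nat_add J).symm
    have hs' : Summable (fun j : ℕ => (a (j + J) : ℝ) / ((j + J + 2).factorial : ℝ)) :=
      (summable_nat_add_iff J).2 hs
    have h4 : 0 ≤ ∑' j : ℕ, (a (j + J) : ℝ) / ((j + J + 2).factorial : ℝ) := by
      apply tsum_nonneg
      intro j
      have h5 : (0 : ℝ) ≤ a (j + J) := by exact_mod_cast h0 _
      positivity
    have h5 : ∑' j : ℕ, (a (j + J) : ℝ) / ((j + J + 2).factorial : ℝ) ≤ 1 / ((J + 1).factorial : ℝ) := by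
      refine Real.tsum_le_of_sum_range_le (fun j => ?_) (fun m => ?_)
      · have h5 : (0 : ℝ) ≤ a (j + J) := by exact_mod_cast h0 _
        positivity
      · have h6 : ∑ j ∈ range m, (a (j + J) : ℝ) / ((j + J + 2).factorial : ℝ) ≤
            ∑ j ∈ range m, (1 / ((j + J + 1).factorial : ℝ) - 1 / ((j + 1 + J + 1).factorial : ℝ)) := by
          apply sum_le_sum
          intro j _
          have := dig_term_le (a (j + J)) (j + J) (by exact_mod_cast h1 (j + J))
          rw [show j + 1 + J + 1 = j + J + 2 by ring]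
          exact_mod_cast this
        refine h6.trans ?_
        rw [sum_range_sub' (fun j => 1 / ((j + J + 1).factorial : ℝ))]
        rw [zero_add]
        have : (0 : ℝ) < 1 / ((m + J + 1).factorial : ℝ) := by
          have := fact_pos' (m + J + 1)
          positivity
        linarith
    set R := ∑' j : ℕ, (a (j + J) : ℝ) / ((j + J + 2).factorial : ℝ) with hR
    have h6 : ((J + 1).factorial : ℝ) * y = fA n a J + ((J + 1).factorial : ℝ) * R := by
      rw [h3, mul_add, mul_div_cancel₀ _ h2.ne']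
    have h7 : ((J + 1).factorial : ℝ) * R ≤ 1 := by
      rw [le_div_iff₀ h2] at h5
      linarith
    have h8 : ((J + 1).factorial : ℝ) * R ≠ 1 := by
      intro h8
      have h9 : ((J + 1).factorial : ℝ) * y = ((fA n a J + 1 : ℤ) : ℝ) := by
        rw [h6, h8]
        push_cast
        ring
      apply hirr
      refine ⟨((fA n a J + 1 : ℤ) : ℚ) / ((J + 1).factorial : ℚ), ?_⟩
      push_cast
      rw [div_eq_iff h2.ne']
      push_cast at h9
      linarith
    rw [Int.floor_eq_iff, h6]
    constructor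
    · have : 0 ≤ ((J + 1).factorial : ℝ) * R := by positivity
      linarith
    · have : ((J + 1).factorial : ℝ) * R < 1 := lt_of_le_of_ne h7 h8
      linarith
  constructor
  · have := hfloor 0
    simpa [fA] using this
  · intro j
    unfold fdig
    rw [show j + 2 - 1 = j + 1 by omega, hfloor j]
    have h2 := hfloor (j + 1)
    rw [show j + 1 + 1 = j + 2 by ring] at h2
    rw [h2, fA]
    push_cast
    ring

end Pool.Agent.H607
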