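import Pool.Agent.H607.DigitLaw
import Mathlib

/-!
# The product space of uniform digits
-/

set_option autoImplicit false

namespace Pool.Agent.H607

open Finset Filter Topology MeasureTheory ProbabilityTheory
open Pool.Agent.W206.ND (ee NT AV)

/-- the product measure of the uniform distributions on the digits `0, …, m i - 1` -/
noncomputable def unif (m : ℕ → ℕ) [∀ i, NeZero (m i)] : Measure (∀ i, Fin (m i)) :=
  Measure.infinitePi fun i => (PMF.uniformOfFintype (Fin (m i))).toMeasure

instance (m : ℕ → ℕ) [∀ i, NeZero (m i)] : IsProbabilityMeasure (unif m) := by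
  unfold unif
  infer_instance

variable (m : ℕ → ℕ) [∀ i, NeZero (m i)]

/-- the `i`-th digit -/
noncomputable def dg (i : ℕ) (ω : ∀ i, Fin (m i)) : ℝ := ((ω i : ℕ) : ℝ)

lemma dg_meas (i : ℕ) : Measurable (dg m i) := by
  unfold dg
  exact (measurable_of_finite (fun a : Fin (m i) => ((a : ℕ) : ℝ))).comp (measurable_pi_apply i)

lemma dg_indep : iIndepFun (dg m) (unif m) :=
  iIndepFun_infinitePi (P := fun i => (PMF.uniformOfFintype (Fin (m i))).toMeasure)
    (X := fun i (a : Fin (m i)) => ((a : ℕ) : ℝ)) (fun i => measurable_of_finite _)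

lemma dg_ch (i : ℕ) (t : ℝ) : ch (unif m) (dg m i) t ^ 2 = dirich (m i) t := by
  have h1 : ∫ ω, ee (t * dg m i ω) ∂(unif m) =
      ∫ a, ee (t * ((a : ℕ) : ℝ)) ∂((PMF.uniformOfFintype (Fin (m i))).toMeasure) := by
    have h2 := Measure.infinitePi_map_eval
      (fun i => (PMF.uniformOfFintype (Fin (m i))).toMeasure) i
    rw [← h2, integral_map]
    · rfl
    · exact (measurable_pi_apply i).aemeasurable
    · exact (measurable_of_finite _).aestronglyMeasurable
  unfold ch dirich
  rw [h1, PMF.integral_eq_sum]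
  congr 2
  rw [mul_sum, ← Fin.sum_univ_eq_sum_range (fun a => 1 / (m i : ℂ) * ee (a * t)) (m i)]
  refine sum_congr rfl fun a _ => ?_
  rw [PMF.uniformOfFintype_apply, Fintype.card_fin, ENNReal.toReal_inv, ENNReal.toReal_natCast,
    Complex.real_smul, mul_comm t]
  push_cast
  rw [one_div]

end Pool.Agent.H607
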