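import Pool.Agent.H607.Places
import Pool.Agent.H607.UnifDigits
import Pool.Agent.H607.FactExp
import Mathlib

/-!
# Changing few digits of factorial expansions: the proof
-/

set_option autoImplicit false

namespace Pool.Agent.H607.FewFact

open Finset Filter Topology MeasureTheory ProbabilityTheory
open Pool.Agent.W206.ND (ee NT AV)
open Pool.Agent.H607

/-- the digits of `e` -/
lemma fdig_e (k : ℕ) (hk : 2 ≤ k) : fdig (Real.exp 1) k = 1 := by
  have hs0 : Summable (fun j : ℕ => 1 / (j.factorial : ℝ)) := by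
    have := Real.summable_pow_div_factorial 1
    simpa using this
  have hs : Summable (fun j : ℕ => (((fun _ : ℕ => (1 : ℤ)) j : ℤ) : ℝ) / ((j + 2).factorial : ℝ)) := by
    have := (summable_nat_add_iff 2).2 hs0
    simpa using this
  have he : Real.exp 1 = (2 : ℤ) + ∑' j : ℕ, (((fun _ : ℕ => (1 : ℤ)) j : ℤ) : ℝ) / ((j + 2).factorial : ℝ) := by
    have h1 : Real.exp 1 = ∑' j : ℕ, 1 / (j.factorial : ℝ) := by
      rw [Real.exp_eq_exp_ℝ, NormedSpace.exp_eq_tsum_div]
      simp
    rw [h1, ← hs0.sum_add_tsum_nat_add 2]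
    simp only [sum_range_succ, range_zero, sum_empty, Nat.factorial_zero, Nat.factorial_one,
      Nat.cast_one, Int.cast_one]
    norm_num
  have hirr : Irrational (Real.exp 1) := by
    intro ⟨q, hq⟩
    -- `q.den! * e` lies strictly between two integers
    set D := q.den + 1 with hD
    have hmain : ∀ J : ℕ, ∃ A : ℤ, (A : ℝ) < ((J + 1).factorial : ℝ) * Real.exp 1 ∧
        ((J + 1).factorial : ℝ) * Real.exp 1 < A + 1 := by
      intro J
      have h2 := fact_pos' (J + 1)
      have h3 : Real.exp 1 = (fA 2 (fun _ => 1) J : ℝ) / ((J + 1).factorial : ℝ) +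
          ∑' j : ℕ, (((fun _ : ℕ => (1 : ℤ)) (j + J) : ℤ) : ℝ) / ((j + J + 2).factorial : ℝ) := by
        rw [he, fA_eq, add_assoc]
        congr 1
        exact (hs.sum_add_tsum_nat_add J).symm
      have hs' : Summable (fun j : ℕ => (((fun _ : ℕ => (1 : ℤ)) (j + J) : ℤ) : ℝ) /
          ((j + J + 2).factorial : ℝ)) := (summable_nat_add_iff J).2 hs
      refine ⟨fA 2 (fun _ => 1) J, ?_, ?_⟩
      · rw [h3, mul_add, mul_div_cancel₀ _ h2.ne']
        have h4 : 0 < ∑' j : ℕ, (((fun _ : ℕ => (1 : ℤ)) (j + J) : ℤ) : ℝ) /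
            ((j + J + 2).factorial : ℝ) := by
          apply hs'.tsum_pos (fun j => by positivity) 0
          have := fact_pos' (0 + J + 2)
          positivity
        have : 0 < ((J + 1).factorial : ℝ) * ∑' j : ℕ, (((fun _ : ℕ => (1 : ℤ)) (j + J) : ℤ) : ℝ) /
            ((j + J + 2).factorial : ℝ) := mul_pos h2 h4
        linarith
      · rw [h3, mul_add, mul_div_cancel₀ _ h2.ne']
        have hgeo : Summable (fun j : ℕ => (1 / ((J + 1).factorial : ℝ)) * ((1 / 2 : ℝ) ^ (j + 1))) := by
          have := (summable_geometric_of_lt_one (by norm_num : (0 : ℝ) ≤ 1 / 2) (by norm_num))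
          exact ((summable_nat_add_iff 1).2 this).mul_left _
        have hterm : ∀ j : ℕ, (((fun _ : ℕ => (1 : ℤ)) (j + J) : ℤ) : ℝ) / ((j + J + 2).factorial : ℝ) ≤
            (1 / ((J + 1).factorial : ℝ)) * ((1 / 2 : ℝ) ^ (j + 1)) := by
          intro j
          have h5 : (J + 1).factorial * 2 ^ (j + 1) ≤ (j + J + 2).factorial := by
            have h6 : (J + 1).factorial * (J + 1 + 1) ^ (j + 1) ≤ (J + 1 + (j + 1)).factorial :=
              Nat.factorial_mul_pow_le_factorial
            rw [show j + J + 2 = J + 1 + (j + 1) by ring]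
            refine le_trans ?_ h6
            exact Nat.mul_le_mul_left _ (Nat.pow_le_pow_left (by omega) _)
          have h6 : ((J + 1).factorial : ℝ) * 2 ^ (j + 1) ≤ ((j + J + 2).factorial : ℝ) := by
            exact_mod_cast h5
          simp only [Int.cast_one]
          rw [one_div_pow, one_div_mul_one_div]
          apply one_div_le_one_div_of_le (by positivity)
          exact h6
        have hstrict : (((fun _ : ℕ => (1 : ℤ)) (1 + J) : ℤ) : ℝ) / ((1 + J + 2).factorial : ℝ) <
            (1 / ((J + 1).factorial : ℝ)) * ((1 / 2 : ℝ) ^ (1 + 1)) := by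
          have h6 : ((1 + J + 2).factorial : ℝ) = (J + 3) * (J + 2) * ((J + 1).factorial : ℝ) := by
            rw [show 1 + J + 2 = (J + 1) + 1 + 1 by ring, Nat.factorial_succ, Nat.factorial_succ (J + 1)]
            push_cast
            ring
          simp only [Int.cast_one]
          rw [h6, one_div_pow, one_div_mul_one_div]
          apply one_div_lt_one_div_of_lt (by positivity)
          have hJ : (0 : ℝ) ≤ J := Nat.cast_nonneg J
          have h10 : (2 : ℝ) ^ (1 + 1) = 4 := by norm_num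
          rw [h10]
          nlinarith [mul_nonneg hJ hJ, mul_nonneg hJ h2.le, mul_nonneg (mul_nonneg hJ hJ) h2.le]
        have h7 := Summable.tsum_lt_tsum hterm hstrict hs' hgeo
        rw [tsum_mul_left] at h7
        have h8 : ∑' j : ℕ, (1 / 2 : ℝ) ^ (j + 1) = 1 := by
          have h9 : ∀ j : ℕ, (1 / 2 : ℝ) ^ (j + 1) = (1 / 2) * (1 / 2 : ℝ) ^ j := fun j => by
            rw [pow_succ]; ring
          simp only [h9]
          rw [tsum_mul_left, tsum_geometric_of_lt_one (by norm_num) (by norm_num)]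
          norm_num
        rw [h8, mul_one, lt_div_iff₀ h2] at h7
        linarith
    obtain ⟨A, hA1, hA2⟩ := hmain q.den
    have h9 : ∃ B : ℤ, ((q.den + 1).factorial : ℝ) * Real.exp 1 = B := by
      have h10 : q.den ∣ (q.den + 1).factorial := Nat.dvd_factorial q.den_pos (by omega)
      obtain ⟨c, hc⟩ := h10
      refine ⟨c * q.num, ?_⟩
      rw [← hq, hc]
      have h11 : ((q.den : ℝ)) * (q : ℝ) = q.num := by
        exact_mod_cast congrArg (fun x : ℚ => (x : ℝ)) (Rat.den_mul_eq_num q)
      push_cast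
      rw [← h11]
      ring
    obtain ⟨B, hB⟩ := h9
    rw [hB] at hA1 hA2
    have h12 : A < B := by exact_mod_cast hA1
    have h13 : B < A + 1 := by exact_mod_cast hA2
    omega
  obtain ⟨j, rfl⟩ := Nat.exists_eq_add_of_le hk
  have := (fdig_of_series 2 (fun _ => 1) (fun _ => by norm_num) (fun j => by
    have : (0 : ℤ) ≤ j := Int.natCast_nonneg j
    linarith) hs _ he hirr).2 j
  rw [add_comm 2 j]
  exact this

/-- the exponents of the places -/
def sE : ℕ → ℕ
  | 0 => 16
  | j + 1 => sE j + sE j / 16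

instance (i : ℕ) : NeZero (2 ^ (sE i)) := ⟨by positivity⟩

lemma sE_growth (i : ℕ) : 16 * (33 / 32 : ℝ) ^ i ≤ sE i := by
  induction i with
  | zero => simp [sE]
  | succ i ih =>
    have h16 : 16 ≤ sE i := ss_ge (ss := sE) (fun _ => rfl) le_rfl i
    have h1 : 33 * sE i ≤ 32 * sE (i + 1) := by
      rw [sE]
      omega
    have h2 : (33 : ℝ) * sE i ≤ 32 * sE (i + 1) := by exact_mod_cast h1
    rw [pow_succ]
    nlinarith

lemma sE_mono : StrictMono sE := ss_mono (ss := sE) (fun _ => rfl) le_rfl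

/-- the places -/
def place (i : ℕ) : ℕ := 2 ^ (sE i)

lemma place_mono : StrictMono place := fun _ _ h => Nat.pow_lt_pow_right (by norm_num) (sE_mono h)

lemma place_count (K : ℕ) (hK : 3 ≤ K) :
    ((Set.range place ∩ Set.Icc 1 K).ncard : ℝ) ≤ 34 * Real.log (Real.log K) := by
  have hKr : (3 : ℝ) ≤ K := by exact_mod_cast hK
  have he : Real.exp 1 < 3 := by
    have := Real.exp_one_lt_d9
    linarith
  have hlog1 : 1 < Real.log K := by
    rw [Real.lt_log_iff_exp_lt (by linarith)]
    linarith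
  have hll : 0 < Real.log (Real.log K) := Real.log_pos hlog1
  -- the indices
  have hidx : ∀ i, place i ≤ K → (i : ℝ) ≤ 33 * Real.log (Real.log K) ∧ 1 ≤ Real.log (Real.log K) := by
    intro i hi
    have h1 : ((2 : ℝ)) ^ (sE i) ≤ K := by exact_mod_cast hi
    have h2 : (sE i : ℝ) * Real.log 2 ≤ Real.log K := by
      rw [← Real.log_pow]
      exact Real.log_le_log (by positivity) h1
    have h3 := Real.log_two_gt_d9
    have h4 := sE_growth i
    have hpow : (1 : ℝ) ≤ (33 / 32 : ℝ) ^ i := one_le_pow₀ (by norm_num)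
    have h5 : 8 * (33 / 32 : ℝ) ^ i ≤ Real.log K := by nlinarith
    have h6 : (i : ℝ) * Real.log (33 / 32) ≤ Real.log (Real.log K) := by
      rw [← Real.log_pow]
      apply Real.log_le_log (by positivity)
      linarith
    have h7 : (1 / 33 : ℝ) ≤ Real.log (33 / 32) := by
      have := Real.one_sub_inv_le_log_of_pos (show (0 : ℝ) < 33 / 32 by norm_num)
      norm_num at this ⊢
      linarith
    have hi0 : (0 : ℝ) ≤ i := Nat.cast_nonneg i
    constructor
    · nlinarith
    · have h8 : Real.log (Real.exp 1) ≤ Real.log (Real.log K) := by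
        apply Real.log_le_log (Real.exp_pos 1)
        linarith
      rwa [Real.log_exp] at h8
  set n := ⌊33 * Real.log (Real.log K)⌋₊ with hn
  by_cases hne : (Set.range place ∩ Set.Icc 1 K).Nonempty
  · obtain ⟨_, ⟨i₀, rfl⟩, hi₀⟩ := hne
    have hll1 := (hidx i₀ hi₀.2).2
    have hsub : Set.range place ∩ Set.Icc 1 K ⊆ ((range (n + 1)).image place : Set ℕ) := by
      rintro _ ⟨⟨i, rfl⟩, hi⟩
      rw [mem_coe, mem_image]
      refine ⟨i, ?_, rfl⟩
      rw [mem_range]
      have := (hidx i hi.2).1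
      have h2 : i ≤ n := Nat.le_floor this
      omega
    have h1 : (Set.range place ∩ Set.Icc 1 K).ncard ≤ n + 1 := by
      refine (Set.ncard_le_ncard hsub (Finset.finite_toSet _)).trans ?_
      rw [Set.ncard_coe_finset]
      exact (card_image_le).trans (by simp)
    have h2 : (n : ℝ) ≤ 33 * Real.log (Real.log K) := Nat.floor_le (by positivity)
    calc ((Set.range place ∩ Set.Icc 1 K).ncard : ℝ) ≤ (n : ℝ) + 1 := by exact_mod_cast h1
      _ ≤ 33 * Real.log (Real.log K) + Real.log (Real.log K) := by linarith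
      _ = _ := by ring
  · rw [Set.not_nonempty_iff_eq_empty] at hne
    rw [hne, Set.ncard_empty]
    push_cast
    positivity

theorem main : ∃ E : Set ℕ,
    (∀ K : ℕ, 3 ≤ K → ((E ∩ Set.Icc 1 K).ncard : ℝ) ≤ 34 * Real.log (Real.log K)) ∧
    ∀ x : ℝ, ∃ y : ℝ, ⌊y⌋ = ⌊x⌋ ∧
      (∀ k : ℕ, 2 ≤ k → k ∉ E → fdig y k = fdig x k) ∧
      ∀ b : ℕ, 2 ≤ b → ∀ h : ℤ, h ≠ 0 → AV b (h * y) 1 := by
  classical
  refine ⟨Set.range place, place_count, fun x => ?_⟩
  have hplace2 : ∀ i, 2 ≤ place i := by
    intro i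
    have h16 : 16 ≤ sE i := ss_ge (ss := sE) (fun _ => rfl) le_rfl i
    calc 2 = 2 ^ 1 := by norm_num
      _ ≤ 2 ^ (sE i) := Nat.pow_le_pow_right (by norm_num) (by omega)
  set idx : ℕ → ℕ := fun i => place i - 2 with hidx
  have hidx2 : ∀ i, idx i + 2 = place i := fun i => by
    have := hplace2 i
    simp only [hidx]
    omega
  have hinj : Function.Injective idx := by
    intro i j hij
    apply place_mono.injective
    rw [← hidx2 i, ← hidx2 j, hij]
  -- the fixed digits
  set a₀ : ℕ → ℤ := Function.extend idx (fun _ => 0) (fun j => fdig x (j + 2)) with ha₀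
  set c : ℝ := ⌊x⌋ + ∑' j : ℕ, (a₀ j : ℝ) / ((j + 2).factorial : ℝ) with hc
  set m : ℕ → ℕ := fun i => 2 ^ (sE i) with hm
  have ha₀b : ∀ j, 0 ≤ a₀ j ∧ a₀ j ≤ j + 1 := by
    intro j
    by_cases hj : ∃ i, idx i = j
    · obtain ⟨i, rfl⟩ := hj
      rw [ha₀, hinj.extend_apply]
      constructor <;> positivity
    · rw [ha₀, Function.extend_apply' _ _ _ hj]
      have := fdig_bounds x (j + 2) (by omega)
      push_cast at this
      constructor <;> linarith [this.1, this.2]
  have hfs : Summable (fun j : ℕ => 1 / ((j + 1).factorial : ℝ)) := by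
    have := (Real.summable_pow_div_factorial 1)
    simp only [one_pow] at this
    exact (summable_nat_add_iff 1).2 this
  have hsummable : ∀ a : ℕ → ℤ, (∀ j, 0 ≤ a j ∧ a j ≤ j + 1) →
      Summable (fun j : ℕ => (a j : ℝ) / ((j + 2).factorial : ℝ)) := by
    intro a ha
    refine Summable.of_nonneg_of_le (fun j => ?_) (fun j => ?_) hfs
    · have h2 : (0 : ℝ) ≤ a j := by exact_mod_cast (ha j).1
      positivity
    · refine (dig_term_le (a j) j (ha j).2).trans ?_
      have := fact_pos' (j + 2)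
      have h3 : 0 < 1 / ((j + 2).factorial : ℝ) := by positivity
      linarith
  -- the random digits
  have hWs : ∀ (h : ℤ) (ω : ∀ i, Fin (m i)),
      Summable (fun i => dg m i ω * ((h : ℝ) / ((2 ^ (sE i)).factorial : ℝ))) := by
    intro h ω
    have h1 : Summable (fun i : ℕ => |(h : ℝ)| * (1 / ((idx i + 1).factorial : ℝ))) :=
      ((hfs.comp_injective hinj)).mul_left _
    refine Summable.of_norm_bounded h1 fun i => ?_
    have h2 : (0 : ℝ) ≤ dg m i ω := by unfold dg; positivity
    have h3 : dg m i ω ≤ (idx i : ℝ) + 2 := by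
      have h4 : (ω i : ℕ) < 2 ^ (sE i) := (ω i).2
      have h5 : (ω i : ℕ) ≤ idx i + 2 := by
        rw [hidx2 i]
        exact h4.le
      unfold dg
      exact_mod_cast h5
    have h4 : ((2 ^ (sE i)).factorial : ℝ) = (idx i + 2) * ((idx i + 1).factorial : ℝ) := by
      have h5 : (2 ^ (sE i)) = idx i + 1 + 1 := (hidx2 i).symm
      rw [h5, Nat.factorial_succ (idx i + 1)]
      push_cast
      ring
    have h5 := fact_pos' (idx i + 1)
    rw [norm_mul, norm_div, Real.norm_of_nonneg h2, Real.norm_eq_abs, Real.norm_of_nonneg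
      (fact_pos' _).le, h4]
    have h6 : (0 : ℝ) < (idx i : ℝ) + 2 := by positivity
    rw [mul_div_assoc', div_le_iff₀ (by positivity)]
    have h7 : |(h : ℝ)| * (1 / ((idx i + 1).factorial : ℝ)) * ((idx i + 2) * ((idx i + 1).factorial : ℝ)) =
        |(h : ℝ)| * (idx i + 2) := by field_simp
    rw [h7, mul_comm]
    gcongr
  have hkey : ∀ᵐ ω ∂(unif m), ∀ b : ℕ, ∀ h : ℤ, 2 ≤ b → h ≠ 0 →
      AV b (h * (c + ∑' i, dg m i ω * (1 / ((2 ^ (sE i)).factorial : ℝ)))) 1 := by
    rw [ae_all_iff]
    intro b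
    rw [ae_all_iff]
    intro h
    by_cases hall : 2 ≤ b ∧ h ≠ 0
    · have h1 := digits_as (μ := unif m)
        (X := fun ω => h * c + ∑' i, dg m i ω * ((h : ℝ) / ((2 ^ (sE i)).factorial : ℝ))) hall.1
        ((gen_meas (dg_meas m) (hWs h)).const_add _) sE le_rfl (fun _ => rfl) h hall.2 (by
          intro i₁ I t
          have h2 := ch_le_gen (dg_indep m) (dg_meas m) (hWs h) (h * c)
            ((range I).image fun j => i₁ + j) t
          rw [prod_image (fun _ _ _ _ h => by omega)] at h2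
          refine h2.trans (le_of_eq ?_)
          refine prod_congr rfl fun j _ => ?_
          rw [dg_ch m])
      filter_upwards [h1] with ω hω
      intro _ _
      convert hω using 1
      rw [mul_add, ← tsum_mul_left]
      congr 2
      ext i
      ring
    · exact ae_of_all _ fun ω h1 h2 => absurd ⟨h1, h2⟩ hall
  obtain ⟨ω, hω⟩ := hkey.exists
  set y := c + ∑' i, dg m i ω * (1 / ((2 ^ (sE i)).factorial : ℝ)) with hy
  -- the digits of `y`
  set a : ℕ → ℤ := Function.extend idx (fun i => ((ω i : ℕ) : ℤ)) (fun j => fdig x (j + 2)) with ha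
  set a₁ : ℕ → ℤ := Function.extend idx (fun i => ((ω i : ℕ) : ℤ)) (fun _ => 0) with ha₁
  have hωb : ∀ i, ((ω i : ℕ) : ℤ) ≤ idx i + 1 := by
    intro i
    have h4 : (ω i : ℕ) < 2 ^ (sE i) := (ω i).2
    have h5 : (ω i : ℕ) < idx i + 2 := by
      rw [hidx2 i]
      exact h4
    omega
  have ha₁b : ∀ j, 0 ≤ a₁ j ∧ a₁ j ≤ j + 1 := by
    intro j
    by_cases hj : ∃ i, idx i = j
    · obtain ⟨i, rfl⟩ := hj
      rw [ha₁, hinj.extend_apply]
      exact ⟨by positivity, hωb i⟩
    · rw [ha₁, Function.extend_apply' _ _ _ hj]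
      constructor <;> positivity
  have hab : ∀ j, 0 ≤ a j ∧ a j ≤ j + 1 := by
    intro j
    by_cases hj : ∃ i, idx i = j
    · obtain ⟨i, rfl⟩ := hj
      rw [ha, hinj.extend_apply]
      exact ⟨by positivity, hωb i⟩
    · rw [ha, Function.extend_apply' _ _ _ hj]
      have := fdig_bounds x (j + 2) (by omega)
      push_cast at this
      constructor <;> linarith [this.1, this.2]
  have hsum : ∀ j, a j = a₀ j + a₁ j := by
    intro j
    by_cases hj : ∃ i, idx i = j
    · obtain ⟨i, rfl⟩ := hj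
      rw [ha, ha₀, ha₁, hinj.extend_apply, hinj.extend_apply, hinj.extend_apply, zero_add]
    · rw [ha, ha₀, ha₁, Function.extend_apply' _ _ _ hj, Function.extend_apply' _ _ _ hj,
        Function.extend_apply' _ _ _ hj, add_zero]
  have hyser : y = ⌊x⌋ + ∑' j : ℕ, (a j : ℝ) / ((j + 2).factorial : ℝ) := by
    have h1 : ∑' j : ℕ, (a j : ℝ) / ((j + 2).factorial : ℝ) =
        ∑' j : ℕ, (a₀ j : ℝ) / ((j + 2).factorial : ℝ) + ∑' j : ℕ, (a₁ j : ℝ) / ((j + 2).factorial : ℝ) := by
      rw [← (hsummable a₀ ha₀b).tsum_add (hsummable a₁ ha₁b)]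
      congr 1
      ext j
      rw [hsum j]
      push_cast
      ring
    have h2 : ∑' i, dg m i ω * (1 / ((2 ^ (sE i)).factorial : ℝ)) =
        ∑' j : ℕ, (a₁ j : ℝ) / ((j + 2).factorial : ℝ) := by
      rw [← hinj.tsum_eq (f := fun j : ℕ => (a₁ j : ℝ) / ((j + 2).factorial : ℝ))]
      · congr 1
        ext i
        rw [ha₁, hinj.extend_apply, hidx2 i]
        unfold dg
        push_cast
        rw [mul_one_div]
        rfl
      · intro j hj
        rw [Function.mem_support] at hj
        by_contra hcon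
        apply hj
        have h3 : ¬ ∃ i, idx i = j := hcon
        rw [ha₁, Function.extend_apply' _ _ _ h3]
        simp
    rw [hy, hc, h1, h2]
    ring
  have hirr : Irrational y := by
    rintro ⟨q, hq⟩
    have h1 := hω 2 (q.den : ℤ) le_rfl (by exact_mod_cast q.den_nz)
    rw [← hq] at h1
    have h2 : ∀ i : ℕ, ee (((1 : ℤ) : ℝ) * ((((q.den : ℤ)) : ℝ) * (q : ℝ)) * ((2 : ℕ) : ℝ) ^ i) = 1 := by
      intro i
      have h3 : ((1 : ℤ) : ℝ) * ((((q.den : ℤ)) : ℝ) * (q : ℝ)) * ((2 : ℕ) : ℝ) ^ i =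
          ((q.num * 2 ^ i : ℤ) : ℝ) := by
        have h4 : ((q.den : ℝ)) * (q : ℝ) = q.num := by
          exact_mod_cast congrArg (fun x : ℚ => (x : ℝ)) (Rat.den_mul_eq_num q)
        push_cast
        rw [h4]
        ring
      rw [h3, ee_int]
    unfold AV at h1
    simp only [h2] at h1
    have h3 : Tendsto (fun N : ℕ => (∑ _i ∈ range N, (1 : ℂ)) / (N : ℂ)) atTop (𝓝 1) := by
      refine tendsto_const_nhds.congr' ?_
      filter_upwards [eventually_gt_atTop 0] with N hN
      have : (N : ℂ) ≠ 0 := by exact_mod_cast hN.ne'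
      rw [sum_const, card_range, nsmul_eq_mul, mul_one, div_self this]
    exact zero_ne_one (tendsto_nhds_unique h1 h3)
  have hfin := fdig_of_series ⌊x⌋ a (fun j => (hab j).1) (fun j => (hab j).2) (hsummable a hab) y hyser hirr
  refine ⟨y, hfin.1, ?_, ?_⟩
  · intro k hk hkE
    obtain ⟨j, rfl⟩ := Nat.exists_eq_add_of_le hk
    rw [add_comm 2 j] at hkE ⊢
    have h1 := hfin.2 j
    have h2 : ¬ ∃ i, idx i = j := by
      rintro ⟨i, hi⟩
      apply hkE
      refine ⟨i, ?_⟩
      rw [← hidx2 i, hi]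
    rw [ha, Function.extend_apply' _ _ _ h2] at h1
    exact h1
  · intro b hb h hh
    exact hω b h hb hh

end Pool.Agent.H607.FewFact
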