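import Pool.Agent.H607.Second
import Mathlib

/-!
# Random subseries
-/

set_option autoImplicit false

namespace Pool.Agent.H607

open Finset Filter Topology MeasureTheory ProbabilityTheory
open Pool.Agent.W206.ND (ee NT AV)

/-- `S` is a random set of natural numbers with independent membership events of
probabilities `q k` -/
structure RandomSet {Ω : Type*} [MeasurableSpace Ω] (μ : Measure Ω) (S : Ω → Set ℕ) (q : ℕ → ℝ) :
    Prop where
  meas : ∀ k, MeasurableSet {ω | k ∈ S ω}
  indep : iIndepSet (fun k => {ω | k ∈ S ω}) μ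
  prob : ∀ k, μ.real {ω | k ∈ S ω} = q k

/-- the sum of `r` over the set `S` -/
noncomputable def ser (r : ℕ → ℝ) (S : Set ℕ) : ℝ := ∑' k, S.indicator r k

/-- the squared absolute value of the Fourier transform of a coin -/
noncomputable def coin (q θ : ℝ) : ℝ := 1 - 2 * (q * (1 - q)) * (1 - Real.cos (2 * Real.pi * θ))

lemma coin_eq (q θ : ℝ) : ‖1 + (q : ℂ) * (ee θ - 1)‖ ^ 2 = coin q θ := by
  have h : ee θ = ((Real.cos (2 * Real.pi * θ) : ℝ) : ℂ) + ((Real.sin (2 * Real.pi * θ) : ℝ) : ℂ) * Complex.I := by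
    have h : ee θ = Complex.exp (((2 * Real.pi * θ : ℝ) : ℂ) * Complex.I) := by
      rw [ee]; congr 1; push_cast; ring
    rw [h, Complex.exp_mul_I]
    push_cast
    rfl
  have h2 : 1 + (q : ℂ) * (ee θ - 1) = ((1 - q + q * Real.cos (2 * Real.pi * θ) : ℝ) : ℂ) +
      ((q * Real.sin (2 * Real.pi * θ) : ℝ) : ℂ) * Complex.I := by
    rw [h]
    push_cast
    ring
  rw [h2, ← Complex.normSq_eq_norm_sq, Complex.normSq_add_mul_I, coin]
  have := Real.sin_sq_add_cos_sq (2 * Real.pi * θ)
  linear_combination q ^ 2 * this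

lemma coin_nonneg (q θ : ℝ) : 0 ≤ coin q θ := by
  rw [← coin_eq]
  positivity

lemma coin_le_one {q : ℝ} (hq0 : 0 ≤ q) (hq1 : q ≤ 1) (θ : ℝ) : coin q θ ≤ 1 := by
  unfold coin
  have h1 : 0 ≤ q * (1 - q) := mul_nonneg hq0 (by linarith)
  have h2 : 0 ≤ 1 - Real.cos (2 * Real.pi * θ) := by linarith [Real.cos_le_one (2 * Real.pi * θ)]
  nlinarith [mul_nonneg h1 h2]

lemma coin_periodic (q θ : ℝ) : coin q (θ + 1) = coin q θ := by
  unfold coin
  have : 2 * Real.pi * (θ + 1) = 2 * Real.pi * θ + 2 * Real.pi := by ring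
  rw [this, Real.cos_add_two_pi]

lemma ee_nat_div_sum (P : ℕ) (hP : 1 < P) (θ : ℝ) : ∑ l ∈ range P, ee (θ + l / P) = 0 := by
  have hP0 : (P : ℂ) ≠ 0 := by exact_mod_cast (by omega : P ≠ 0)
  have h1 : ∀ l : ℕ, ee (θ + l / P) = ee θ * (Complex.exp (2 * Real.pi * Complex.I / P)) ^ l := by
    intro l
    rw [ee, ee, ← Complex.exp_nat_mul, ← Complex.exp_add]
    congr 1
    push_cast
    field_simp
  simp only [h1]
  rw [← mul_sum, (Complex.isPrimitiveRoot_exp P (by omega)).geom_sum_eq_zero hP, mul_zero]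

lemma coin_avg (q θ : ℝ) (P : ℕ) (hP : 1 < P) :
    ∑ l ∈ range P, coin q (θ + l / P) = P * (1 - 2 * (q * (1 - q))) := by
  have h1 : ∑ l ∈ range P, Real.cos (2 * Real.pi * (θ + l / P)) = 0 := by
    have h2 : ∀ l : ℕ, Real.cos (2 * Real.pi * (θ + l / P)) = (ee (θ + l / P)).re := by
      intro l
      have h : ee (θ + l / P) = Complex.exp (((2 * Real.pi * (θ + l / P) : ℝ) : ℂ) * Complex.I) := by
        rw [ee]; congr 1; push_cast; ring
      rw [h, Complex.exp_ofReal_mul_I_re]
    simp only [h2]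
    rw [← Complex.re_sum, ee_nat_div_sum P hP, Complex.zero_re]
  unfold coin
  rw [sum_sub_distrib, ← mul_sum, sum_sub_distrib, h1]
  simp only [sum_const, card_range, nsmul_eq_mul, mul_one]
  ring

section

variable {Ω : Type*} [MeasurableSpace Ω] {μ : Measure Ω} [IsProbabilityMeasure μ]
  {S : Ω → Set ℕ} {q : ℕ → ℝ} {r : ℕ → ℝ}

lemma RandomSet.q0 (hS : RandomSet μ S q) (k : ℕ) : 0 ≤ q k := by
  rw [← hS.prob k]
  exact measureReal_nonneg

lemma RandomSet.q1 (hS : RandomSet μ S q) (k : ℕ) : q k ≤ 1 := by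
  rw [← hS.prob k]
  exact measureReal_le_one

/-- the indicator variables -/
noncomputable def ind (S : Ω → Set ℕ) (k : ℕ) (ω : Ω) : ℝ :=
  ({ω | k ∈ S ω} : Set Ω).indicator (fun _ => (1 : ℝ)) ω

omit [MeasurableSpace Ω] in
lemma ind_mul (S : Ω → Set ℕ) (k : ℕ) (ω : Ω) : (S ω).indicator r k = ind S k ω * r k := by
  unfold ind
  by_cases h : k ∈ S ω
  · rw [Set.indicator_of_mem h, Set.indicator_of_mem (by exact h), one_mul]
  · rw [Set.indicator_of_notMem h, Set.indicator_of_notMem (by exact h), zero_mul]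

omit [MeasurableSpace Ω] in
lemma ind_cases (S : Ω → Set ℕ) (k : ℕ) (ω : Ω) : ind S k ω = 0 ∨ ind S k ω = 1 := by
  unfold ind
  by_cases h : k ∈ S ω
  · right
    rw [Set.indicator_of_mem (by exact h)]
  · left
    rw [Set.indicator_of_notMem (by exact h)]

omit [IsProbabilityMeasure μ] in
lemma RandomSet.ind_meas (hS : RandomSet μ S q) (k : ℕ) : Measurable (ind S k) :=
  measurable_const.indicator (hS.meas k)

lemma RandomSet.coin_int (hS : RandomSet μ S q) (k : ℕ) (θ : ℝ) :
    ∫ ω, ee (θ * ind S k ω) ∂μ = 1 + (q k : ℂ) * (ee θ - 1) := by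
  have h1 : ∀ ω, ee (θ * ind S k ω) = 1 + (ind S k ω : ℂ) * (ee θ - 1) := by
    intro ω
    rcases ind_cases S k ω with h | h
    · rw [h]; simp [ee_zero]
    · rw [h]; simp
  simp only [h1]
  have h2 : ∫ ω, ind S k ω ∂μ = q k := by
    unfold ind
    rw [integral_indicator (hS.meas k), ← hS.prob k]
    simp
  have h3 : Integrable (fun ω => ind S k ω) μ := by
    refine Integrable.mono' (integrable_const (1 : ℝ)) (hS.ind_meas k).aestronglyMeasurable
      (ae_of_all _ fun ω => ?_)
    rcases ind_cases S k ω with h | h <;> simp [h]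
  rw [integral_add (integrable_const _) ((h3.ofReal).mul_const _), integral_mul_const,
    integral_complex_ofReal, h2]
  simp

omit [MeasurableSpace Ω] in
lemma ser_summable (hr : Summable r) (ω : Ω) : Summable (fun k => ind S k ω * r k) := by
  refine Summable.of_norm_bounded hr.abs fun k => ?_
  rcases ind_cases S k ω with h | h <;> simp [h]

lemma RandomSet.ser_meas (hS : RandomSet μ S q) (hr : Summable r) :
    Measurable (fun ω => ser r (S ω)) := by
  unfold ser
  simp only [ind_mul]
  refine measurable_of_tendsto_metrizable (f := fun K ω => ∑ k ∈ range K, ind S k ω * r k) ?_ ?_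
  · intro K
    exact Finset.measurable_sum _ fun k _ => (hS.ind_meas k).mul_const _
  · rw [tendsto_pi_nhds]
    intro ω
    exact (ser_summable hr ω).hasSum.tendsto_sum_nat

lemma ee_sum {ι : Type*} (s : Finset ι) (f : ι → ℝ) : ee (∑ i ∈ s, f i) = ∏ i ∈ s, ee (f i) := by
  classical
  induction s using Finset.induction_on with
  | empty => simp [ee_zero]
  | insert a s ha ih => rw [sum_insert ha, prod_insert ha, ee_add, ih]

lemma RandomSet.fin_int (hS : RandomSet μ S q) (t : ℝ) (K : ℕ) :
    ∫ ω, ee (t * ∑ k ∈ range K, ind S k ω * r k) ∂μ =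
      ∏ k ∈ range K, (1 + (q k : ℂ) * (ee (t * r k) - 1)) := by
  have h1 : ∀ ω, ee (t * ∑ k ∈ range K, ind S k ω * r k) =
      ∏ k : Fin K, ee ((t * r k) * ind S k ω) := by
    intro ω
    rw [mul_sum, ee_sum, prod_range]
    refine prod_congr rfl fun k _ => ?_
    congr 1
    ring
  simp only [h1]
  have hI : iIndepFun (fun k : Fin K => ind S (k : ℕ)) μ := by
    have h2 : iIndepFun (fun k => ind S k) μ :=
      iIndepSet.iIndepFun_indicator (β := ℝ) (m := inferInstance) hS.indep
    exact h2.precomp (g := fun k : Fin K => (k : ℕ)) Fin.val_injective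
  have h3 := hI.integral_fun_prod_comp (f := fun (k : Fin K) (x : ℝ) => ee ((t * r k) * x))
    (fun k => (hS.ind_meas k).aemeasurable)
    (fun k => (ee_continuous.comp (continuous_const.mul continuous_id)).aestronglyMeasurable)
  rw [h3, prod_range]
  refine prod_congr rfl fun k _ => ?_
  rw [hS.coin_int]

/-- the Fourier transform of the law of a random subseries -/
theorem RandomSet.ch_le (hS : RandomSet μ S q) (hr : Summable r) (y : ℝ) (s : Finset ℕ) (t : ℝ) :
    ch μ (fun ω => y + ser r (S ω)) t ^ 2 ≤ ∏ k ∈ s, coin (q k) (t * r k) := by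
  have hlim : Tendsto (fun K => ∫ ω, ee (t * (y + ∑ k ∈ range K, ind S k ω * r k)) ∂μ) atTop
      (𝓝 (∫ ω, ee (t * (y + ser r (S ω))) ∂μ)) := by
    refine tendsto_integral_of_dominated_convergence (fun _ => (1 : ℝ)) ?_ (integrable_const _) ?_ ?_
    · intro K
      have : Measurable (fun ω => t * (y + ∑ k ∈ range K, ind S k ω * r k)) := by
        have := Finset.measurable_sum (range K) fun k (_ : k ∈ range K) =>
          (hS.ind_meas k).mul_const (r k)
        exact (this.const_add y).const_mul t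
      exact (ee_continuous.measurable.comp this).aestronglyMeasurable
    · intro K
      exact ae_of_all _ fun ω => by rw [ee_norm]
    · refine ae_of_all _ fun ω => ?_
      have h1 := (ser_summable (S := S) hr ω).hasSum.tendsto_sum_nat
      have h2 : ser r (S ω) = ∑' k, ind S k ω * r k := by
        unfold ser
        simp only [ind_mul]
      rw [h2]
      exact (ee_continuous.tendsto _).comp ((h1.const_add y).const_mul t)
  have hlim2 := (hlim.norm).pow 2
  unfold ch
  refine le_of_tendsto hlim2 ?_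
  filter_upwards [eventually_ge_atTop (s.sup id + 1)] with K hK
  have hsub : s ⊆ range K := by
    intro k hk
    have : k ≤ s.sup id := le_sup (f := id) hk
    rw [mem_range]
    omega
  have h1 : ∫ ω, ee (t * (y + ∑ k ∈ range K, ind S k ω * r k)) ∂μ =
      ee (t * y) * ∏ k ∈ range K, (1 + (q k : ℂ) * (ee (t * r k) - 1)) := by
    rw [← hS.fin_int, ← integral_const_mul]
    congr 1
    ext ω
    rw [← ee_add]
    congr 1
    ring
  rw [h1, norm_mul, ee_norm, one_mul, norm_prod, ← prod_pow]
  simp only [coin_eq]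
  exact prod_le_prod_of_subset_of_le_one hsub (fun k _ => coin_nonneg _ _)
    fun k _ _ => coin_le_one (hS.q0 k) (hS.q1 k) _

end

end Pool.Agent.H607
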