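import Pool.Agent.H607.G.R_pool_sql_team_seeded_f72693b1.W736.ND.NM
import Pool.Agent.H607.G.R_pool_sql_team_seeded_f72693b1.W206.ND.AP
import Pool.Agent.H607.G.R_pool_sql_team_seeded_f72693b1.W856.ND.DG
import Pool.Agent.H607.G.R_pool_sql_team_seeded_f72693b1.W162.ND.WB
import Pool.Agent.H607.G.R_pool_sql_team_seeded_f72693b1.W92.ND.DM

/-! # Weyl's criterion for the normality of tuples -/

set_option autoImplicit false

namespace Pool.Agent.H607

open Filter Topology
open Pool.Agent.W206.ND (ee NT AV)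

/-- normality of a tuple from exponential sums -/
theorem nt_of_weyl (b n : ℕ) (ξ : Fin n → ℝ) (hb : 2 ≤ b)
    (h : ∀ h : Fin n → ℤ, h ≠ 0 → AV b (∑ j, (h j : ℝ) * ξ j) 1) : NT b ξ :=
  Pool.Agent.W736.ND.NM.main Pool.Agent.W206.ND.AP.main Pool.Agent.W856.ND.DG.main
    Pool.Agent.W162.ND.WB.main Pool.Agent.W92.ND.DM.main b n ξ hb h

end Pool.Agent.H607
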