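import Pool.Agent.H607.Second

/-!
# The second moment of the Weyl sums from arithmetic data
-/

set_option autoImplicit false

namespace Pool.Agent.H607

open Finset MeasureTheory

/-- data for the terms of a random series -/
structure Data (p b T c n0 : ℕ) (e : ℕ → ℕ) (r : ℕ → ℝ) (u : ℕ → ℤ) (I : ℕ) : Prop where
  hp : p.Prime
  hpb : ¬ p ∣ b
  hc : Lift p c
  hT : 1 ≤ T
  hbT : emultiplicity (p : ℤ) ((b : ℤ) ^ T - 1) = c
  he : ∀ i, i + 1 < I → e i < e (i + 1)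
  hr : ∀ i < I, (p : ℝ) ^ (e i) * (((b : ℝ) ^ T - 1) * ((b : ℝ) ^ n0 * r i)) = u i
  hu : ∀ i < I, emultiplicity (p : ℤ) (u i) = c

section

variable {p b T c n0 I : ℕ} {e : ℕ → ℕ} {r : ℕ → ℝ} {u : ℕ → ℤ}

lemma Data.stage (D : Data p b T c n0 e r u I) (t w : ℕ)
    (hw : emultiplicity (p : ℤ) ((b : ℤ) ^ t - 1) = w) :
    Stage p b T c w e (fun i => ((b : ℝ) ^ t - 1) * ((b : ℝ) ^ n0 * r i))
      (fun i => ((b : ℤ) ^ t - 1) * u i) I where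
  hp := D.hp
  hpb := D.hpb
  hc := D.hc
  hbT := D.hbT
  he := D.he
  hy := by
    intro i hi
    push_cast
    rw [← D.hr i hi]
    ring
  hU := by
    intro i hi
    rw [emultiplicity_mul (Nat.prime_iff_prime_int.1 D.hp), hw, D.hu i hi]
    push_cast
    ring

variable {Ω : Type*} [MeasurableSpace Ω] {μ : Measure Ω} [IsProbabilityMeasure μ] {X : Ω → ℝ}

lemma good_sum (D : Data p b T c n0 e r u I) (φ : ℕ → ℝ → ℝ) (hφ : ∀ i θ, φ i (θ + 1) = φ i θ)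
    (hφ0 : ∀ i θ, 0 ≤ φ i θ) (hφ1 : ∀ i θ, φ i θ ≤ 1)
    (hch : ∀ t : ℝ, ch μ X t ^ 2 ≤ ∏ i ∈ range I, φ i (t * r i)) (κ : ℕ → ℝ)
    (i₀ : ℕ) (hi₀ : 1 ≤ i₀) (hi₀I : i₀ ≤ I)
    (hκ0 : ∀ i, 0 ≤ κ i)
    (hκ : ∀ i, i₀ ≤ i → i < I → ∀ θ : ℝ, ∑ l ∈ range (p ^ (e i - e (i - 1))),
      φ i (θ + l / (p : ℝ) ^ (e i - e (i - 1))) ≤ (p : ℝ) ^ (e i - e (i - 1)) * κ i)
    (E N : ℕ) (hE : ∀ i < I, e i ≤ E) (hN : T * p ^ E ≤ N) (t w : ℕ)
    (hw : emultiplicity (p : ℤ) ((b : ℤ) ^ t - 1) = w) (hcw : c + w ≤ e (i₀ - 1)) :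
    ∑ n ∈ range N, ch μ X (((b : ℝ) ^ t - 1) * (b : ℝ) ^ n) ≤
      n0 + 2 * N * √(∏ i ∈ Ico i₀ I, κ i) := by
  have S := D.stage t w hw
  have hP : 0 < T * p ^ E := by
    have := D.hp.pos
    have := D.hT
    positivity
  set R := T * p ^ E * (N / (T * p ^ E) + 1) with hR
  have hNR : N ≤ R := by
    have := Nat.lt_mul_div_succ N hP
    exact this.le
  have hR2 : R ≤ 2 * N := by
    have h1 : T * p ^ E * (N / (T * p ^ E)) ≤ N := Nat.mul_div_le N _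
    rw [hR, mul_add, mul_one]
    omega
  have hav := S.avg hφ hφ0 hφ1 κ i₀ hi₀ hi₀I hcw hκ R E hE (Dvd.intro _ rfl)
  set K := ∏ i ∈ Ico i₀ I, κ i with hK
  have hK0 : 0 ≤ K := prod_nonneg fun i _ => hκ0 i
  have h1 : ∑ n ∈ range R, ch μ X (((b : ℝ) ^ t - 1) * (b : ℝ) ^ (n0 + n)) ≤ R * √K := by
    have h2 : (∑ n ∈ range R, ch μ X (((b : ℝ) ^ t - 1) * (b : ℝ) ^ (n0 + n))) ^ 2 ≤ (R * √K) ^ 2 := by
      refine (sq_sum_le_card_mul_sum_sq).trans ?_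
      rw [card_range, mul_pow, Real.sq_sqrt hK0, sq, mul_assoc]
      refine mul_le_mul_of_nonneg_left ?_ (Nat.cast_nonneg _)
      refine le_trans (sum_le_sum fun n _ => hch _) ?_
      refine le_trans (le_of_eq (sum_congr rfl fun n _ => ?_)) hav
      unfold F
      refine prod_congr rfl fun i _ => ?_
      congr 1
      rw [pow_add]
      ring
    exact le_of_sq_le_sq h2 (by positivity)
  calc ∑ n ∈ range N, ch μ X (((b : ℝ) ^ t - 1) * (b : ℝ) ^ n)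
      ≤ ∑ n ∈ range (n0 + R), ch μ X (((b : ℝ) ^ t - 1) * (b : ℝ) ^ n) :=
        sum_le_sum_of_subset_of_nonneg (range_subset_range.2 (by omega)) fun _ _ _ => ch_nonneg _
    _ = ∑ n ∈ range n0, ch μ X (((b : ℝ) ^ t - 1) * (b : ℝ) ^ n) +
        ∑ n ∈ range R, ch μ X (((b : ℝ) ^ t - 1) * (b : ℝ) ^ (n0 + n)) := sum_range_add _ _ _
    _ ≤ n0 + R * √K := by
        refine add_le_add ?_ h1
        refine (sum_le_sum fun n _ => ch_le_one _).trans ?_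
        simp
    _ ≤ n0 + 2 * N * √K := by
        have : (R : ℝ) ≤ 2 * N := by exact_mod_cast hR2
        gcongr

/-- few `t` are bad -/
lemma bad_dvd (D : Data p b T c n0 e r u I) (t w : ℕ) (ht : 1 ≤ t)
    (hw : emultiplicity (p : ℤ) ((b : ℤ) ^ t - 1) = w) (a : ℕ) (ha : c + a ≤ w) : p ^ a ∣ t := by
  have h1 := lte D.hp D.hc D.hbT t
  have h2 : emultiplicity (p : ℤ) ((b : ℤ) ^ t - 1) ≤ emultiplicity (p : ℤ) (((b : ℤ) ^ T) ^ t - 1) := by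
    apply emultiplicity_le_emultiplicity_of_dvd_right
    rw [← pow_mul, mul_comm, pow_mul]
    simpa using sub_dvd_pow_sub_pow ((b : ℤ) ^ t) 1 T
  rw [hw, h1] at h2
  have h3 : ((c : ℕ) : ℕ∞) + (a : ℕ∞) ≤ (c : ℕ∞) + emultiplicity p t := by
    refine le_trans ?_ h2
    exact_mod_cast ha
  have h4 : (a : ℕ∞) ≤ emultiplicity p t :=
    (ENat.add_le_add_iff_left (ENat.natCast_ne_top c)).1 h3
  exact pow_dvd_of_le_emultiplicity h4

/-- the second moment -/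
theorem moment_le (hX : Measurable X) (hb : 2 ≤ b) (D : Data p b T c n0 e r u I)
    (φ : ℕ → ℝ → ℝ) (hφ : ∀ i θ, φ i (θ + 1) = φ i θ)
    (hφ0 : ∀ i θ, 0 ≤ φ i θ) (hφ1 : ∀ i θ, φ i θ ≤ 1)
    (hch : ∀ t : ℝ, ch μ X t ^ 2 ≤ ∏ i ∈ range I, φ i (t * r i)) (κ : ℕ → ℝ)
    (i₀ : ℕ) (hi₀ : 1 ≤ i₀) (hi₀I : i₀ ≤ I)
    (hκ0 : ∀ i, 0 ≤ κ i)
    (hκ : ∀ i, i₀ ≤ i → i < I → ∀ θ : ℝ, ∑ l ∈ range (p ^ (e i - e (i - 1))),
      φ i (θ + l / (p : ℝ) ^ (e i - e (i - 1))) ≤ (p : ℝ) ^ (e i - e (i - 1)) * κ i)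
    (E N a : ℕ) (hE : ∀ i < I, e i ≤ E) (hN : T * p ^ E ≤ N) (ha : 2 * c + a ≤ e (i₀ - 1)) :
    ∫ ω, ‖WS b (X ω) N‖ ^ 2 ∂μ ≤
      N + 2 * (N * (n0 + 2 * N * √(∏ i ∈ Ico i₀ I, κ i)) + N * (N / (p : ℝ) ^ a)) := by
  refine (second_le b N hX).trans ?_
  gcongr
  set K := ∏ i ∈ Ico i₀ I, κ i with hK
  have hfin : ∀ t, 1 ≤ t → ∃ w : ℕ, emultiplicity (p : ℤ) ((b : ℤ) ^ t - 1) = w := by
    intro t ht
    have hne : (b : ℤ) ^ t - 1 ≠ 0 := by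
      have h1 : 1 < (b : ℤ) ^ t := one_lt_pow₀ (by exact_mod_cast (by omega : 1 < b)) (by omega)
      omega
    have hf : FiniteMultiplicity (p : ℤ) ((b : ℤ) ^ t - 1) := by
      rw [Int.finiteMultiplicity_iff]
      refine ⟨?_, hne⟩
      simpa using D.hp.ne_one
    exact ⟨_, hf.emultiplicity_eq_multiplicity⟩
  have hpos : 0 ≤ n0 + 2 * (N : ℝ) * √K := by positivity
  have key : ∀ t ∈ Ico 1 N, ∑ n ∈ range N, ch μ X (((b : ℝ) ^ t - 1) * (b : ℝ) ^ n) ≤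
      (n0 + 2 * N * √K) + (if p ^ a ∣ t then (N : ℝ) else 0) := by
    intro t ht
    rw [mem_Ico] at ht
    obtain ⟨w, hw⟩ := hfin t ht.1
    by_cases h : c + w ≤ e (i₀ - 1)
    · have h1 := good_sum D φ hφ hφ0 hφ1 hch κ i₀ hi₀ hi₀I hκ0 hκ E N hE hN t w hw h
      have h2 : (0 : ℝ) ≤ (if p ^ a ∣ t then (N : ℝ) else 0) := by positivity
      linarith
    · have h1 : p ^ a ∣ t := bad_dvd D t w ht.1 hw a (by omega)
      rw [if_pos h1]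
      have h2 : ∑ n ∈ range N, ch μ X (((b : ℝ) ^ t - 1) * (b : ℝ) ^ n) ≤ N := by
        refine (sum_le_sum fun n _ => ch_le_one _).trans ?_
        simp
      linarith
  refine (sum_le_sum key).trans ?_
  rw [sum_add_distrib, sum_const, Nat.card_Ico, nsmul_eq_mul, ← sum_filter, sum_const, nsmul_eq_mul]
  refine add_le_add ?_ ?_
  · refine mul_le_mul_of_nonneg_right ?_ hpos
    exact_mod_cast Nat.sub_le N 1
  · rw [mul_comm]
    refine mul_le_mul_of_nonneg_left ?_ (Nat.cast_nonneg _)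
    have hpa : 0 < p ^ a := by
      have := D.hp.pos
      positivity
    have h1 : ((Ico 1 N).filter (fun t => p ^ a ∣ t)).card ≤ N / p ^ a := by
      rw [← Nat.Ioc_filter_dvd_card_eq_div]
      apply card_le_card
      intro t ht
      rw [mem_filter, mem_Ico] at ht
      rw [mem_filter, mem_Ioc]
      exact ⟨⟨by omega, by omega⟩, ht.2⟩
    calc (((Ico 1 N).filter (fun t => p ^ a ∣ t)).card : ℝ) ≤ ((N / p ^ a : ℕ) : ℝ) := by exact_mod_cast h1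
      _ ≤ (N : ℝ) / ((p ^ a : ℕ) : ℝ) := Nat.cast_div_le
      _ = _ := by push_cast; rfl

end

end Pool.Agent.H607
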