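import Mathlib

/-!
# Averages of products of periodic functions along the powers of `b`

Let `φ_i` be functions of period one and `y_i` rational numbers whose denominators contain
increasing powers of a prime `p` not dividing `b`. The average of `∏ φ_i(b^n y_i)` over a full
period is at most the product of the averages of `φ_i` over equally spaced points.
-/

set_option autoImplicit false

namespace Pool.Agent.H607

open Finset

/-- the condition for lifting the exponent -/
def Lift (p c : ℕ) : Prop := 1 ≤ c ∧ (p ≠ 2 ∨ 2 ≤ c)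

lemma lte {p : ℕ} (hp : p.Prime) {x : ℤ} {c : ℕ} (hc : Lift p c)
    (hx : emultiplicity (p : ℤ) (x - 1) = c) (n : ℕ) :
    emultiplicity (p : ℤ) (x ^ n - 1) = c + emultiplicity p n := by
  have hpx : ¬ (p : ℤ) ∣ x := by
    intro h
    have h1 : (p : ℤ) ∣ x - 1 := by
      have h2 := pow_dvd_of_le_emultiplicity (a := (p : ℤ)) (b := x - 1) (k := c) hx.ge
      exact (dvd_pow_self _ (by have := hc.1; omega)).trans h2
    have h3 : (p : ℤ) ∣ 1 := by
      have := dvd_sub h h1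
      simpa using this
    exact hp.one_lt.ne' (by exact_mod_cast Int.natAbs_dvd_natAbs.2 h3 |> Nat.dvd_one.1)
  rcases eq_or_ne p 2 with h2 | h2
  · subst h2
    have hc2 : 2 ≤ c := hc.2.resolve_left (by simp)
    have h4 : (4 : ℤ) ∣ x - 1 := by
      have h5 := pow_dvd_of_le_emultiplicity (a := ((2 : ℕ) : ℤ)) (b := x - 1) (k := c) hx.ge
      have h6 : ((2 : ℕ) : ℤ) ^ 2 ∣ ((2 : ℕ) : ℤ) ^ c := pow_dvd_pow _ hc2
      exact (by norm_num : (4 : ℤ) ∣ ((2 : ℕ) : ℤ) ^ 2).trans (h6.trans h5)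
    have h7 := Int.two_pow_sub_pow' (x := x) (y := 1) n h4 (by exact_mod_cast hpx)
    rw [one_pow] at h7
    have h8 : emultiplicity (2 : ℤ) (n : ℤ) = emultiplicity 2 n := by
      have := Int.natCast_emultiplicity 2 n
      simpa using this
    rw [h8] at h7
    have h9 : emultiplicity (2 : ℤ) (x - 1) = (c : ℕ∞) := by exact_mod_cast hx
    rw [h9] at h7
    exact_mod_cast h7
  · have hodd : Odd p := hp.odd_of_ne_two h2
    have h1 : (p : ℤ) ∣ x - 1 := by
      have h2 := pow_dvd_of_le_emultiplicity (a := (p : ℤ)) (b := x - 1) (k := c) hx.ge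
      exact (dvd_pow_self _ (by have := hc.1; omega)).trans h2
    have h7 := Int.emultiplicity_pow_sub_pow hp hodd (x := x) (y := 1) h1 hpx n
    rw [one_pow, hx] at h7
    exact h7


/-- the geometric sum `1 + x + ⋯ + x ^ (m - 1)` -/
def G (x : ℤ) (m : ℕ) : ℤ := ∑ l ∈ range m, x ^ l

lemma G_mul (x : ℤ) (m : ℕ) : G x m * (x - 1) = x ^ m - 1 := by
  unfold G
  exact geom_sum_mul x m

lemma G_val {p : ℕ} (hp : p.Prime) {x : ℤ} {c : ℕ} (hc : Lift p c)
    (hx : emultiplicity (p : ℤ) (x - 1) = c) (m : ℕ) :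
    emultiplicity (p : ℤ) (G x m) = emultiplicity p m := by
  have h1 := lte hp hc hx m
  rw [← G_mul, emultiplicity_mul (Nat.prime_iff_prime_int.1 hp), hx, add_comm (c : ℕ∞)] at h1
  exact ENat.add_left_injective_of_ne_top (ENat.natCast_ne_top c) h1

lemma G_sub (x : ℤ) (m m' : ℕ) (h : m' ≤ m) : G x m - G x m' = x ^ m' * G x (m - m') := by
  unfold G
  obtain ⟨k, rfl⟩ := Nat.exists_eq_add_of_le h
  rw [sum_range_add, Nat.add_sub_cancel_left, mul_sum]
  simp only [pow_add]
  ring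

/-- sums over a complete system of residues -/
lemma sum_residues (q : ℕ) (hq : 0 < q) (V : ℕ → ℤ)
    (hinj : ∀ j < q, ∀ j' < q, (q : ℤ) ∣ V j - V j' → j = j') (ψ : ℤ → ℝ)
    (hψ : ∀ l k : ℤ, ψ (l + q * k) = ψ l) :
    ∑ j ∈ range q, ψ (V j) = ∑ l ∈ range q, ψ l := by
  have hq0 : (q : ℤ) ≠ 0 := by exact_mod_cast hq.ne'
  have hmod : ∀ l : ℤ, ψ (l % q) = ψ l := by
    intro l
    conv_rhs => rw [← Int.emod_add_mul_ediv l q]
    rw [hψ]
  have hlt : ∀ l : ℤ, (l % q).toNat < q := by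
    intro l
    have h1 := Int.emod_nonneg l hq0
    have h2 := Int.emod_lt_of_pos l (by exact_mod_cast hq : (0 : ℤ) < q)
    omega
  have hcast : ∀ l : ℤ, (((l % q).toNat : ℕ) : ℤ) = l % q := by
    intro l
    exact Int.toNat_of_nonneg (Int.emod_nonneg l hq0)
  have hinj2 : Set.InjOn (fun j => (V j % q).toNat) (range q : Set ℕ) := by
    intro j hj j' hj' h
    rw [mem_coe, mem_range] at hj hj'
    apply hinj j hj j' hj'
    have h1 : V j % q = V j' % q := by
      rw [← hcast (V j), ← hcast (V j')]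
      simp only at h
      rw [h]
    exact Int.ModEq.dvd (show V j' ≡ V j [ZMOD q] from h1.symm)
  have himg : (range q).image (fun j => (V j % q).toNat) = range q := by
    apply eq_of_subset_of_card_le
    · intro l hl
      rw [mem_image] at hl
      obtain ⟨j, _, rfl⟩ := hl
      exact mem_range.2 (hlt _)
    · rw [card_image_of_injOn hinj2]
  conv_rhs => rw [← himg]
  rw [sum_image hinj2]
  refine sum_congr rfl fun j _ => ?_
  rw [hcast, hmod]

/-- shift invariance of the sum over a period -/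
lemma sum_shift (R : ℕ) (F : ℕ → ℝ) (hF : ∀ n, F (n + R) = F n) (a : ℕ) :
    ∑ n ∈ range R, F (n + a) = ∑ n ∈ range R, F n := by
  induction a with
  | zero => rfl
  | succ a ih =>
    rw [← ih]
    have h1 := sum_range_succ (fun n => F (n + a)) R
    have h2 := sum_range_succ' (fun n => F (n + a)) R
    rw [h1] at h2
    have h3 : F (R + a) = F (0 + a) := by
      rw [zero_add, add_comm, hF]
    rw [h3] at h2
    have h4 : ∀ n, F (n + 1 + a) = F (n + (a + 1)) := fun n => by congr 1; ring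
    simp only [h4] at h2
    linarith


section Avg

variable {p b T c w I : ℕ} {e : ℕ → ℕ} {y : ℕ → ℝ} {U : ℕ → ℤ} {φ : ℕ → ℝ → ℝ}

/-- the product of the first `I` functions at `b ^ n y_i` -/
noncomputable def F (b : ℕ) (φ : ℕ → ℝ → ℝ) (y : ℕ → ℝ) (I n : ℕ) : ℝ :=
  ∏ i ∈ range I, φ i ((b : ℝ) ^ n * y i)

lemma period_int (φ : ℝ → ℝ) (hφ : ∀ θ, φ (θ + 1) = φ θ) (θ : ℝ) (k : ℤ) : φ (θ + k) = φ θ := by
  have h : Function.Periodic φ 1 := hφ
  have := h.int_mul k θ
  simpa using this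

lemma shift_y (b T m n : ℕ) (y : ℝ) (e p : ℕ) (hp : 0 < p) (U : ℤ)
    (hy : (p : ℝ) ^ e * (((b : ℝ) ^ T - 1) * y) = U) :
    (b : ℝ) ^ (n + T * m) * y = (b : ℝ) ^ n * y + ((b : ℤ) ^ n * (U * G ((b : ℤ) ^ T) m) : ℤ) / (p : ℝ) ^ e := by
  have h1 := G_mul ((b : ℤ) ^ T) m
  have h2 : ((G ((b : ℤ) ^ T) m : ℤ) : ℝ) * ((b : ℝ) ^ T - 1) = ((b : ℝ) ^ T) ^ m - 1 := by
    exact_mod_cast congrArg (fun z : ℤ => (z : ℝ)) h1
  have hp0 : (0 : ℝ) < (p : ℝ) ^ e := by positivity
  push_cast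
  rw [← hy, pow_add, pow_mul]
  have h3 : ((b : ℝ) ^ T) ^ m = 1 + ((G ((b : ℤ) ^ T) m : ℤ) : ℝ) * ((b : ℝ) ^ T - 1) := by
    rw [h2]; ring
  rw [h3]
  field_simp

/-- data at one stage -/
structure Stage (p b T c w : ℕ) (e : ℕ → ℕ) (y : ℕ → ℝ) (U : ℕ → ℤ) (I : ℕ) : Prop where
  hp : p.Prime
  hpb : ¬ p ∣ b
  hc : Lift p c
  hbT : emultiplicity (p : ℤ) ((b : ℤ) ^ T - 1) = c
  he : ∀ i, i + 1 < I → e i < e (i + 1)
  hy : ∀ i < I, (p : ℝ) ^ (e i) * (((b : ℝ) ^ T - 1) * y i) = U i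
  hU : ∀ i < I, emultiplicity (p : ℤ) (U i) = (c + w : ℕ)

lemma Stage.period (S : Stage p b T c w e y U I) (hφ : ∀ i θ, φ i (θ + 1) = φ i θ) (J s : ℕ)
    (hJ : J ≤ I) (hs : ∀ i < J, e i ≤ c + w + s) (m n : ℕ) :
    F b φ y J (n + T * p ^ s * m) = F b φ y J n := by
  unfold F
  refine prod_congr rfl fun i hi => ?_
  rw [mem_range] at hi
  have hiI : i < I := by omega
  rw [mul_assoc, shift_y b T (p ^ s * m) n (y i) (e i) p S.hp.pos (U i) (S.hy i hiI)]
  have hdvd : (p : ℤ) ^ (e i) ∣ U i * G ((b : ℤ) ^ T) (p ^ s * m) := by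
    apply pow_dvd_of_le_emultiplicity
    rw [emultiplicity_mul (Nat.prime_iff_prime_int.1 S.hp), S.hU i hiI, G_val S.hp S.hc S.hbT,
      emultiplicity_mul (Nat.prime_iff.1 S.hp)]
    have h1 : emultiplicity p (p ^ s) = (s : ℕ∞) := by
      exact emultiplicity_pow_self_of_prime (Nat.prime_iff.1 S.hp) s
    rw [h1]
    have h2 : ((e i : ℕ) : ℕ∞) ≤ ((c + w + s : ℕ) : ℕ∞) := by exact_mod_cast hs i hi
    refine h2.trans ?_
    push_cast
    rw [← add_assoc]
    exact le_self_add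
  obtain ⟨k, hk⟩ := hdvd
  rw [hk]
  have hp0 : (p : ℝ) ^ (e i) ≠ 0 := by
    have := S.hp.pos
    positivity
  have h3 : (((b : ℤ) ^ n * ((p : ℤ) ^ e i * k) : ℤ) : ℝ) / (p : ℝ) ^ (e i) = (((b : ℤ) ^ n * k : ℤ) : ℝ) := by
    push_cast
    field_simp
  rw [h3]
  exact period_int _ (hφ i) _ _


/-- the sum over one level -/
lemma Stage.level (S : Stage p b T c w e y U I) (hφ : ∀ i θ, φ i (θ + 1) = φ i θ) (i s d : ℕ)
    (hi : i < I) (hd : e i = c + w + s + d) (κ : ℝ)
    (hκ : ∀ θ : ℝ, ∑ l ∈ range (p ^ d), φ i (θ + l / (p : ℝ) ^ d) ≤ (p : ℝ) ^ d * κ) (n : ℕ) :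
    ∑ j ∈ range (p ^ d), φ i ((b : ℝ) ^ (n + T * p ^ s * j) * y i) ≤ (p : ℝ) ^ d * κ := by
  have hp0 := S.hp.pos
  have hpd : (p : ℝ) ^ d ≠ 0 := by positivity
  have hpI := Nat.prime_iff_prime_int.1 S.hp
  have hval : ∀ m : ℕ, emultiplicity (p : ℤ) (U i * G ((b : ℤ) ^ T) (p ^ s * m)) =
      ((c + w + s : ℕ) : ℕ∞) + emultiplicity p m := by
    intro m
    rw [emultiplicity_mul hpI, S.hU i hi, G_val S.hp S.hc S.hbT,
      emultiplicity_mul (Nat.prime_iff.1 S.hp), emultiplicity_pow_self_of_prime (Nat.prime_iff.1 S.hp) s]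
    push_cast
    ring
  have hdvd : ∀ m : ℕ, ∃ k : ℤ, U i * G ((b : ℤ) ^ T) (p ^ s * m) = (p : ℤ) ^ (c + w + s) * k := by
    intro m
    have : (p : ℤ) ^ (c + w + s) ∣ U i * G ((b : ℤ) ^ T) (p ^ s * m) := by
      apply pow_dvd_of_le_emultiplicity
      rw [hval]
      exact le_self_add
    exact this
  choose K hK using hdvd
  have key : ∀ j : ℕ, φ i ((b : ℝ) ^ (n + T * p ^ s * j) * y i) =
      φ i ((b : ℝ) ^ n * y i + (((b : ℤ) ^ n * K j : ℤ) : ℝ) / (p : ℝ) ^ d) := by
    intro j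
    rw [mul_assoc, shift_y b T (p ^ s * j) n (y i) (e i) p hp0 (U i) (S.hy i hi), hK, hd]
    congr 2
    push_cast
    rw [pow_add (p : ℝ) (c + w + s) d]
    have : (p : ℝ) ^ (c + w + s) ≠ 0 := by positivity
    field_simp
  simp only [key]
  have hres := sum_residues (p ^ d) (by positivity) (fun j => (b : ℤ) ^ n * K j) (by
      intro j hj j' hj' h
      by_contra hne
      wlog hlt : j' < j generalizing j j'
      · exact this j' hj' j hj (by
          have := h.neg_right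
          rwa [neg_sub] at this) (Ne.symm hne) (by omega)
      have h1 : (p : ℤ) ^ (c + w + s) * (K j - K j') =
          ((b : ℤ) ^ T) ^ (p ^ s * j') * (U i * G ((b : ℤ) ^ T) (p ^ s * (j - j'))) := by
        have h2 := G_sub ((b : ℤ) ^ T) (p ^ s * j) (p ^ s * j') (Nat.mul_le_mul_left _ hlt.le)
        rw [← Nat.mul_sub] at h2
        rw [mul_sub, ← hK, ← hK, ← mul_sub, h2]
        ring
      have hbp : emultiplicity (p : ℤ) (b : ℤ) = 0 := by
        rw [emultiplicity_eq_zero]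
        exact_mod_cast S.hpb
      have h3 : emultiplicity (p : ℤ) ((p : ℤ) ^ (c + w + s) * (K j - K j')) =
          ((c + w + s : ℕ) : ℕ∞) + emultiplicity p (j - j') := by
        rw [h1, emultiplicity_mul hpI, hval, emultiplicity_pow hpI, emultiplicity_pow hpI, hbp]
        simp
      rw [emultiplicity_mul hpI, emultiplicity_pow_self_of_prime hpI] at h3
      have h4 := ENat.add_right_injective_of_ne_top (ENat.natCast_ne_top (c + w + s)) h3
      have h5 : ((d : ℕ) : ℕ∞) ≤ emultiplicity p (j - j') := by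
        rw [← h4]
        have h6 : (p : ℤ) ^ d ∣ (b : ℤ) ^ n * (K j - K j') := by
          rw [mul_sub]
          exact_mod_cast h
        have h7 := le_emultiplicity_of_pow_dvd h6
        rw [emultiplicity_mul hpI, emultiplicity_pow hpI, hbp] at h7
        simpa using h7
      have h8 : p ^ d ∣ j - j' := pow_dvd_of_le_emultiplicity h5
      have h9 := Nat.le_of_dvd (by omega) h8
      omega)
    (fun l => φ i ((b : ℝ) ^ n * y i + (l : ℝ) / (p : ℝ) ^ d)) (by
      intro l k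
      have : (b : ℝ) ^ n * y i + ((l + ((p ^ d : ℕ) : ℤ) * k : ℤ) : ℝ) / (p : ℝ) ^ d =
          (b : ℝ) ^ n * y i + (l : ℝ) / (p : ℝ) ^ d + (k : ℝ) := by
        push_cast
        field_simp
        ring
      rw [this, period_int _ (hφ i)])
  rw [hres]
  have := hκ ((b : ℝ) ^ n * y i)
  simpa only [Int.cast_natCast] using this


/-- the average of the product -/
lemma Stage.avg (S : Stage p b T c w e y U I) (hφ : ∀ i θ, φ i (θ + 1) = φ i θ)
    (hφ0 : ∀ i θ, 0 ≤ φ i θ) (hφ1 : ∀ i θ, φ i θ ≤ 1) (κ : ℕ → ℝ)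
    (i₀ : ℕ) (hi₀ : 1 ≤ i₀) (hi₀I : i₀ ≤ I) (hcw : c + w ≤ e (i₀ - 1))
    (hκ : ∀ i, i₀ ≤ i → i < I → ∀ θ : ℝ, ∑ l ∈ range (p ^ (e i - e (i - 1))),
      φ i (θ + l / (p : ℝ) ^ (e i - e (i - 1))) ≤ (p : ℝ) ^ (e i - e (i - 1)) * κ i)
    (R E : ℕ) (hE : ∀ i < I, e i ≤ E) (hR : T * p ^ E ∣ R) :
    ∑ n ∈ range R, F b φ y I n ≤ R * ∏ i ∈ Ico i₀ I, κ i := by
  have hp0 := S.hp.pos
  have hmono : ∀ i j, i ≤ j → j < I → e i ≤ e j := by
    intro i j hij
    induction j, hij using Nat.le_induction with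
    | base => intro _; exact le_rfl
    | succ j hij ih =>
      intro hj
      exact (ih (by omega)).trans (S.he j hj).le
  have key : ∀ J, i₀ ≤ J → J ≤ I → ∑ n ∈ range R, F b φ y J n ≤ R * ∏ i ∈ Ico i₀ J, κ i := by
    intro J hJ
    induction J, hJ using Nat.le_induction with
    | base =>
      intro _
      rw [Ico_self, prod_empty, mul_one]
      calc ∑ n ∈ range R, F b φ y i₀ n ≤ ∑ n ∈ range R, (1 : ℝ) :=
            sum_le_sum fun n _ => prod_le_one (fun i _ => hφ0 _ _) (fun i _ => hφ1 _ _)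
        _ = R := by simp
    | succ J hJ ih =>
      intro hJI
      have ih' := ih (by omega)
      rw [prod_Ico_succ_top hJ]
      -- the level
      obtain ⟨s, hs⟩ : ∃ s, e (J - 1) = c + w + s := by
        have h1 : c + w ≤ e (J - 1) := hcw.trans (hmono _ _ (by omega) (by omega))
        exact ⟨e (J - 1) - (c + w), by omega⟩
      obtain ⟨d, hd⟩ : ∃ d, e J = c + w + s + d := by
        have h1 := hmono (J - 1) J (by omega) (by omega)
        exact ⟨e J - (c + w + s), by omega⟩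
      have hd' : e J - e (J - 1) = d := by omega
      have hκJ := hκ J hJ (by omega)
      rw [hd'] at hκJ
      have hlev := S.level hφ J s d (by omega) hd (κ J) hκJ
      have hper : ∀ n, F b φ y (J + 1) (n + R) = F b φ y (J + 1) n := by
        intro n
        obtain ⟨k, hk⟩ := hR
        have hpd : p ^ (c + w + E) = p ^ (c + w + E) := rfl
        have h1 := S.period hφ (J + 1) E hJI (fun i hi => by
          have := hE i (by omega)
          omega) k n
        rw [hk]
        exact h1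
      have hpdpos : (0 : ℝ) < (p : ℝ) ^ d := by positivity
      have h2 : (p : ℝ) ^ d * ∑ n ∈ range R, F b φ y (J + 1) n =
          ∑ n ∈ range R, ∑ j ∈ range (p ^ d), F b φ y (J + 1) (n + T * p ^ s * j) := by
        rw [sum_comm]
        have h3 : ∀ j ∈ range (p ^ d), ∑ n ∈ range R, F b φ y (J + 1) (n + T * p ^ s * j) =
            ∑ n ∈ range R, F b φ y (J + 1) n := fun j _ => sum_shift R _ hper _
        rw [sum_congr rfl h3, sum_const, card_range, nsmul_eq_mul]
        push_cast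
        ring
      have h4 : ∀ n, ∑ j ∈ range (p ^ d), F b φ y (J + 1) (n + T * p ^ s * j) ≤
          F b φ y J n * ((p : ℝ) ^ d * κ J) := by
        intro n
        have h5 : ∀ j, F b φ y (J + 1) (n + T * p ^ s * j) =
            F b φ y J n * φ J ((b : ℝ) ^ (n + T * p ^ s * j) * y J) := by
          intro j
          have h6 := S.period hφ J s (by omega) (fun i hi => by
            have := hmono i (J - 1) (by omega) (by omega)
            omega) j n
          rw [← h6]
          unfold F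
          rw [prod_range_succ]
        simp only [h5]
        rw [← mul_sum]
        exact mul_le_mul_of_nonneg_left (hlev n) (prod_nonneg fun i _ => hφ0 _ _)
      have hκ0 : 0 ≤ κ J := by
        have h5 := hκJ 0
        have h6 : 0 ≤ ∑ l ∈ range (p ^ d), φ J (0 + l / (p : ℝ) ^ d) := sum_nonneg fun l _ => hφ0 _ _
        nlinarith [h6.trans h5]
      have h7 : (p : ℝ) ^ d * ∑ n ∈ range R, F b φ y (J + 1) n ≤
          (p : ℝ) ^ d * (R * ((∏ i ∈ Ico i₀ J, κ i) * κ J)) := by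
        rw [h2]
        refine (sum_le_sum fun n _ => h4 n).trans ?_
        rw [← sum_mul]
        calc (∑ n ∈ range R, F b φ y J n) * ((p : ℝ) ^ d * κ J) ≤
              (R * ∏ i ∈ Ico i₀ J, κ i) * ((p : ℝ) ^ d * κ J) := by gcongr
          _ = _ := by ring
      exact le_of_mul_le_mul_left h7 hpdpos
  exact key I hi₀I le_rfl

end Avg

end Pool.Agent.H607
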