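import Pool.Agent.H607.Moment
import Pool.Agent.H607.AS
import Pool.Agent.H607.Law
import Pool.Agent.H607.Period

/-!
# Almost every subseries of a series of rational numbers is normal
-/

set_option autoImplicit false

namespace Pool.Agent.H607

open Finset Filter Topology MeasureTheory ProbabilityTheory
open Pool.Agent.W206.ND (ee NT AV)

/-- the arithmetic of the terms `r (k i)` of a series of rational numbers -/
structure Terms (b p : ℕ) (r : ℕ → ℝ) (k e : ℕ → ℕ) (v : ℕ → ℤ) (d m Q : ℕ → ℕ) (A : ℕ) :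
    Prop where
  hp : p.Prime
  hpb : ¬ p ∣ b
  hk : Function.Injective k
  he : StrictMono e
  hr : ∀ i, (p : ℝ) ^ (e i) * (d i * r (k i)) = v i
  hv : ∀ i, ¬ (p : ℤ) ∣ v i
  hd : ∀ i I, i < I → d i ∣ b ^ (m I) * Q I
  hpQ : ∀ I, ¬ p ∣ Q I
  hQ : ∀ I, (Q I : ℝ) ≤ Real.exp (A * ((I : ℝ) + 1) ^ 2)
  hm : ∀ I, (m I : ℝ) ≤ Real.exp (A * ((I : ℝ) + 1) ^ 2)
  hL : ∀ I l, l.Prime → l ∣ Q I → l ≤ (I + 2) ^ A
  he2 : ∀ i, e i ≤ A * (i + 1) ^ 2

section

variable {b p : ℕ} {r : ℕ → ℝ} {k e : ℕ → ℕ} {v : ℕ → ℤ} {d m Q : ℕ → ℕ} {A : ℕ}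

lemma Terms.data (H : Terms b p r k e v d m Q A) {T₁ c₁ : ℕ} (hT₁ : 1 ≤ T₁)
    (hc₁ : Lift p c₁) (hx : emultiplicity (p : ℤ) ((b : ℤ) ^ T₁ - 1) = c₁) (I : ℕ) :
    ∃ (T : ℕ) (u : ℕ → ℤ), T ≤ T₁ * p ^ (Nat.log p ((I + 2) ^ A) + 1) * Q I ∧
      Data p b T (c₁ + (Nat.log p ((I + 2) ^ A) + 1)) (m I + Q I) e (fun i => r (k i)) u I := by
  have hp0 := H.hp.pos
  have hQ1 : 1 ≤ Q I := by
    by_contra h
    have : Q I = 0 := by omega
    exact H.hpQ I (this ▸ dvd_zero p)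
  have hb0 : 0 < b := by
    by_contra h
    have : b = 0 := by omega
    exact H.hpb (this ▸ dvd_zero p)
  obtain ⟨T, hT1, hT2, hT3, hT4, hT5⟩ := exists_univ H.hp H.hpb hT₁ hc₁ hx (Q I) ((I + 2) ^ A)
    (Nat.log p ((I + 2) ^ A) + 1) hQ1 (H.hpQ I) (H.hL I) (Nat.lt_pow_succ_log_self H.hp.one_lt _)
  set c := c₁ + (Nat.log p ((I + 2) ^ A) + 1) with hc
  have hpI := Nat.prime_iff_prime_int.1 H.hp
  have hbT1 : 1 ≤ b ^ T := Nat.one_le_pow _ _ hb0
  have hdv : ∀ i, i < I → ∃ g : ℤ, (b : ℤ) ^ (m I + Q I) * ((b : ℤ) ^ T - 1) = d i * g := by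
    intro i hi
    have h1 : d i ∣ b ^ (m I + Q I) * (b ^ T - 1) := by
      refine (H.hd i I hi).trans ?_
      rw [pow_add, mul_assoc]
      exact Nat.mul_dvd_mul_left _ hT3
    obtain ⟨g, hg⟩ := h1
    refine ⟨g, ?_⟩
    have h2 := congrArg (fun z : ℕ => (z : ℤ)) hg
    simp only [Nat.cast_mul, Nat.cast_pow] at h2
    rw [Nat.cast_sub hbT1] at h2
    push_cast at h2
    exact h2
  choose! g hg using hdv
  refine ⟨T, fun i => g i * v i, hT2, H.hp, H.hpb, hT4, hT1, hT5, ?_, ?_, ?_⟩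
  · intro i _
    exact H.he (Nat.lt_succ_self i)
  · intro i hi
    have h1 := congrArg (fun z : ℤ => (z : ℝ)) (hg i hi)
    push_cast at h1
    push_cast
    rw [← H.hr i]
    have h2 : (b : ℝ) ^ (m I + Q I) * ((b : ℝ) ^ T - 1) * ((p : ℝ) ^ e i * r (k i)) =
      d i * g i * ((p : ℝ) ^ e i * r (k i)) := by rw [h1]
    linear_combination h2
  · intro i hi
    have h1 : emultiplicity (p : ℤ) ((b : ℤ) ^ (m I + Q I) * ((b : ℤ) ^ T - 1)) = c := by
      rw [emultiplicity_mul hpI, emultiplicity_pow hpI,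
        emultiplicity_eq_zero.2 (by exact_mod_cast H.hpb), hT5]
      simp
    rw [hg i hi, emultiplicity_mul hpI] at h1
    have hpd : ¬ (p : ℤ) ∣ (d i : ℤ) := by
      intro h
      have h2 : p ∣ d i := by exact_mod_cast h
      have h3 := h2.trans (H.hd i I hi)
      rcases (Nat.Prime.dvd_mul H.hp).1 h3 with h4 | h4
      · exact H.hpb (H.hp.dvd_of_dvd_pow h4)
      · exact H.hpQ I h4
    rw [emultiplicity_eq_zero.2 hpd, zero_add] at h1
    rw [emultiplicity_mul hpI, h1, emultiplicity_eq_zero.2 (H.hv i), add_zero]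

lemma cube_ge (B : ℝ) : ∀ᶠ I : ℕ in atTop, B * ((I : ℝ) + 1) ^ 2 ≤ (I : ℝ) ^ 3 := by
  filter_upwards [eventually_ge_atTop (max 1 ⌈4 * |B|⌉₊)] with I hI
  have h1 : (1 : ℝ) ≤ I := by exact_mod_cast (le_max_left _ _).trans hI
  have h2 : 4 * |B| ≤ I := (Nat.le_ceil _).trans (by exact_mod_cast (le_max_right _ _).trans hI)
  have h3 : B ≤ |B| := le_abs_self B
  have h4 : ((I : ℝ) + 1) ^ 2 ≤ 4 * (I : ℝ) ^ 2 := by nlinarith
  calc B * ((I : ℝ) + 1) ^ 2 ≤ |B| * ((I : ℝ) + 1) ^ 2 := by gcongr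
    _ ≤ |B| * (4 * (I : ℝ) ^ 2) := by gcongr
    _ = (4 * |B|) * (I : ℝ) ^ 2 := by ring
    _ ≤ (I : ℝ) * (I : ℝ) ^ 2 := by gcongr
    _ = (I : ℝ) ^ 3 := by ring

/-- the scale belonging to `N` -/
noncomputable def scale (N : ℕ) : ℕ := ⌊(Real.log N) ^ (1 / 3 : ℝ)⌋₊

lemma scale_le (N : ℕ) : (scale N : ℝ) ^ 3 ≤ Real.log N := by
  have h0 : 0 ≤ Real.log N := Real.log_natCast_nonneg N
  have h1 : (scale N : ℝ) ≤ (Real.log N) ^ (1 / 3 : ℝ) := Nat.floor_le (by positivity)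
  calc (scale N : ℝ) ^ 3 ≤ ((Real.log N) ^ (1 / 3 : ℝ)) ^ 3 := by gcongr
    _ = Real.log N := by
      rw [← Real.rpow_natCast, ← Real.rpow_mul h0]
      norm_num

lemma scale_lt (N : ℕ) : Real.log N ≤ ((scale N : ℝ) + 1) ^ 3 := by
  have h0 : 0 ≤ Real.log N := Real.log_natCast_nonneg N
  have h1 : (Real.log N) ^ (1 / 3 : ℝ) ≤ (scale N : ℝ) + 1 := (Nat.lt_floor_add_one _).le
  calc Real.log N = ((Real.log N) ^ (1 / 3 : ℝ)) ^ 3 := by
        rw [← Real.rpow_natCast, ← Real.rpow_mul h0]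
        norm_num
    _ ≤ ((scale N : ℝ) + 1) ^ 3 := by gcongr

lemma scale_tendsto : Tendsto scale atTop atTop := by
  have h1 : Tendsto (fun N : ℕ => Real.log N) atTop atTop :=
    Real.tendsto_log_atTop.comp tendsto_natCast_atTop_atTop
  have h2 : Tendsto (fun N : ℕ => (Real.log N) ^ (1 / 3 : ℝ)) atTop atTop :=
    (tendsto_rpow_atTop (by norm_num)).comp h1
  exact tendsto_nat_floor_atTop.comp h2

lemma natlog_le (x : ℕ) (hx : 1 ≤ x) (q : ℕ) (hq : 2 ≤ q) : (Nat.log q x : ℝ) ≤ 2 * Real.log x := by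
  have h1 : q ^ Nat.log q x ≤ x := Nat.pow_log_le_self q (by omega)
  have h2 : (q : ℝ) ^ Nat.log q x ≤ x := by exact_mod_cast h1
  have hq0 : (2 : ℝ) ≤ q := by exact_mod_cast hq
  have h3 : Real.log ((2 : ℝ) ^ Nat.log q x) ≤ Real.log x := by
    apply Real.log_le_log (by positivity)
    exact (pow_le_pow_left₀ (by norm_num) hq0 _).trans h2
  rw [Real.log_pow] at h3
  have h4 := Real.log_two_gt_d9
  have h5 : (0 : ℝ) ≤ Nat.log q x := Nat.cast_nonneg _
  nlinarith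

lemma log_half (I : ℕ) : 1 / 2 ≤ Real.log ((I : ℝ) + 2) := by
  have h1 : Real.log 2 ≤ Real.log ((I : ℝ) + 2) := Real.log_le_log (by norm_num) (by
    have : (0 : ℝ) ≤ I := Nat.cast_nonneg I
    linarith)
  have h4 := Real.log_two_gt_d9
  linarith

/-- the first level that is used -/
def ilev (p A c₁ I : ℕ) : ℕ :=
  2 * (c₁ + (Nat.log p ((I + 2) ^ A) + 1)) + 6 * (Nat.log 2 (I + 1) + 1) + 1

lemma ilev_le (p A c₁ I : ℕ) (hp : 2 ≤ p) :
    (ilev p A c₁ I : ℝ) ≤ (4 * c₁ + 4 * A + 30) * Real.log ((I : ℝ) + 2) := by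
  have h0 := log_half I
  have h1 : (Nat.log p ((I + 2) ^ A) : ℝ) ≤ 2 * (A * Real.log ((I : ℝ) + 2)) := by
    have := natlog_le ((I + 2) ^ A) (Nat.one_le_pow _ _ (by omega)) p hp
    push_cast at this
    rwa [Real.log_pow] at this
  have h2 : (Nat.log 2 (I + 1) : ℝ) ≤ 2 * Real.log ((I : ℝ) + 2) := by
    have := natlog_le (I + 1) (by omega) 2 le_rfl
    push_cast at this
    have h3 : Real.log ((I : ℝ) + 1) ≤ Real.log ((I : ℝ) + 2) :=
      Real.log_le_log (by positivity) (by linarith)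
    linarith
  have h3 : (0 : ℝ) ≤ c₁ := Nat.cast_nonneg _
  unfold ilev
  push_cast
  nlinarith

lemma sqrt_prod_le (β : ℕ → ℝ) (hβ : ∀ i, β i ≤ 1 / 4) (i₀ I : ℕ) (hi : i₀ ≤ I) (B : ℝ)
    (h1 : (i₀ : ℝ) ≤ B * Real.log ((I : ℝ) + 2))
    (h2 : (B / 4 + 6) * Real.log ((I : ℝ) + 2) ≤ ∑ i ∈ range I, β i) :
    √(∏ i ∈ Ico i₀ I, (1 - 2 * β i)) ≤ 1 / ((I : ℝ) + 1) ^ 6 := by
  have hI1 : (0 : ℝ) ≤ I := Nat.cast_nonneg I
  have h5 : ∏ i ∈ Ico i₀ I, (1 - 2 * β i) ≤ Real.exp (-(2 * ∑ i ∈ Ico i₀ I, β i)) := by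
    rw [mul_sum, ← sum_neg_distrib, Real.exp_sum]
    apply Finset.prod_le_prod
    · intro i _
      have := hβ i
      linarith
    · intro i _
      have := Real.add_one_le_exp (-(2 * β i))
      linarith
  have h6 : √(∏ i ∈ Ico i₀ I, (1 - 2 * β i)) ≤ Real.exp (-(∑ i ∈ Ico i₀ I, β i)) := by
    rw [Real.sqrt_le_left (by positivity), ← Real.exp_nat_mul]
    refine h5.trans (le_of_eq ?_)
    congr 1
    push_cast
    ring
  refine h6.trans ?_
  have h7 : ∑ i ∈ range i₀, β i ≤ (i₀ : ℝ) * (1 / 4) := by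
    calc ∑ i ∈ range i₀, β i ≤ ∑ i ∈ range i₀, (1 / 4 : ℝ) := sum_le_sum fun i _ => hβ i
      _ = _ := by simp
  have h8 : ∑ i ∈ range I, β i = ∑ i ∈ range i₀, β i + ∑ i ∈ Ico i₀ I, β i := by
    rw [range_eq_Ico, range_eq_Ico, sum_Ico_consecutive _ (Nat.zero_le _) hi]
  have h10 : 6 * Real.log ((I : ℝ) + 2) ≤ ∑ i ∈ Ico i₀ I, β i := by
    linarith
  calc Real.exp (-(∑ i ∈ Ico i₀ I, β i)) ≤ Real.exp (-(6 * Real.log ((I : ℝ) + 2))) := by
          apply Real.exp_le_exp.2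
          linarith
    _ = 1 / ((I : ℝ) + 2) ^ 6 := by
      rw [Real.exp_neg, one_div, mul_comm, Real.exp_mul, Real.exp_log (by positivity)]
      norm_cast
    _ ≤ 1 / ((I : ℝ) + 1) ^ 6 := by
      gcongr
      linarith

lemma final_bound (N G n0 s P : ℝ) (hN : 0 < N) (hG : 0 < G) (h1 : G ≤ N) (h2 : n0 * G ≤ N)
    (h3 : s ≤ 1 / G) (h4 : G ≤ P) :
    N + 2 * (N * (n0 + 2 * N * s) + N * (N / P)) ≤ 9 * (N ^ 2 / G) := by
  have a1 : N ≤ N ^ 2 / G := by
    rw [le_div_iff₀ hG, sq]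
    gcongr
  have a2 : N * n0 ≤ N ^ 2 / G := by
    rw [le_div_iff₀ hG, sq, mul_assoc]
    gcongr
  have a3 : N * (2 * N * s) ≤ 2 * (N ^ 2 / G) := by
    calc N * (2 * N * s) ≤ N * (2 * N * (1 / G)) := by gcongr
      _ = _ := by ring
  have a4 : N * (N / P) ≤ N ^ 2 / G := by
    rw [sq, mul_div_assoc]
    gcongr
  linarith

theorem Terms.as_normal {Ω : Type*} [MeasurableSpace Ω] {μ : Measure Ω} [IsProbabilityMeasure μ]
    {S : Ω → Set ℕ} {q : ℕ → ℝ} (hb : 2 ≤ b) (H : Terms b p r k e v d m Q A)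
    (hS : RandomSet μ S q) (hr : Summable r)
    (hq : ∀ C : ℝ, ∀ᶠ I : ℕ in atTop,
      C * Real.log ((I : ℝ) + 2) ≤ ∑ i ∈ range I, q (k i) * (1 - q (k i))) (y : ℝ) :
    ∀ᵐ ω ∂μ, AV b (y + ser r (S ω)) 1 := by
  classical
  obtain ⟨T₁, c₁, hT₁, hc₁, hx⟩ := exists_base H.hp hb H.hpb
  have hp2 := H.hp.two_le
  have hp0 := H.hp.pos
  refine as_av b ((hS.ser_meas hr).const_add y) 9 ?_
  -- the conditions on `I`
  have e1 := scale_tendsto.eventually (cube_ge (T₁ + p + 2 * A + p * A))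
  have e2 := scale_tendsto.eventually (cube_ge (A + 7))
  have e3 := scale_tendsto.eventually (hq ((4 * c₁ + 4 * A + 30) / 4 + 6))
  have e4 : ∀ᶠ N : ℕ in atTop, ilev p A c₁ (scale N) ≤ scale N := by
    have h1 : Tendsto (fun I : ℕ => Real.log ((I : ℝ) + 2) / ((I : ℝ) + 2)) atTop (𝓝 0) := by
      have h2 := Real.isLittleO_log_id_atTop.tendsto_div_nhds_zero
      exact h2.comp (tendsto_atTop_add_const_right _ _ tendsto_natCast_atTop_atTop)
    have h3 : ∀ᶠ I : ℕ in atTop, Real.log ((I : ℝ) + 2) / ((I : ℝ) + 2) <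
        1 / (2 * (4 * c₁ + 4 * A + 30)) := h1.eventually_lt_const (by positivity)
    have h4 : ∀ᶠ I : ℕ in atTop, ilev p A c₁ I ≤ I := by
      filter_upwards [h3, eventually_ge_atTop 2] with I hI hI2
      have h5 := ilev_le p A c₁ I hp2
      have hI2' : (2 : ℝ) ≤ I := by exact_mod_cast hI2
      have h6 : Real.log ((I : ℝ) + 2) < 1 / (2 * (4 * c₁ + 4 * A + 30)) * ((I : ℝ) + 2) := by
        rwa [div_lt_iff₀ (by positivity)] at hI
      have h7 : (ilev p A c₁ I : ℝ) ≤ I := by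
        calc (ilev p A c₁ I : ℝ) ≤ (4 * c₁ + 4 * A + 30) * Real.log ((I : ℝ) + 2) := h5
          _ ≤ (4 * c₁ + 4 * A + 30) * (1 / (2 * (4 * c₁ + 4 * A + 30)) * ((I : ℝ) + 2)) := by gcongr
          _ = ((I : ℝ) + 2) / 2 := by field_simp
          _ ≤ I := by linarith
      exact_mod_cast h7
    exact scale_tendsto.eventually h4
  filter_upwards [e1, e2, e3, e4, eventually_ge_atTop 3] with N h1 h2 h3 h4 hN3
  set I := scale N with hI
  have hN0 : (0 : ℝ) < N := by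
    have : 0 < N := by omega
    exact_mod_cast this
  have hlogN : 0 < Real.log N := Real.log_pos (by
    have : 1 < N := by omega
    exact_mod_cast this)
  have hIN : Real.exp ((I : ℝ) ^ 3) ≤ N := by
    calc Real.exp ((I : ℝ) ^ 3) ≤ Real.exp (Real.log N) := Real.exp_le_exp.2 (scale_le N)
      _ = N := Real.exp_log hN0
  have hI1 : (0 : ℝ) ≤ I := Nat.cast_nonneg I
  have hG : (Real.log N) ^ 2 ≤ ((I : ℝ) + 1) ^ 6 := by
    calc (Real.log N) ^ 2 ≤ (((I : ℝ) + 1) ^ 3) ^ 2 := by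
          gcongr
          exact scale_lt N
      _ = ((I : ℝ) + 1) ^ 6 := by ring
  obtain ⟨T, u, hT, D⟩ := H.data hT₁ hc₁ hx I
  set c := c₁ + (Nat.log p ((I + 2) ^ A) + 1) with hc
  set a := 6 * (Nat.log 2 (I + 1) + 1) with ha
  have hi₀ : ilev p A c₁ I = 2 * c + a + 1 := rfl
  have hIexp : ((I : ℝ) + 1) ^ 6 ≤ Real.exp (6 * ((I : ℝ) + 1) ^ 2) := by
    have h5 : (I : ℝ) + 1 ≤ Real.exp I := Real.add_one_le_exp _
    calc ((I : ℝ) + 1) ^ 6 ≤ (Real.exp I) ^ 6 := by gcongr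
      _ = Real.exp (6 * I) := by rw [← Real.exp_nat_mul]; norm_num
      _ ≤ _ := by
        apply Real.exp_le_exp.2
        nlinarith
  -- the moment bound
  have hmom := moment_le (μ := μ) (X := fun ω => y + ser r (S ω)) ((hS.ser_meas hr).const_add y) hb D
    (fun i => coin (q (k i))) (fun i θ => coin_periodic _ θ) (fun i θ => coin_nonneg _ θ)
    (fun i θ => coin_le_one (hS.q0 _) (hS.q1 _) θ) (by
      intro t
      have h5 := hS.ch_le hr y ((range I).image k) t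
      rwa [prod_image (fun _ _ _ _ h => H.hk h)] at h5)
    (fun i => 1 - 2 * (q (k i) * (1 - q (k i))))
    (ilev p A c₁ I) (by omega) h4 (by
      intro i
      have := sq_nonneg (1 - 2 * q (k i))
      nlinarith) (by
      intro i hi hiI θ
      have h5 : 1 < p ^ (e i - e (i - 1)) := by
        apply Nat.one_lt_pow _ H.hp.one_lt
        have := H.he (show i - 1 < i by omega)
        omega
      have h6 := coin_avg (q (k i)) θ (p ^ (e i - e (i - 1))) h5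
      push_cast at h6
      rw [h6])
    (A * I ^ 2) N a (by
      intro i hi
      refine (H.he2 i).trans ?_
      gcongr
      omega) (by
      have h5 : ((T * p ^ (A * I ^ 2) : ℕ) : ℝ) ≤ N := by
        refine le_trans ?_ hIN
        have hT' : (T : ℝ) ≤ T₁ * (p * ((I : ℝ) + 2) ^ A) * Real.exp (A * ((I : ℝ) + 1) ^ 2) := by
          have h6 : T ≤ T₁ * (p * (I + 2) ^ A) * Q I := by
            refine hT.trans ?_
            have h7 : p ^ (Nat.log p ((I + 2) ^ A) + 1) ≤ p * (I + 2) ^ A := by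
              rw [pow_succ, mul_comm]
              exact Nat.mul_le_mul_left _ (Nat.pow_log_le_self p (by positivity))
            gcongr
          have h8 : (T : ℝ) ≤ T₁ * (p * ((I : ℝ) + 2) ^ A) * Q I := by exact_mod_cast h6
          refine h8.trans ?_
          gcongr
          exact H.hQ I
        push_cast
        have hT₁e : (T₁ : ℝ) ≤ Real.exp (T₁ * ((I : ℝ) + 1) ^ 2) := by
          refine le_trans ?_ (Real.add_one_le_exp _)
          have : (1 : ℝ) ≤ ((I : ℝ) + 1) ^ 2 := by nlinarith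
          have : (0 : ℝ) ≤ T₁ := Nat.cast_nonneg _
          nlinarith
        have hpe : (p : ℝ) ≤ Real.exp (p * ((I : ℝ) + 1) ^ 2) := by
          refine le_trans ?_ (Real.add_one_le_exp _)
          have : (1 : ℝ) ≤ ((I : ℝ) + 1) ^ 2 := by nlinarith
          have : (0 : ℝ) ≤ p := Nat.cast_nonneg _
          nlinarith
        have hAe : ((I : ℝ) + 2) ^ A ≤ Real.exp (A * ((I : ℝ) + 1) ^ 2) := by
          have h6 : (I : ℝ) + 2 ≤ Real.exp ((I : ℝ) + 1) := by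
            have := Real.add_one_le_exp ((I : ℝ) + 1)
            linarith
          calc ((I : ℝ) + 2) ^ A ≤ (Real.exp ((I : ℝ) + 1)) ^ A := by gcongr
            _ = Real.exp (A * ((I : ℝ) + 1)) := by rw [← Real.exp_nat_mul]
            _ ≤ _ := by
              apply Real.exp_le_exp.2
              gcongr
              nlinarith
        have hpE : (p : ℝ) ^ (A * I ^ 2) ≤ Real.exp (p * A * ((I : ℝ) + 1) ^ 2) := by
          have h6 : (p : ℝ) ≤ Real.exp p := by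
            have := Real.add_one_le_exp (p : ℝ)
            linarith
          calc (p : ℝ) ^ (A * I ^ 2) ≤ (Real.exp p) ^ (A * I ^ 2) := by gcongr
            _ = Real.exp (p * A * (I : ℝ) ^ 2) := by
              rw [← Real.exp_nat_mul]
              congr 1
              push_cast
              ring
            _ ≤ _ := by
              apply Real.exp_le_exp.2
              gcongr
              linarith
        calc (T : ℝ) * (p : ℝ) ^ (A * I ^ 2) ≤
              (T₁ * (p * ((I : ℝ) + 2) ^ A) * Real.exp (A * ((I : ℝ) + 1) ^ 2)) *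
                (p : ℝ) ^ (A * I ^ 2) := by gcongr
          _ ≤ (Real.exp (T₁ * ((I : ℝ) + 1) ^ 2) * (Real.exp (p * ((I : ℝ) + 1) ^ 2) *
                Real.exp (A * ((I : ℝ) + 1) ^ 2)) * Real.exp (A * ((I : ℝ) + 1) ^ 2)) *
                Real.exp (p * A * ((I : ℝ) + 1) ^ 2) := by gcongr
          _ = Real.exp ((T₁ + p + 2 * A + p * A) * ((I : ℝ) + 1) ^ 2) := by
            rw [← Real.exp_add, ← Real.exp_add, ← Real.exp_add, ← Real.exp_add]
            congr 1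
            ring
          _ ≤ _ := Real.exp_le_exp.2 h1
      exact_mod_cast h5) (by
      rw [hi₀, Nat.add_sub_cancel]
      exact H.he.id_le _)
  refine hmom.trans ?_
  have hG1 : (0 : ℝ) < ((I : ℝ) + 1) ^ 6 := by positivity
  have hKle := sqrt_prod_le (fun i => q (k i) * (1 - q (k i))) (fun i => by
      have := sq_nonneg (1 - 2 * q (k i))
      nlinarith) (ilev p A c₁ I) I h4 _ (ilev_le p A c₁ I hp2) h3
  have hpa : ((I : ℝ) + 1) ^ 6 ≤ (p : ℝ) ^ a := by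
    have h5 : I + 1 ≤ 2 ^ (Nat.log 2 (I + 1) + 1) := (Nat.lt_pow_succ_log_self (by norm_num) _).le
    have h6 : (I + 1) ^ 6 ≤ p ^ a := by
      calc (I + 1) ^ 6 ≤ (2 ^ (Nat.log 2 (I + 1) + 1)) ^ 6 := Nat.pow_le_pow_left h5 6
        _ = 2 ^ a := by rw [← pow_mul, ha, mul_comm]
        _ ≤ p ^ a := Nat.pow_le_pow_left hp2 a
    exact_mod_cast h6
  have hn0 : ((m I + Q I : ℕ) : ℝ) * ((I : ℝ) + 1) ^ 6 ≤ N := by
    refine le_trans ?_ hIN
    have h5 : ((m I + Q I : ℕ) : ℝ) ≤ 2 * Real.exp (A * ((I : ℝ) + 1) ^ 2) := by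
      push_cast
      have := H.hm I
      have := H.hQ I
      linarith
    have h6 : (2 : ℝ) ≤ Real.exp (((I : ℝ) + 1) ^ 2) := by
      refine le_trans ?_ (Real.add_one_le_exp _)
      nlinarith
    calc ((m I + Q I : ℕ) : ℝ) * ((I : ℝ) + 1) ^ 6 ≤
          (2 * Real.exp (A * ((I : ℝ) + 1) ^ 2)) * Real.exp (6 * ((I : ℝ) + 1) ^ 2) := by gcongr
      _ ≤ (Real.exp (((I : ℝ) + 1) ^ 2) * Real.exp (A * ((I : ℝ) + 1) ^ 2)) *
            Real.exp (6 * ((I : ℝ) + 1) ^ 2) := by gcongr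
      _ = Real.exp ((A + 7) * ((I : ℝ) + 1) ^ 2) := by
        rw [← Real.exp_add, ← Real.exp_add]
        congr 1
        ring
      _ ≤ _ := Real.exp_le_exp.2 h2
  have hG2 : ((I : ℝ) + 1) ^ 6 ≤ N := by
    refine le_trans ?_ hIN
    refine hIexp.trans (Real.exp_le_exp.2 ?_)
    refine le_trans ?_ h2
    gcongr
    have : (0 : ℝ) ≤ A := Nat.cast_nonneg _
    linarith
  refine (final_bound N (((I : ℝ) + 1) ^ 6) _ _ ((p : ℝ) ^ a) hN0 hG1 hG2 hn0 hKle hpa).trans ?_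
  gcongr

end

end Pool.Agent.H607
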