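import Pool.Agent.H607.DataGen
import Pool.Agent.H607.DigitLaw
import Pool.Agent.H607.AS
import Pool.Agent.H607.Series
import Pool.Agent.H607.ExpTerms

/-!
# Random factorial digits at a very sparse sequence of places
-/

set_option autoImplicit false

namespace Pool.Agent.H607

open Finset Filter Topology MeasureTheory ProbabilityTheory
open Pool.Agent.W206.ND (ee NT AV)

lemma lin_le_two_pow (C : ℕ) : ∀ᶠ x : ℕ in atTop, C * (x + 1) ≤ 2 ^ x := by
  filter_upwards [eventually_ge_atTop (4 * C)] with x hx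
  have h1 : x / 2 < 2 ^ (x / 2) := Nat.lt_two_pow_self
  have h2 : (2 ^ (x / 2)) ^ 2 ≤ 2 ^ x := by
    rw [← pow_mul]
    exact Nat.pow_le_pow_right (by norm_num) (by omega)
  have h3 : (x / 2 + 1) ^ 2 ≤ (2 ^ (x / 2)) ^ 2 := Nat.pow_le_pow_left h1 2
  have h4 : C * (x + 1) ≤ C * (2 * (x / 2 + 1)) := Nat.mul_le_mul_left _ (by omega)
  have h5 : C * (2 * (x / 2 + 1)) ≤ (x / 2 + 1) ^ 2 := by
    have : 2 * C ≤ x / 2 + 1 := by omega
    nlinarith
  omega

section Rec

variable {ss : ℕ → ℕ} (hrec : ∀ j, ss (j + 1) = ss j + ss j / 16)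

include hrec

lemma ss_ge (h16 : 16 ≤ ss 0) (j : ℕ) : 16 ≤ ss j := by
  induction j with
  | zero => exact h16
  | succ j ih => rw [hrec]; omega

lemma ss_mono (h16 : 16 ≤ ss 0) : StrictMono ss := by
  apply strictMono_nat_of_lt_succ
  intro j
  have := ss_ge hrec h16 j
  rw [hrec]
  omega

lemma ss_sum (i I : ℕ) (hi : i ≤ I) : 16 * ss I ≤ 16 * ss i + ∑ j ∈ Ico i I, ss j := by
  induction I, hi using Nat.le_induction with
  | base => simp
  | succ I hI ih =>
    rw [sum_Ico_succ_top hI, hrec]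
    omega

end Rec

lemma fac_ge (p n : ℕ) (hp : p.Prime) : n / p ≤ (n.factorial).factorization p := by
  rw [Nat.factorization_factorial hp (b := Nat.log p n + 2) (by omega)]
  calc n / p = n / p ^ 1 := by rw [pow_one]
    _ ≤ ∑ i ∈ Ico 1 (Nat.log p n + 2), n / p ^ i :=
      single_le_sum (f := fun i => n / p ^ i) (fun _ _ => Nat.zero_le _) (by
        rw [mem_Ico]
        omega)

lemma fac_gap (p a n : ℕ) (hp : p.Prime) :
    (a.factorial).factorization p + n / p ≤ ((a + n).factorial).factorization p := by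
  have h1 : a.factorial * n.factorial ∣ (a + n).factorial := Nat.factorial_mul_factorial_dvd_factorial_add a n
  have h2 := (Nat.factorization_le_iff_dvd (by
    exact mul_ne_zero (Nat.factorial_ne_zero _) (Nat.factorial_ne_zero _)) (Nat.factorial_ne_zero _)).2 h1
  have h3 := h2 p
  rw [Nat.factorization_mul (Nat.factorial_ne_zero _) (Nat.factorial_ne_zero _), Finsupp.add_apply] at h3
  have := fac_ge p n hp
  omega

/-- the level belonging to `N` -/
lemma exists_level (ss : ℕ → ℕ) (hm : StrictMono ss) (N : ℕ) :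
    ∃ j, Real.log N < ((2 : ℝ) ^ (ss j)) ^ 3 := by
  have h1 : Tendsto (fun j => ((2 : ℝ) ^ (ss j)) ^ 3) atTop atTop := by
    have h2 : Tendsto (fun j => (2 : ℝ) ^ (ss j)) atTop atTop :=
      (tendsto_pow_atTop_atTop_of_one_lt (by norm_num)).comp hm.tendsto_atTop
    exact (tendsto_pow_atTop (by norm_num)).comp h2
  exact (h1.eventually_gt_atTop _).exists

theorem digits_as {b : ℕ} (hb : 2 ≤ b) {Ω : Type*} [MeasurableSpace Ω] {μ : Measure Ω}
    [IsProbabilityMeasure μ] {X : Ω → ℝ} (hX : Measurable X) (s₀ : ℕ → ℕ) (h16 : 16 ≤ s₀ 0)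
    (hrec₀ : ∀ j, s₀ (j + 1) = s₀ j + s₀ j / 16) (h : ℤ) (hh : h ≠ 0)
    (hch : ∀ (i₁ I : ℕ) (t : ℝ), ch μ X t ^ 2 ≤
      ∏ j ∈ range I, dirich (2 ^ (s₀ (i₁ + j))) (t * (h / ((2 ^ (s₀ (i₁ + j))).factorial : ℝ)))) :
    ∀ᵐ ω ∂μ, AV b (X ω) 1 := by
  classical
  obtain ⟨p, hpge, hp⟩ := Nat.exists_infinite_primes (b + h.natAbs + 1)
  have hph : ¬ (p : ℤ) ∣ h := by
    intro hd
    have h1 : p ∣ h.natAbs := Int.natCast_dvd.1 hd
    have h2 := Nat.le_of_dvd (Int.natAbs_pos.2 hh) h1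
    omega
  have hpb : ¬ p ∣ b := fun hd => by
    have := Nat.le_of_dvd (by omega) hd
    omega
  have hp2 := hp.two_le
  have hp0 := hp.pos
  obtain ⟨T₁, c₁, hT₁, hc₁, hx⟩ := exists_base hp hb hpb
  -- the shift
  obtain ⟨S₀, hS₀⟩ := eventually_atTop.1 (lin_le_two_pow (2 * p))
  have hm₀ := ss_mono hrec₀ h16
  obtain ⟨i₁, hi₁⟩ : ∃ i₁, S₀ ≤ s₀ i₁ := ⟨S₀, hm₀.id_le S₀⟩
  set ss : ℕ → ℕ := fun j => s₀ (i₁ + j) with hss
  have hrec : ∀ j, ss (j + 1) = ss j + ss j / 16 := fun j => hrec₀ (i₁ + j)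
  have hm : StrictMono ss := fun a b hab => hm₀ (by omega)
  have h16' : ∀ j, 16 ≤ ss j := fun j => ss_ge hrec₀ h16 _
  have hbig : ∀ j, 2 * p * (ss j + 1) ≤ 2 ^ (ss j) := by
    intro j
    apply hS₀
    exact hi₁.trans (hm₀.monotone (by omega))
  set k : ℕ → ℕ := fun j => 2 ^ (ss j) with hk
  set e : ℕ → ℕ := fun j => ((k j).factorial).factorization p with he
  have hkmono : StrictMono k := fun a b hab => Nat.pow_lt_pow_right (by norm_num) (hm hab)
  have hgap : ∀ j, e j + ss (j + 1) ≤ e (j + 1) := by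
    intro j
    have h1 : k (j + 1) = k j + (k (j + 1) - k j) := by
      have := hkmono (show j < j + 1 by omega)
      omega
    have h2 := fac_gap p (k j) (k (j + 1) - k j) hp
    rw [← h1] at h2
    have h3 : k j ≤ k (j + 1) - k j := by
      have h4 : 2 * k j ≤ k (j + 1) := by
        simp only [hk]
        rw [← pow_succ']
        exact Nat.pow_le_pow_right (by norm_num) (hm (Nat.lt_succ_self j))
      omega
    have h5 : ss (j + 1) ≤ (k (j + 1) - k j) / p := by
      rw [Nat.le_div_iff_mul_le hp0]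
      have h6 := hbig j
      have h7 : ss (j + 1) ≤ 2 * (ss j + 1) := by rw [hrec]; omega
      calc ss (j + 1) * p ≤ (2 * (ss j + 1)) * p := Nat.mul_le_mul_right _ h7
        _ = 2 * p * (ss j + 1) := by ring
        _ ≤ k j := h6
        _ ≤ _ := h3
    simp only [he]
    omega
  have hemono : StrictMono e := by
    apply strictMono_nat_of_lt_succ
    intro j
    have h1 := hgap j
    have h2 := h16' (j + 1)
    omega
  -- the level of `N`
  set Ix : ℕ → ℕ := fun N => Nat.find (exists_level ss hm N) with hIx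
  have hIxlt : ∀ N : ℕ, Real.log N < ((2 : ℝ) ^ (ss (Ix N))) ^ 3 := fun N => Nat.find_spec (exists_level ss hm N)
  have hIxge : ∀ N j, j < Ix N → ((2 : ℝ) ^ (ss j)) ^ 3 ≤ Real.log N := by
    intro N j hj
    have := Nat.find_min (exists_level ss hm N) hj
    push Not at this
    exact this
  have hIxt : Tendsto Ix atTop atTop := by
    rw [tendsto_atTop]
    intro J
    have h1 : Tendsto (fun N : ℕ => Real.log N) atTop atTop :=
      Real.tendsto_log_atTop.comp tendsto_natCast_atTop_atTop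
    filter_upwards [h1.eventually_ge_atTop (((2 : ℝ) ^ (ss J)) ^ 3)] with N hN
    by_contra hcon
    push Not at hcon
    have h2 := hIxlt N
    have h3 : ((2 : ℝ) ^ (ss (Ix N))) ^ 3 ≤ ((2 : ℝ) ^ (ss J)) ^ 3 := by
      gcongr
      · norm_num
      · exact hm.monotone hcon.le
    linarith
  refine as_av b hX 9 ?_
  -- the conditions
  obtain ⟨S₁, hS₁⟩ := eventually_atTop.1 (lin_le_two_pow (p * (2 * c₁ + 83)))
  have e1 := hIxt.eventually (eventually_ge_atTop (T₁ + 2 * p + 30 + 10 * S₁ + 9 * ss 0 + 9))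
  filter_upwards [e1, eventually_ge_atTop 3] with N h1 hN3
  set I := Ix N with hI
  have hN0 : (0 : ℝ) < N := by
    have : 0 < N := by omega
    exact_mod_cast this
  have hlogN : 0 < Real.log N := Real.log_pos (by
    have : 1 < N := by omega
    exact_mod_cast this)
  set K := k (I - 1) with hK
  have hKN : ((K : ℕ) : ℝ) ^ 3 ≤ Real.log N := by
    have := hIxge N (I - 1) (by omega)
    simp only [hK, hk]
    push_cast
    exact this
  have hNexp : Real.exp ((K : ℝ) ^ 3) ≤ N := by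
    calc Real.exp ((K : ℝ) ^ 3) ≤ Real.exp (Real.log N) := Real.exp_le_exp.2 hKN
      _ = N := Real.exp_log hN0
  have hssI : ss I ≤ 2 * ss (I - 1) := by
    have h2 : (I - 1) + 1 = I := by omega
    have h3 := hrec (I - 1)
    rw [h2] at h3
    omega
  have hIle : ∀ j, j ≤ ss j := hm.id_le
  have hKbig : (T₁ : ℝ) + 2 * p + 30 ≤ K := by
    have h2 : T₁ + 2 * p + 30 ≤ K := by
      have h3 := hIle (I - 1)
      have h4 : ss (I - 1) < 2 ^ (ss (I - 1)) := Nat.lt_two_pow_self
      simp only [hK, hk]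
      omega
    exact_mod_cast h2
  have hK1 : (1 : ℝ) ≤ K := by
    have : (0 : ℝ) ≤ T₁ := Nat.cast_nonneg _
    have : (0 : ℝ) ≤ p := Nat.cast_nonneg _
    linarith
  have hlog2K : Nat.log p K ≤ ss (I - 1) := by
    calc Nat.log p K ≤ Nat.log 2 K := Nat.log_anti_left (by norm_num) hp2
      _ = ss (I - 1) := by simp only [hK, hk]; exact Nat.log_pow (by norm_num) _
  -- the first level
  obtain ⟨i₀, hi₀1, hi₀I, hi₀a, hi₀b⟩ : ∃ i₀, 1 ≤ i₀ ∧ i₀ ≤ I ∧ ss I ≤ 9 * ss i₀ ∧ 9 * ss (i₀ - 1) < ss I := by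
    have hex : ∃ i, ss I ≤ 9 * ss i := ⟨I, by omega⟩
    refine ⟨Nat.find hex, ?_, ?_, Nat.find_spec hex, ?_⟩
    · by_contra hcon
      have h2 : Nat.find hex = 0 := by omega
      have h3 := Nat.find_spec hex
      rw [h2] at h3
      have := hIle I
      omega
    · exact Nat.find_min' hex (by omega)
    · have h2 : Nat.find hex ≠ 0 := by
        intro h2
        have h3 := Nat.find_spec hex
        rw [h2] at h3
        have := hIle I
        omega
      have h4 := Nat.find_min hex (show Nat.find hex - 1 < Nat.find hex by omega)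
      omega
  have hi₀c : 8 * ss i₀ ≤ ss I := by
    have h2 : (i₀ - 1) + 1 = i₀ := by omega
    have h3 := hrec (i₀ - 1)
    rw [h2] at h3
    omega
  have hi₀d : ss I ≤ 10 * ss (i₀ - 1) := by
    have h2 : (i₀ - 1) + 1 = i₀ := by omega
    have h3 := hrec (i₀ - 1)
    rw [h2] at h3
    omega
  have hei₀ : 2 * (c₁ + (Nat.log p K + 1)) + 6 * ss I ≤ e (i₀ - 1) := by
    have h2 := fac_ge p (k (i₀ - 1)) hp
    have h3 : p * (2 * c₁ + 83) * (ss (i₀ - 1) + 1) ≤ 2 ^ (ss (i₀ - 1)) := by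
      apply hS₁
      have := hIle I
      omega
    have h4 : (2 * c₁ + 83) * (ss (i₀ - 1) + 1) ≤ k (i₀ - 1) / p := by
      rw [Nat.le_div_iff_mul_le hp0]
      calc (2 * c₁ + 83) * (ss (i₀ - 1) + 1) * p = p * (2 * c₁ + 83) * (ss (i₀ - 1) + 1) := by ring
        _ ≤ k (i₀ - 1) := h3
    have h5 : ss (I - 1) ≤ ss I := hm.monotone (by omega)
    have h6 : 2 * (c₁ + (Nat.log p K + 1)) + 6 * ss I ≤ (2 * c₁ + 83) * (ss (i₀ - 1) + 1) := by
      nlinarith [Nat.zero_le (c₁ * ss (i₀ - 1))]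
    simp only [he]
    omega
  -- the data
  set oc : ℕ → ℕ := fun x => x / p ^ x.factorization p with hoc
  have hocmul : ∀ x, p ^ x.factorization p * oc x = x := fun x => Nat.ordProj_mul_ordCompl_eq_self x p
  have hkK : ∀ i < I, k i ≤ K := fun i hi => hkmono.monotone (by omega)
  obtain ⟨T, u, hT, D⟩ := data_gen hp hpb hT₁ hc₁ hx I 0 (oc (K.factorial)) K e
    (fun i => oc ((k i).factorial)) (fun _ => h) (fun i => h / ((k i).factorial : ℝ))
    (fun i _ => hemono (Nat.lt_succ_self i)) (by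
      intro i _
      have h2 : ((k i).factorial : ℝ) = (p : ℝ) ^ (e i) * oc ((k i).factorial) := by
        exact_mod_cast (hocmul ((k i).factorial)).symm
      have h3 : ((k i).factorial : ℝ) ≠ 0 := by exact_mod_cast Nat.factorial_ne_zero _
      rw [← mul_assoc, ← h2]
      field_simp) (fun i _ => hph) (by
      intro i hi
      rw [pow_zero, one_mul]
      exact Nat.ordCompl_dvd_ordCompl_of_dvd (Nat.factorial_dvd_factorial (hkK i hi)) p)
    (Nat.not_dvd_ordCompl hp (Nat.factorial_ne_zero _)) (by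
      intro l hl hd
      have h2 : l ∣ K.factorial := hd.trans (Nat.div_dvd_of_dvd (Nat.ordProj_dvd _ _))
      exact hl.dvd_factorial.1 h2)
  have hQexp : (oc (K.factorial) : ℝ) ≤ Real.exp ((K : ℝ) ^ 2) := by
    refine le_trans ?_ (fact_le_exp K)
    exact_mod_cast Nat.div_le_self _ _
  have hmom := moment_le (μ := μ) (X := X) hX hb D
    (fun i => dirich (k i)) (fun i θ => dirich_periodic _ θ) (fun i θ => dirich_nonneg _ θ)
    (fun i θ => dirich_le_one _ θ) (by
      intro t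
      exact hch i₁ I t)
    (fun i => 1 / (k i : ℝ))
    i₀ hi₀1 hi₀I (fun i => by positivity) (by
      intro i hi hiI θ
      have h2 : (i - 1) + 1 = i := by omega
      have h3 : k i ≤ p ^ (e i - e (i - 1)) := by
        have h4 := hgap (i - 1)
        rw [h2] at h4
        calc k i = 2 ^ (ss i) := rfl
          _ ≤ p ^ (ss i) := Nat.pow_le_pow_left hp2 _
          _ ≤ p ^ (e i - e (i - 1)) := Nat.pow_le_pow_right hp0 (by omega)
      have h5 := dirich_avg (k i) (p ^ (e i - e (i - 1))) (by positivity) h3 θ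
      push_cast at h5
      exact h5)
    (K ^ 2) N (6 * ss I) (by
      intro i hi
      refine (fact_val_le p (k i) hp).trans ?_
      exact Nat.pow_le_pow_left (hkK i hi) 2) (by
      have h5 : ((T * p ^ (K ^ 2) : ℕ) : ℝ) ≤ N := by
        refine le_trans ?_ hNexp
        have hT' : (T : ℝ) ≤ T₁ * (p * K) * Real.exp ((K : ℝ) ^ 2) := by
          have h6 : T ≤ T₁ * (p * K) * oc (K.factorial) := by
            refine hT.trans ?_
            have h7 : p ^ (Nat.log p K + 1) ≤ p * K := by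
              rw [pow_succ, mul_comm]
              exact Nat.mul_le_mul_left _ (Nat.pow_log_le_self p (by positivity))
            gcongr
          have h8 : (T : ℝ) ≤ T₁ * (p * K) * oc (K.factorial) := by exact_mod_cast h6
          refine h8.trans ?_
          gcongr
        have hself : ∀ x : ℝ, x ≤ Real.exp x := fun x => by
          have := Real.add_one_le_exp x
          linarith
        push_cast
        calc (T : ℝ) * (p : ℝ) ^ (K ^ 2) ≤
              (T₁ * (p * K) * Real.exp ((K : ℝ) ^ 2)) * (p : ℝ) ^ (K ^ 2) := by gcongr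
          _ ≤ (Real.exp T₁ * (Real.exp p * Real.exp K) * Real.exp ((K : ℝ) ^ 2)) * (Real.exp p) ^ (K ^ 2) := by
              gcongr
              · exact hself _
              · exact hself _
              · exact hself _
              · exact hself _
          _ = Real.exp (T₁ + p + K + (K : ℝ) ^ 2 + p * (K : ℝ) ^ 2) := by
            rw [← Real.exp_nat_mul, ← Real.exp_add, ← Real.exp_add, ← Real.exp_add, ← Real.exp_add]
            congr 1
            push_cast
            ring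
          _ ≤ _ := by
            apply Real.exp_le_exp.2
            have hK2 : (K : ℝ) ≤ (K : ℝ) ^ 2 := by nlinarith
            have hK3 : (1 : ℝ) ≤ (K : ℝ) ^ 2 := by nlinarith
            have a1 : (T₁ : ℝ) ≤ T₁ * (K : ℝ) ^ 2 := le_mul_of_one_le_right (Nat.cast_nonneg _) hK3
            have a2 : (p : ℝ) ≤ p * (K : ℝ) ^ 2 := le_mul_of_one_le_right (Nat.cast_nonneg _) hK3
            have a3 : ((T₁ : ℝ) + 2 * p + 30) * (K : ℝ) ^ 2 ≤ K * (K : ℝ) ^ 2 := by gcongr
            have a4 : (K : ℝ) * (K : ℝ) ^ 2 = (K : ℝ) ^ 3 := by ring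
            nlinarith
      exact_mod_cast h5) hei₀
  refine hmom.trans ?_
  -- the final bound
  have hkI : ((2 : ℝ) ^ (ss I)) ≤ (K : ℝ) ^ 2 := by
    have h2 : 2 ^ (ss I) ≤ K ^ 2 := by
      simp only [hK, hk]
      rw [← pow_mul]
      exact Nat.pow_le_pow_right (by norm_num) (by omega)
    exact_mod_cast h2
  have hG0 : (0 : ℝ) < ((2 : ℝ) ^ (ss I)) ^ 6 := by positivity
  have hGK : ((2 : ℝ) ^ (ss I)) ^ 6 ≤ Real.exp (12 * K) := by
    have hself : (K : ℝ) ≤ Real.exp K := by
      have := Real.add_one_le_exp (K : ℝ)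
      linarith
    calc ((2 : ℝ) ^ (ss I)) ^ 6 ≤ ((K : ℝ) ^ 2) ^ 6 := by gcongr
      _ = (K : ℝ) ^ 12 := by ring
      _ ≤ (Real.exp K) ^ 12 := by gcongr
      _ = Real.exp (12 * K) := by rw [← Real.exp_nat_mul]; norm_num
  have hKpol : (K : ℝ) ^ 2 + 12 * K ≤ (K : ℝ) ^ 3 := by
    have h30 : (30 : ℝ) ≤ K := by
      have : (0 : ℝ) ≤ T₁ := Nat.cast_nonneg _
      have : (0 : ℝ) ≤ p := Nat.cast_nonneg _
      linarith
    nlinarith [sq_nonneg (K : ℝ)]
  have hf := final_bound N (((2 : ℝ) ^ (ss I)) ^ 6) ((0 + oc (K.factorial) : ℕ) : ℝ)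
    (√(∏ i ∈ Ico i₀ I, (1 / (k i : ℝ)))) ((p : ℝ) ^ (6 * ss I)) hN0 hG0 (by
      refine hGK.trans ((Real.exp_le_exp.2 ?_).trans hNexp)
      nlinarith [sq_nonneg (K : ℝ)]) (by
      refine le_trans ?_ hNexp
      rw [zero_add]
      calc (oc (K.factorial) : ℝ) * ((2 : ℝ) ^ (ss I)) ^ 6 ≤
            Real.exp ((K : ℝ) ^ 2) * Real.exp (12 * K) := by gcongr
        _ = Real.exp ((K : ℝ) ^ 2 + 12 * K) := by rw [← Real.exp_add]
        _ ≤ _ := Real.exp_le_exp.2 hKpol) (by
      rw [Real.sqrt_le_left (by positivity)]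
      have h2 : ∏ i ∈ Ico i₀ I, (1 / (k i : ℝ)) = 1 / (2 : ℝ) ^ (∑ i ∈ Ico i₀ I, ss i) := by
        rw [prod_div_distrib, prod_const_one]
        simp only [hk]
        push_cast
        rw [prod_pow_eq_pow_sum]
      rw [h2, div_pow, one_pow, ← pow_mul, ← pow_mul]
      apply one_div_le_one_div_of_le (by positivity)
      apply pow_le_pow_right₀ (by norm_num)
      have h3 := ss_sum hrec i₀ I hi₀I
      omega) (by
      calc ((2 : ℝ) ^ (ss I)) ^ 6 = (2 : ℝ) ^ (6 * ss I) := by rw [← pow_mul, mul_comm]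
        _ ≤ (p : ℝ) ^ (6 * ss I) := by
          gcongr
          exact_mod_cast hp2)
  refine hf.trans ?_
  have hlog6 : (Real.log N) ^ 2 ≤ ((2 : ℝ) ^ (ss I)) ^ 6 := by
    calc (Real.log N) ^ 2 ≤ (((2 : ℝ) ^ (ss I)) ^ 3) ^ 2 := by
          gcongr
          exact (hIxlt N).le
      _ = _ := by ring
  gcongr

end Pool.Agent.H607
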