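import Pool.Agent.H607.Weyl
import Pool.Agent.H607.Ortho

/-!
# Second moments of the Weyl sums of random numbers
-/

set_option autoImplicit false

namespace Pool.Agent.H607

open Finset Filter Topology MeasureTheory
open Pool.Agent.W206.ND (ee NT AV)

lemma ee_add (x y : ℝ) : ee (x + y) = ee x * ee y := by
  rw [ee, ee, ee, ← Complex.exp_add]
  congr 1
  push_cast
  ring

lemma ee_norm (x : ℝ) : ‖ee x‖ = 1 := by
  have h : ee x = Complex.exp (((2 * Real.pi * x : ℝ) : ℂ) * Complex.I) := by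
    rw [ee]; congr 1; push_cast; ring
  rw [h, Complex.norm_exp_ofReal_mul_I]

lemma ee_conj (x : ℝ) : (starRingEnd ℂ) (ee x) = ee (-x) := by
  rw [ee, ee, ← Complex.exp_conj]
  congr 1
  simp only [map_mul, Complex.conj_ofReal, Complex.conj_I, map_ofNat]
  push_cast
  ring

lemma ee_int (k : ℤ) : ee (k : ℝ) = 1 := by
  rw [ee, Complex.exp_eq_one_iff]
  exact ⟨k, by push_cast; ring⟩

lemma ee_zero : ee 0 = 1 := by simpa using ee_int 0

lemma ee_continuous : Continuous ee := by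
  unfold ee
  fun_prop

/-- the absolute value of the Fourier transform of the law of `X` -/
noncomputable def ch {Ω : Type*} [MeasurableSpace Ω] (μ : Measure Ω) (X : Ω → ℝ) (t : ℝ) : ℝ :=
  ‖∫ ω, ee (t * X ω) ∂μ‖

section

variable {Ω : Type*} [MeasurableSpace Ω] {μ : Measure Ω} [IsProbabilityMeasure μ] {X : Ω → ℝ}

lemma ee_integrable (hX : Measurable X) (t : ℝ) : Integrable (fun ω => ee (t * X ω)) μ := by
  refine Integrable.mono' (integrable_const (1 : ℝ)) ?_ (ae_of_all _ fun ω => ?_)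
  · exact (ee_continuous.measurable.comp (hX.const_mul t)).aestronglyMeasurable
  · rw [ee_norm]

lemma ch_le_one (t : ℝ) : ch μ X t ≤ 1 := by
  unfold ch
  refine (norm_integral_le_integral_norm _).trans ?_
  simp [ee_norm]

lemma ch_nonneg (t : ℝ) : 0 ≤ ch μ X t := norm_nonneg _

lemma ch_neg (t : ℝ) : ch μ X (-t) = ch μ X t := by
  unfold ch
  have h : ∫ ω, ee (-t * X ω) ∂μ = (starRingEnd ℂ) (∫ ω, ee (t * X ω) ∂μ) := by
    rw [← integral_conj]
    congr 1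
    ext ω
    rw [ee_conj]
    congr 1
    ring
  rw [h, RCLike.norm_conj]

/-- the Weyl sum -/
noncomputable def WS (b : ℕ) (x : ℝ) (N : ℕ) : ℂ := ∑ n ∈ range N, ee ((b : ℝ) ^ n * x)

lemma ws_norm_le (b : ℕ) (x : ℝ) (N : ℕ) : ‖WS b x N‖ ≤ N := by
  unfold WS
  refine (norm_sum_le _ _).trans ?_
  simp [ee_norm]

lemma ws_measurable (b N : ℕ) (hX : Measurable X) : Measurable (fun ω => WS b (X ω) N) := by
  unfold WS
  refine Finset.measurable_sum _ fun n _ => ?_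
  exact ee_continuous.measurable.comp (hX.const_mul _)

/-- the second moment in terms of the Fourier transform -/
lemma second_le (b N : ℕ) (hX : Measurable X) :
    ∫ ω, ‖WS b (X ω) N‖ ^ 2 ∂μ ≤
      N + 2 * ∑ t ∈ Ico 1 N, ∑ n ∈ range N, ch μ X (((b : ℝ) ^ t - 1) * (b : ℝ) ^ n) := by
  have h1 : ∀ x : ℝ, ((‖WS b x N‖ ^ 2 : ℝ) : ℂ) =
      ∑ m ∈ range N, ∑ n ∈ range N, ee (((b : ℝ) ^ m - (b : ℝ) ^ n) * x) := by
    intro x
    have h2 : ((‖WS b x N‖ ^ 2 : ℝ) : ℂ) = WS b x N * (starRingEnd ℂ) (WS b x N) := by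
      rw [Complex.mul_conj, Complex.normSq_eq_norm_sq]
    rw [h2]
    unfold WS
    rw [map_sum, sum_mul_sum]
    refine sum_congr rfl fun m _ => sum_congr rfl fun n _ => ?_
    rw [ee_conj, ← ee_add]
    congr 1
    ring
  have h3 : ((∫ ω, ‖WS b (X ω) N‖ ^ 2 ∂μ : ℝ) : ℂ) =
      ∑ m ∈ range N, ∑ n ∈ range N, ∫ ω, ee (((b : ℝ) ^ m - (b : ℝ) ^ n) * X ω) ∂μ := by
    rw [← integral_complex_ofReal]
    simp only [h1]
    rw [integral_finsetSum _ (fun m _ => integrable_finsetSum _ fun n _ => ee_integrable hX _)]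
    refine sum_congr rfl fun m _ => ?_
    rw [integral_finsetSum _ (fun n _ => ee_integrable hX _)]
  have h4 : ∫ ω, ‖WS b (X ω) N‖ ^ 2 ∂μ ≤
      ∑ m ∈ range N, ∑ n ∈ range N, ch μ X ((b : ℝ) ^ m - (b : ℝ) ^ n) := by
    have h5 : ∫ ω, ‖WS b (X ω) N‖ ^ 2 ∂μ = ‖((∫ ω, ‖WS b (X ω) N‖ ^ 2 ∂μ : ℝ) : ℂ)‖ := by
      rw [Complex.norm_real, Real.norm_of_nonneg (integral_nonneg fun ω => by positivity)]
    rw [h5, h3]
    refine (norm_sum_le _ _).trans (sum_le_sum fun m _ => ?_)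
    exact norm_sum_le _ _
  refine h4.trans ?_
  have hsym : ∀ m n : ℕ, ch μ X ((b : ℝ) ^ m - (b : ℝ) ^ n) = ch μ X ((b : ℝ) ^ n - (b : ℝ) ^ m) := by
    intro m n
    rw [← ch_neg]
    congr 1
    ring
  have h6 : ∀ m ∈ range N, ∑ n ∈ range N, ch μ X ((b : ℝ) ^ m - (b : ℝ) ^ n) ≤
      1 + ∑ n ∈ range m, ch μ X ((b : ℝ) ^ m - (b : ℝ) ^ n) +
        ∑ n ∈ Ico (m + 1) N, ch μ X ((b : ℝ) ^ m - (b : ℝ) ^ n) := by
    intro m hm
    rw [mem_range] at hm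
    rw [range_eq_Ico, ← sum_Ico_consecutive _ (Nat.zero_le m) hm.le, sum_eq_sum_Ico_succ_bot hm,
      ← range_eq_Ico]
    have := ch_le_one (μ := μ) (X := X) ((b : ℝ) ^ m - (b : ℝ) ^ m)
    linarith
  have h7 : ∑ m ∈ range N, ∑ n ∈ Ico (m + 1) N, ch μ X ((b : ℝ) ^ m - (b : ℝ) ^ n) ≤
      ∑ t ∈ Ico 1 N, ∑ n ∈ range N, ch μ X (((b : ℝ) ^ t - 1) * (b : ℝ) ^ n) := by
    rw [sum_comm (s := Ico 1 N)]
    refine sum_le_sum fun m _ => ?_
    have h8 : ∑ n ∈ Ico (m + 1) N, ch μ X ((b : ℝ) ^ m - (b : ℝ) ^ n) =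
        ∑ t ∈ Ico 1 (N - m), ch μ X (((b : ℝ) ^ t - 1) * (b : ℝ) ^ m) := by
      rcases le_or_gt N m with hNm | hNm
      · rw [Ico_eq_empty (by omega), Ico_eq_empty (by omega), sum_empty, sum_empty]
      have h10 := sum_Ico_add' (fun n => ch μ X ((b : ℝ) ^ m - (b : ℝ) ^ n)) 1 (N - m) m
      rw [Nat.sub_add_cancel hNm.le, add_comm 1 m] at h10
      rw [← h10]
      refine sum_congr rfl fun t _ => ?_
      rw [hsym]
      congr 1
      ring
    rw [h8]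
    refine sum_le_sum_of_subset_of_nonneg ?_ fun _ _ _ => ch_nonneg _
    exact Ico_subset_Ico_right (by omega)
  have h9 : ∑ m ∈ range N, ∑ n ∈ range m, ch μ X ((b : ℝ) ^ m - (b : ℝ) ^ n) =
      ∑ m ∈ range N, ∑ n ∈ Ico (m + 1) N, ch μ X ((b : ℝ) ^ m - (b : ℝ) ^ n) := by
    rw [sum_comm' (t' := range N) (s' := fun n => Ico (n + 1) N) (by
      intro x y
      simp only [mem_range, mem_Ico]
      omega)]
    exact sum_congr rfl fun m _ => sum_congr rfl fun n _ => hsym _ _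
  calc ∑ m ∈ range N, ∑ n ∈ range N, ch μ X ((b : ℝ) ^ m - (b : ℝ) ^ n) ≤
        ∑ m ∈ range N, (1 + ∑ n ∈ range m, ch μ X ((b : ℝ) ^ m - (b : ℝ) ^ n) +
        ∑ n ∈ Ico (m + 1) N, ch μ X ((b : ℝ) ^ m - (b : ℝ) ^ n)) := sum_le_sum h6
    _ = N + 2 * ∑ m ∈ range N, ∑ n ∈ Ico (m + 1) N, ch μ X ((b : ℝ) ^ m - (b : ℝ) ^ n) := by
        rw [sum_add_distrib, sum_add_distrib, h9]
        simp only [sum_const, card_range, nsmul_eq_mul, mul_one]
        ring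
    _ ≤ _ := by linarith

end

end Pool.Agent.H607
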